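import Pool.Agent.RED.NS1
import Pool.Agent.RED.NS2

/-!
# Tuples over a generating tuple of a quotient: definitions
-/

set_option autoImplicit false

namespace RED

open AFn IAQ

namespace Sol

variable {n : ℕ} {G K : Type*} [Group G] [Group K]

/-- the kernel of `f` meets every subgroup onto which `f` is surjective trivially, except `⊤` -/
def MinK (f : G →* K) : Prop :=
  ∀ D : Subgroup G, D.map f = ⊤ → D ⊓ f.ker = ⊥ ∨ D = ⊤

/-- the generating tuples over `gb` -/
def Fb (f : G →* K) (gb : Fin n → K) (h : Fin n → G) : Prop :=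
  (∀ x, f (h x) = gb x) ∧ Gen h Finset.univ

/-- two letters which are not needed are joined through a third letter -/
def HL2p (h : Fin n → G) : Prop :=
  ∀ e e' : Fin n, Gen h {e}ᶜ → Gen h {e'}ᶜ → ∃ e'', Gen h {e, e''}ᶜ ∧ Gen h {e', e''}ᶜ

/-- one-letter moves preserving `gb` and using at most one other letter of `I` -/
def Good (I : Finset (Fin n)) (gb : Fin n → K) (s : MulAut (FreeGroup (Fin n))) : Prop :=
  s ∈ Gam gb ∧ ∃ c b : Fin n, s ∈ Mv c ∧ ∀ e ∈ I, e ≠ b → e ≠ c → Pres e s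

/-- points over the tuples over `gb` -/
structure FA {E : Type*} [MulAction (MulAut (FreeGroup (Fin n))) E] (f : G →* K)
    (I : Finset (Fin n)) (gb : Fin n → K) (p : E → Fin n → G) (In : E → Prop) : Prop where
  min : MinK f
  card : 5 ≤ I.card
  one : ∀ i ∈ I, gb i = 1
  gen : Gen gb Iᶜ
  ps : ∀ (θ : MulAut (FreeGroup (Fin n))) (x : E), p (θ • x) = act θ (p x)
  fb : ∀ x, In x → Fb f gb (p x)
  inn : ∀ θ ∈ Gam gb, ∀ x, In x → In (θ • x)
  red : ∀ (Y : Finset (Fin n)) (θ θ' : MulAut (FreeGroup (Fin n))) (x : E), In x →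
    Gen (p x) Yᶜ → θ ∈ MvS Y → θ' ∈ MvS Y → act θ (p x) = act θ' (p x) → θ • x = θ' • x
  qq : ∀ (j e i : Fin n) (θ θ' : MulAut (FreeGroup (Fin n))) (x : E), In x → j ≠ e → i ≠ e →
    i ≠ j → Gen (p x) {i, e}ᶜ → θ ∈ Mv j → θ' ∈ Mv j → Pres e θ → Pres e θ' →
    act θ (p x) = act θ' (p x) → θ • x = θ' • x

/-- the moves `T e y` giving the letter `e` the value `y` if the other letters generate -/
structure TOp {E : Type*} [MulAction (MulAut (FreeGroup (Fin n))) E] (f : G →* K)
    (gb : Fin n → K) (p : E → Fin n → G) (In : E → Prop) (T : Fin n → G → E → E) : Prop where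
  inT : ∀ (e : Fin n) (y : G) (x : E), In x → Gen (p x) {e}ᶜ → f y = gb e → In (T e y x)
  pT : ∀ (e : Fin n) (y : G) (x : E), In x → Gen (p x) {e}ᶜ → f y = gb e →
    p (T e y x) = Function.update (p x) e y
  eqT : ∀ (e : Fin n) (y : G) (x : E) (θ : MulAut (FreeGroup (Fin n))), In x →
    Gen (p x) {e}ᶜ → f y = gb e → θ ∈ Mv e → act θ (p x) = Function.update (p x) e y →
    θ • x = T e y x
  self : ∀ (e : Fin n) (x : E), In x → Gen (p x) {e}ᶜ → T e (p x e) x = x
  tri : ∀ (e : Fin n) (y z : G) (x : E), In x → Gen (p x) {e}ᶜ → f y = gb e → f z = gb e →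
    T e z (T e y x) = T e z x
  comm : ∀ (e : Fin n) (y : G) (x : E) (s : MulAut (FreeGroup (Fin n))), In x →
    Gen (p x) {e}ᶜ → f y = gb e → s ∈ Gam gb → Pres e s → s • T e y x = T e y (s • x)
  sq : ∀ (e e' : Fin n) (y z : G) (x : E), In x → e ≠ e' → Gen (p x) {e, e'}ᶜ → f y = gb e →
    f z = gb e' → T e' z (T e y x) = T e y (T e' z x)

/-- the move giving the letter `j` the value `y` with the help of the letter `e` -/
def Uc {E : Type*} [MulAction (MulAut (FreeGroup (Fin n))) E] (p : E → Fin n → G)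
    (T : Fin n → G → E → E) (e j : Fin n) (y : G) (x : E) : E :=
  T e (p x e) ((R j (FreeGroup.of e))⁻¹ • T e ((p x j)⁻¹ * y) x)

/-- a letter of `I` other than `e` has a value different from `1` -/
def Leg (I : Finset (Fin n)) (h : Fin n → G) (e : Fin n) : Prop := ∃ i ∈ I, i ≠ e ∧ h i ≠ 1

end Sol

end RED
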