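import Pool.Agent.RED4.SecC

/-!
# The section over all tuples over `gb`
-/

set_option autoImplicit false

namespace RED

open AFn IAQ

namespace Sol

variable {n : ℕ} {G K : Type*} [Group G] [Group K]

section

variable {E : Type*} [MulAction (MulAut (FreeGroup (Fin n))) E] {f : G →* K}
  {I : Finset (Fin n)} {gb : Fin n → K} {p : E → Fin n → G} {In : E → Prop}
  {T : Fin n → G → E → E}

private theorem Gen_upd {h : Fin n → G} {S : Finset (Fin n)} {e : Fin n} (he : e ∉ S) (y : G)
    (hg : Gen h S) : Gen (Function.update h e y) S := by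
  refine Gen_congr (fun x hx => ?_) hg
  rw [Function.update_of_ne]
  rintro rfl
  exact he hx

private theorem Fb_upd {h : Fin n → G} {e : Fin n} {y : G} (hh : Fb f gb h)
    (hg : Gen h {e}ᶜ) (hy : f y = gb e) : Fb f gb (Function.update h e y) := by
  refine ⟨fun x => ?_, ?_⟩
  · by_cases hx : x = e
    · subst hx
      rw [Function.update_self, hy]
    · rw [Function.update_of_ne hx, hh.1]
  · exact Gen_mono (Finset.subset_univ _) (Gen_upd (S := {e}ᶜ) (by simp) y hg)

private theorem gen_one_compl {h : Fin n → G} {e : Fin n} (hh : Fb f gb h) (h1 : h e = 1) :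
    Gen h {e}ᶜ := by
  refine gen_of_one hh.2 fun i _ hi => ?_
  rw [Finset.mem_compl, Finset.mem_singleton, not_not] at hi
  rw [hi, h1]

theorem sec_ext (hA : FA f I gb p In) (hT : TOp f gb p In T) (x0 : E) (hx0 : In x0)
    (h0 : ∀ i ∈ I, p x0 i = 1) {ν : G} (hν : f ν = 1) (hν1 : ν ≠ 1) :
    ∃ s : (Fin n → G) → E, s (p x0) = x0 ∧ (∀ h, Fb f gb h → In (s h) ∧ p (s h) = h) ∧
      (∀ (h : Fin n → G) (e : Fin n), Fb f gb h → e ∈ I → Gen h {e}ᶜ →
        s h = T e (h e) (s (Function.update h e ν))) ∧
      (∀ (h : Fin n → G) (e : Fin n) (y : G), Fb f gb h → e ∈ I → f y = gb e → Leg I h e →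
        s (Function.update h e y) = T e y (s h)) ∧
      ∀ (h : Fin n → G) (e j : Fin n) (y : G), Fb f gb h → e ∈ I → j ∉ I → f y = gb j →
        Leg I h e → s (Function.update h j y) = Uc p T e j y (s h) := by
  classical
  have hfν : ∀ e ∈ I, f ν = gb e := fun e he => by rw [hν, hA.one e he]
  have hf1 : ∀ e ∈ I, f (1 : G) = gb e := fun e he => by rw [map_one, hA.one e he]
  obtain ⟨i0, hi0⟩ : ∃ i, i ∈ I := Finset.card_pos.1 (by have := hA.card; omega)
  have hFb0 := hA.fb x0 hx0
  have hg0 : Gen (p x0) {i0}ᶜ := gen_one_compl hFb0 (h0 i0 hi0)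
  have hx1 : In (T i0 ν x0) := hT.inT i0 ν x0 hx0 hg0 (hfν i0 hi0)
  have hp1 : p (T i0 ν x0) = Function.update (p x0) i0 ν := hT.pT i0 ν x0 hx0 hg0 (hfν i0 hi0)
  obtain ⟨ss, hs1, hs2, hs3, hs4⟩ := sec_star hA hT (T i0 ν x0) hx1
    ⟨i0, hi0, by rw [hp1, Function.update_self]; exact hν1⟩
  set s : (Fin n → G) → E := fun h =>
    if ∃ i ∈ I, h i ≠ 1 then ss h else T i0 1 (ss (Function.update h i0 ν)) with hs
  have hspos : ∀ h, (∃ i ∈ I, h i ≠ 1) → s h = ss h := fun h hh => by
    rw [hs]; simp only; rw [if_pos hh]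
  have hsneg : ∀ h, (¬ ∃ i ∈ I, h i ≠ 1) → s h = T i0 1 (ss (Function.update h i0 ν)) :=
    fun h hh => by rw [hs]; simp only; rw [if_neg hh]
  -- an edge and its inverse
  have back : ∀ (h : Fin n → G) (e : Fin n), Fb f gb h → e ∈ I → Leg I h e → Gen h {e}ᶜ →
      T e (h e) (ss (Function.update h e ν)) = ss h := by
    intro h e hh he hl hg
    obtain ⟨i, hi, -, hi1⟩ := id hl
    obtain ⟨h1, h2⟩ := hs2 h hh ⟨i, hi, hi1⟩
    have hg' : Gen (p (ss h)) {e}ᶜ := by rw [h2]; exact hg
    have hfe : f (h e) = gb e := hh.1 e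
    rw [hs3 h e ν hh he (hfν e he) hl, hT.tri e ν (h e) (ss h) h1 hg' (hfν e he) hfe]
    have := hT.self e (ss h) h1 hg'
    rwa [h2] at this
  -- the common part of the cases in which all letters of `I` but `e` are `1`
  have key : ∀ (h : Fin n → G) (e a : Fin n), Fb f gb h → e ∈ I → a ∈ I → a ≠ e → h a = 1 →
      Gen h {e}ᶜ → s h = T a 1 (ss (Function.update h a ν)) →
      s h = T e (h e) (s (Function.update h e ν)) := by
    intro h e a hh he ha hae h1 hg hsh
    have hga : Gen h {a}ᶜ := gen_one_compl hh h1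
    have hgae : Gen h {a, e}ᶜ := by
      refine gen_of_one hg fun i hi hi' => ?_
      simp only [Finset.mem_compl, Finset.mem_insert, Finset.mem_singleton, not_or, not_and,
        not_not] at hi hi'
      by_cases hia : i = a
      · rw [hia, h1]
      · exact absurd (hi' hia) hi
    have hFa : Fb f gb (Function.update h a ν) := Fb_upd hh hga (hfν a ha)
    have hFk : Fb f gb (Function.update h e ν) := Fb_upd hh hg (hfν e he)
    have hgk : Gen (Function.update h e ν) {a}ᶜ := by
      have h2 : Gen (Function.update h e ν) {a, e}ᶜ := Gen_upd (by simp) ν hgae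
      refine Gen_mono ?_ h2
      intro x hx
      simp only [Finset.mem_compl, Finset.mem_insert, Finset.mem_singleton, not_or] at hx ⊢
      exact hx.1
    have hFka : Fb f gb (Function.update (Function.update h e ν) a ν) :=
      Fb_upd hFk hgk (hfν a ha)
    have hcomm : Function.update (Function.update h e ν) a ν =
        Function.update (Function.update h a ν) e ν := Function.update_comm hae _ _ _ |>.symm
    have hka_e : Function.update (Function.update h e ν) a ν e = ν := by
      rw [Function.update_of_ne hae.symm, Function.update_self]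
    -- `s k = T a 1 (ss k_a)`
    have e1 : s (Function.update h e ν) =
        T a 1 (ss (Function.update (Function.update h e ν) a ν)) := by
      rw [hspos _ ⟨e, he, by rw [Function.update_self]; exact hν1⟩]
      rw [← hs3 _ a 1 hFka ha (hf1 a ha) ⟨e, he, hae.symm, by rw [hka_e]; exact hν1⟩]
      congr 1
      rw [Function.update_idem]
      have h2 : (1 : G) = Function.update h e ν a := by rw [Function.update_of_ne hae, h1]
      conv_rhs => rw [h2]
      rw [Function.update_eq_self]
    -- `T e (h e) (ss k_a) = ss h_a`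
    have hha_e : Function.update h a ν e = h e := Function.update_of_ne hae.symm _ _
    have hgha : Gen (Function.update h a ν) {e}ᶜ := by
      have h2 : Gen (Function.update h a ν) {a, e}ᶜ := Gen_upd (by simp) ν hgae
      refine Gen_mono ?_ h2
      intro x hx
      simp only [Finset.mem_compl, Finset.mem_insert, Finset.mem_singleton, not_or] at hx ⊢
      exact hx.2
    have e2 : T e (h e) (ss (Function.update (Function.update h e ν) a ν)) =
        ss (Function.update h a ν) := by
      have h2 := back (Function.update h a ν) e hFa he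
        ⟨a, ha, hae, by rw [Function.update_self]; exact hν1⟩ hgha
      rw [hha_e, ← hcomm] at h2
      exact h2
    obtain ⟨g1, g2⟩ := hs2 _ hFka ⟨e, he, by rw [hka_e]; exact hν1⟩
    have hg3 : Gen (p (ss (Function.update (Function.update h e ν) a ν))) {a, e}ᶜ := by
      rw [g2]
      exact Gen_upd (by simp) ν (Gen_upd (by simp) ν hgae)
    rw [e1, hT.sq a e 1 (h e) _ g1 hae hg3 (hf1 a ha) (hh.1 e), e2, hsh]
  refine ⟨s, ?_, ?_, ?_, ?_, ?_⟩
  · have hn : ¬ ∃ i ∈ I, p x0 i ≠ 1 := by
      rintro ⟨i, hi, h1⟩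
      exact h1 (h0 i hi)
    rw [hsneg _ hn, ← hp1, hs1, hT.tri i0 ν 1 x0 hx0 hg0 (hfν i0 hi0) (hf1 i0 hi0)]
    have := hT.self i0 x0 hx0 hg0
    rwa [h0 i0 hi0] at this
  · intro h hh
    by_cases hi : ∃ i ∈ I, h i ≠ 1
    · rw [hspos h hi]
      exact hs2 h hh hi
    · have h1 : h i0 = 1 := by
        by_contra hc
        exact hi ⟨i0, hi0, hc⟩
      have hg : Gen h {i0}ᶜ := gen_one_compl hh h1
      have hF : Fb f gb (Function.update h i0 ν) := Fb_upd hh hg (hfν i0 hi0)
      obtain ⟨g1, g2⟩ := hs2 _ hF ⟨i0, hi0, by rw [Function.update_self]; exact hν1⟩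
      have hg' : Gen (p (ss (Function.update h i0 ν))) {i0}ᶜ := by
        rw [g2]
        exact Gen_upd (by simp) ν hg
      rw [hsneg h hi]
      refine ⟨hT.inT _ _ _ g1 hg' (hf1 i0 hi0), ?_⟩
      rw [hT.pT _ _ _ g1 hg' (hf1 i0 hi0), g2, Function.update_idem]
      conv_lhs => rw [← h1]
      rw [Function.update_eq_self]
  · intro h e hh he hg
    by_cases hl : Leg I h e
    · obtain ⟨i, hi, hie, hi1⟩ := id hl
      rw [hspos h ⟨i, hi, hi1⟩, hspos _ ⟨i, hi, by rw [Function.update_of_ne hie]; exact hi1⟩]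
      exact (back h e hh he hl hg).symm
    · have hone : ∀ i ∈ I, i ≠ e → h i = 1 := by
        intro i hi hie
        by_contra hc
        exact hl ⟨i, hi, hie, hc⟩
      by_cases he1 : h e = 1
      · have hn : ¬ ∃ i ∈ I, h i ≠ 1 := by
          rintro ⟨i, hi, h1⟩
          by_cases hie : i = e
          · rw [hie] at h1
            exact h1 he1
          · exact h1 (hone i hi hie)
        by_cases hei : e = i0
        · rw [hsneg h hn, he1, hei, hspos _ ⟨i0, hi0, by rw [Function.update_self]; exact hν1⟩]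
        · exact key h e i0 hh he hi0 (Ne.symm hei) (hone i0 hi0 (Ne.symm hei)) hg (hsneg h hn)
      · obtain ⟨a, ha, hae⟩ : ∃ a ∈ I, a ≠ e :=
          Finset.exists_mem_ne (by have := hA.card; omega) e
        have h1 := hone a ha hae
        refine key h e a hh he ha hae h1 hg ?_
        rw [hspos h ⟨e, he, he1⟩]
        have hga : Gen h {a}ᶜ := gen_one_compl hh h1
        have hFa : Fb f gb (Function.update h a ν) := Fb_upd hh hga (hfν a ha)
        rw [← hs3 _ a 1 hFa ha (hf1 a ha)
          ⟨e, he, hae.symm, by rw [Function.update_of_ne hae.symm]; exact he1⟩]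
        congr 1
        rw [Function.update_idem]
        conv_rhs => rw [← h1]
        rw [Function.update_eq_self]
  · intro h e y hh he hy hl
    obtain ⟨i, hi, hie, hi1⟩ := id hl
    rw [hspos h ⟨i, hi, hi1⟩, hspos _ ⟨i, hi, by rw [Function.update_of_ne hie]; exact hi1⟩]
    exact hs3 h e y hh he hy hl
  · intro h e j y hh he hj hy hl
    obtain ⟨i, hi, hie, hi1⟩ := id hl
    have hij : i ≠ j := by
      rintro rfl
      exact hj hi
    rw [hspos h ⟨i, hi, hi1⟩, hspos _ ⟨i, hi, by rw [Function.update_of_ne hij]; exact hi1⟩]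
    exact hs4 h e j y hh he hj hy hl

end

end Sol

end RED
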