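import Pool.Agent.RED4.U3

/-!
# Equivariance of the section under good moves
-/

set_option autoImplicit false

namespace RED

open AFn IAQ

namespace Sol

variable {n : ℕ} {G K : Type*} [Group G] [Group K]

section

variable {E : Type*} [MulAction (MulAut (FreeGroup (Fin n))) E] {f : G →* K}
  {I : Finset (Fin n)} {gb : Fin n → K} {p : E → Fin n → G} {In : E → Prop}
  {T : Fin n → G → E → E}

theorem sec_equiv (hA : FA f I gb p In) (hT : TOp f gb p In T) {ν : G} (hν : f ν = 1)
    (hν1 : ν ≠ 1) {s : (Fin n → G) → E} (hs1 : ∀ h, Fb f gb h → In (s h) ∧ p (s h) = h)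
    (hs2 : ∀ (h : Fin n → G) (e : Fin n), Fb f gb h → e ∈ I → Gen h {e}ᶜ →
      s h = T e (h e) (s (Function.update h e ν)))
    (hs3 : ∀ (h : Fin n → G) (e : Fin n) (y : G), Fb f gb h → e ∈ I → f y = gb e →
      Leg I h e → s (Function.update h e y) = T e y (s h))
    (hs4 : ∀ (h : Fin n → G) (e j : Fin n) (y : G), Fb f gb h → e ∈ I → j ∉ I → f y = gb j →
      Leg I h e → s (Function.update h j y) = Uc p T e j y (s h))
    {θ : MulAut (FreeGroup (Fin n))} (hθ : Good I gb θ) (h : Fin n → G) (hh : Fb f gb h) :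
    θ • s h = s (act θ h) := by
  obtain ⟨hθg, c, b, hθc, hθp⟩ := hθ
  obtain ⟨e, he, hec, heb, hge⟩ := exists_red hA.min hA.card hA.one hA.gen hh c b
  have hPe : Pres e θ := hθp e he heb hec
  have hgbe : gb e = 1 := hA.one e he
  obtain ⟨k, hk⟩ : ∃ k, k = Function.update h e ν := ⟨_, rfl⟩
  have hke : k e = ν := by rw [hk, Function.update_self]
  have hgk : Gen k {e}ᶜ := by
    refine Gen_congr (fun x hx => ?_) hge
    have hxe : x ≠ e := by simpa using hx
    rw [hk, Function.update_of_ne hxe]
  have hkF : Fb f gb k := by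
    refine ⟨fun x => ?_, Gen_mono (Finset.subset_univ _) hgk⟩
    by_cases hx : x = e
    · rw [hx, hke, hν, hgbe]
    · rw [hk, Function.update_of_ne hx]
      exact hh.1 x
  obtain ⟨hInk, hpk⟩ := hs1 k hkF
  have hakF : Fb f gb (act θ k) := Fb_act hθg hkF
  -- the value at `c`
  have hupd : act θ k = Function.update k c (act θ k c) := by
    funext x
    by_cases hx : x = c
    · rw [hx, Function.update_self]
    · rw [Function.update_of_ne hx]
      exact Mv_act k hx hθc
  have key : θ • s k = s (act θ k) := by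
    by_cases hc : c ∈ I
    · have hgc : Gen k {c}ᶜ := by
        refine gen_of_ne hA.min hA.gen hkF.1 (i := e) ?_ ?_ hgbe (by rw [hke]; exact hν1)
        · intro x hx
          rw [Finset.mem_compl] at hx
          rw [Finset.mem_compl, Finset.mem_singleton]
          rintro rfl
          exact hx hc
        · rw [Finset.mem_compl, Finset.mem_singleton]
          exact hec
      have h3 := hT.eqT c (act θ k c) (s k) θ hInk (by rw [hpk]; exact hgc) (hakF.1 c) hθc
        (by rw [hpk]; exact hupd)
      have h4 := hs3 k c (act θ k c) hkF hc (hakF.1 c) ⟨e, he, hec, by rw [hke]; exact hν1⟩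
      rw [h3, ← h4, ← hupd]
    · obtain ⟨e', he', hne⟩ := Finset.exists_mem_ne (by have := hA.card; omega : 1 < I.card) e
      have hl : Leg I k e' := ⟨e, he, hne.symm, by rw [hke]; exact hν1⟩
      have h3 := good_eq_Uc hA hT hInk (i := e) (b := b) (e := e') he heb
        (by rw [hpk, hke]; exact hν1) he' (by rw [hpk]; exact hl) hc hθc hθg
        (fun e1 h1 h2 => hθp e1 h1 h2 (fun h5 => hc (h5 ▸ h1)))
      have h4 := hs4 k e' c (act θ k c) hkF he' hc (hakF.1 c) hl
      rw [hpk] at h3
      rw [h3, ← h4, ← hupd]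
  have h5 : act θ k = Function.update (act θ h) e ν := by
    rw [hk, act_update hPe]
  have h6 : act θ h e = h e := Mv_act h hec hθc
  have h7 := hs2 (act θ h) e (Fb_act hθg hh) he (Gen_pres hPe hge)
  rw [h6, ← h5, ← key] at h7
  rw [h7, hs2 h e hh he hge, ← hk]
  refine hT.comm e (h e) (s k) θ hInk (by rw [hpk]; exact hgk) ?_ hθg hPe
  rw [hh.1 e]

end

end Sol

end RED
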