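import Pool.Agent.RED4.Defs4
import Pool.Agent.RED.MvBasic

/-!
# Moves and tuples: basic facts
-/

set_option autoImplicit false

namespace RED

open AFn IAQ

namespace Sol

variable {n : ℕ} {G K : Type*} [Group G] [Group K]

private theorem fa_kill_mem {i : Fin n} {w : FreeGroup (Fin n)} (h : kill i w = w) :
    w ∈ fsub ({i}ᶜ : Finset (Fin n)) := by
  have h1 : kill i = ret ({i}ᶜ : Finset (Fin n)) := by
    ext x
    by_cases hx : x = i <;> simp [kill, ret, hx]
  rw [← h, h1]
  exact ret_mem _ _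

theorem act_update {s : MulAut (FreeGroup (Fin n))} {e : Fin n} (hp : Pres e s) (h : Fin n → G)
    (y : G) : act s (Function.update h e y) = Function.update (act s h) e y := by
  have hp' := Pres_inv hp
  funext x
  change ev (Function.update h e y) (s⁻¹ (FreeGroup.of x)) = Function.update (act s h) e y x
  by_cases hx : x = e
  · rw [hx, Function.update_self, hp'.1, ev_of, Function.update_self]
  · rw [Function.update_of_ne hx]
    change _ = ev h (s⁻¹ (FreeGroup.of x))
    refine ev_congr (fun z hz => ?_) (fa_kill_mem (Pres.killed hp' (kill_of_ne hx)))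
    exact Function.update_of_ne (by simpa using hz) _ _

theorem Gen_pres {s : MulAut (FreeGroup (Fin n))} {e : Fin n} (hp : Pres e s) {h : Fin n → G}
    (hg : Gen h {e}ᶜ) : Gen (act s h) {e}ᶜ := by
  intro k
  obtain ⟨w, hw, hk⟩ := hg k
  refine ⟨s w, fa_kill_mem (Pres.killed hp (kill_eq hw (by simp))), ?_⟩
  rw [ev_act, ← MulAut.mul_apply, inv_mul_cancel, MulAut.one_apply, hk]

theorem act_Rinv {j e : Fin n} (hje : j ≠ e) (h : Fin n → G) :
    act (R j (FreeGroup.of e))⁻¹ h = Function.update h j (h j * h e) := by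
  funext x
  change ev h (((R j (FreeGroup.of e))⁻¹)⁻¹ (FreeGroup.of x)) = _
  rw [inv_inv]
  by_cases hx : x = j
  · rw [hx, Function.update_self, R_of_self, kill_of_ne (Ne.symm hje), map_mul, ev_of, ev_of]
  · rw [Function.update_of_ne hx, R_of_ne hx, ev_of]

theorem pres_Rinv {j e e' : Fin n} (hj : e' ≠ j) (he : e' ≠ e) :
    Pres e' (R j (FreeGroup.of e))⁻¹ := by
  refine Pres_inv (pres_of (R_of_ne hj _) fun x hx => ?_)
  by_cases hxj : x = j
  · rw [hxj, R_of_self, map_mul, kill_of_ne (Ne.symm hj)]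
    congr 1
    by_cases hje : e = j
    · rw [hje, kill_of_self, map_one]
    · rw [kill_of_ne hje, kill_of_ne (Ne.symm he)]
  · rw [R_of_ne hxj, kill_of_ne hx]

theorem Rinv_mem_Gam {j e : Fin n} (hje : j ≠ e) {gb : Fin n → K} (he : gb e = 1) :
    (R j (FreeGroup.of e))⁻¹ ∈ Gam gb := by
  refine (Gam gb).inv_mem ((R_mem_Gam_iff gb j _).2 ?_)
  rw [kill_of_ne (Ne.symm hje), ev_of, he]

end Sol

end RED
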