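import Pool.Agent.RED4.Defs4
import Pool.Agent.RED.Rank2

/-!
# The generating tuples over a tuple of the quotient
-/

set_option autoImplicit false

namespace RED

open AFn IAQ

namespace Sol

variable {n : ℕ} {G K : Type*} [Group G] [Group K]

section Fib

variable {f : G →* K} {I : Finset (Fin n)} {gb : Fin n → K} {h : Fin n → G}

theorem factb_map (hh : ∀ x, f (h x) = gb x) (S : Finset (Fin n)) :
    (Subgroup.closure (h '' (S : Set (Fin n)))).map f =
      Subgroup.closure (gb '' (S : Set (Fin n))) := by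
  rw [MonoidHom.map_closure, Set.image_image]
  congr 1
  exact Set.image_congr (fun x _ => hh x)

/-- either all values over `1` are `1` or the letters generate -/
theorem factb_dicho (hf : MinK f) (hh : ∀ x, f (h x) = gb x) {S : Finset (Fin n)}
    (hS : Gen gb S) : (∀ i ∈ S, gb i = 1 → h i = 1) ∨ Gen h S := by
  have h2 : (Subgroup.closure (h '' (S : Set (Fin n)))).map f = ⊤ := by
    rw [factb_map hh S]
    exact (Gen_iff_closure gb S).1 hS
  rcases hf _ h2 with h3 | h3
  · refine Or.inl (fun i hi hb => ?_)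
    have h4 : h i ∈ Subgroup.closure (h '' (S : Set (Fin n))) ⊓ f.ker := by
      refine Subgroup.mem_inf.2 ⟨Subgroup.subset_closure ⟨i, Finset.mem_coe.2 hi, rfl⟩, ?_⟩
      rw [MonoidHom.mem_ker, hh, hb]
    rw [h3] at h4
    exact Subgroup.mem_bot.1 h4
  · exact Or.inr ((Gen_iff_closure h S).2 h3)

theorem gen_of_ne (hf : MinK f) (hgb : Gen gb Iᶜ) (hh : ∀ x, f (h x) = gb x)
    {S : Finset (Fin n)} (hS : Iᶜ ⊆ S) {i : Fin n} (hi : i ∈ S) (hb : gb i = 1) (h1 : h i ≠ 1) :
    Gen h S := by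
  rcases factb_dicho hf hh (Gen_mono hS hgb) with h2 | h2
  · exact absurd (h2 i hi hb) h1
  · exact h2

theorem gen_of_one {S S' : Finset (Fin n)} (hS' : Gen h S') (h1 : ∀ i ∈ S', i ∉ S → h i = 1) :
    Gen h S := by
  rw [Gen_iff_closure] at hS' ⊢
  rw [eq_top_iff, ← hS', Subgroup.closure_le]
  rintro _ ⟨i, hi, rfl⟩
  rw [Finset.mem_coe] at hi
  by_cases hiS : i ∈ S
  · exact Subgroup.subset_closure ⟨i, Finset.mem_coe.2 hiS, rfl⟩
  · rw [h1 i hi hiS]
    exact Subgroup.one_mem _

theorem factb_mem_univ (w : FreeGroup (Fin n)) : w ∈ fsub (Finset.univ : Finset (Fin n)) := by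
  have h6 : fsub (Finset.univ : Finset (Fin n)) = ⊤ := by
    rw [eq_top_iff, ← FreeGroup.closure_range_of]
    unfold fsub
    refine Subgroup.closure_mono ?_
    rintro _ ⟨y, rfl⟩
    exact ⟨y, by simp, rfl⟩
  rw [h6]
  exact Subgroup.mem_top w

theorem factb_map_ev (hh : ∀ x, f (h x) = gb x) (w : FreeGroup (Fin n)) :
    f (ev h w) = ev gb w := by
  have h1 : f.comp (ev h) = ev gb := by
    ext x
    rw [MonoidHom.comp_apply, ev_of, ev_of, hh]
  exact DFunLike.congr_fun h1 w

theorem Fb_act {s : MulAut (FreeGroup (Fin n))} (hs : s ∈ Gam gb) (hh : Fb f gb h) :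
    Fb f gb (act s h) := by
  refine ⟨fun x => ?_, fun y => ?_⟩
  · have h1 : f (act s h x) = act s gb x := factb_map_ev hh.1 _
    rw [h1, mem_Gam_iff.1 hs]
  · obtain ⟨w, -, hw⟩ := hh.2 y
    refine ⟨s w, factb_mem_univ _, ?_⟩
    rw [ev_act, ← MulAut.mul_apply, inv_mul_cancel, MulAut.one_apply, hw]

/-- among the letters of `I` at most one is needed -/
theorem exists_red (hf : MinK f) (hI : 5 ≤ I.card) (h1 : ∀ i ∈ I, gb i = 1) (hgb : Gen gb Iᶜ)
    (hh : Fb f gb h) (a b : Fin n) : ∃ e ∈ I, e ≠ a ∧ e ≠ b ∧ Gen h {e}ᶜ := by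
  have hJ : 1 < ((I.erase a).erase b).card := by
    have h2 := Finset.pred_card_le_card_erase (s := I) (a := a)
    have h3 := Finset.pred_card_le_card_erase (s := I.erase a) (a := b)
    omega
  obtain ⟨e1, he1, e2, he2, hne⟩ := Finset.one_lt_card.1 hJ
  rw [Finset.mem_erase, Finset.mem_erase] at he1 he2
  by_cases hg : Gen h {e1}ᶜ
  · exact ⟨e1, he1.2.2, he1.2.1, he1.1, hg⟩
  · refine ⟨e2, he2.2.2, he2.2.1, he2.1, ?_⟩
    have hsub : Iᶜ ⊆ ({e1}ᶜ : Finset (Fin n)) := by
      intro x hx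
      rw [Finset.mem_compl] at hx
      rw [Finset.mem_compl, Finset.mem_singleton]
      rintro rfl
      exact hx he1.2.2
    have h4 : h e2 = 1 := by
      rcases factb_dicho hf hh.1 (Gen_mono hsub hgb) with h2 | h2
      · refine h2 e2 ?_ (h1 e2 he2.2.2)
        rw [Finset.mem_compl, Finset.mem_singleton]
        exact fun h => hne h.symm
      · exact absurd h2 hg
    refine gen_of_one hh.2 (fun i _ hi => ?_)
    rw [Finset.mem_compl, Finset.mem_singleton, not_not] at hi
    rw [hi, h4]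

theorem HL2p_of_Fb (hf : MinK f) (hI : 5 ≤ I.card) (h1 : ∀ i ∈ I, gb i = 1) (hgb : Gen gb Iᶜ)
    (hh : Fb f gb h) : HL2p h := by
  classical
  have key : ∀ e, Gen h {e}ᶜ → (I.filter fun x => ¬ Gen h {e, x}ᶜ).card ≤ 1 := by
    intro e he
    -- the letters other than `e` generate the quotient
    have hsurj : Gen gb {e}ᶜ := by
      intro y
      obtain ⟨w, -, hw⟩ := hgb y
      obtain ⟨w', hw', hw2⟩ := he (ev h w)
      refine ⟨w', hw', ?_⟩
      rw [← factb_map_ev hh.1, hw2, factb_map_ev hh.1, hw]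
    have h2 : ∀ x ∈ I, Gen gb {e, x}ᶜ := by
      intro x hx
      refine gen_of_one hsurj (fun i hi hi' => ?_)
      rw [Finset.mem_compl, Finset.mem_singleton] at hi
      rw [Finset.mem_compl, Finset.mem_insert, Finset.mem_singleton, not_not] at hi'
      rcases hi' with h | h
      · exact absurd h hi
      · rw [h]; exact h1 x hx
    rw [Finset.card_le_one]
    intro x hx y hy
    obtain ⟨hxI, hxg⟩ := Finset.mem_filter.1 hx
    obtain ⟨hyI, hyg⟩ := Finset.mem_filter.1 hy
    by_contra hxy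
    have hye : y ≠ e := by
      rintro rfl
      rw [Finset.pair_eq_singleton] at hyg
      exact hyg he
    have h3 : h y = 1 := by
      rcases factb_dicho hf hh.1 (h2 x hxI) with h4 | h4
      · refine h4 y ?_ (h1 y hyI)
        rw [Finset.mem_compl, Finset.mem_insert, Finset.mem_singleton, not_or]
        exact ⟨hye, fun h => hxy h.symm⟩
      · exact absurd h4 hxg
    apply hyg
    refine gen_of_one he (fun i hi hi' => ?_)
    rw [Finset.mem_compl, Finset.mem_singleton] at hi
    rw [Finset.mem_compl, Finset.mem_insert, Finset.mem_singleton, not_not] at hi'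
    rcases hi' with h | h
    · exact absurd h hi
    · rw [h, h3]
  intro e e' he he'
  have hcard : ((I.filter fun x => ¬ Gen h {e, x}ᶜ) ∪
      (I.filter fun x => ¬ Gen h {e', x}ᶜ)).card < I.card := by
    have h2 := key e he
    have h3 := key e' he'
    have h4 := Finset.card_union_le (I.filter fun x => ¬ Gen h {e, x}ᶜ)
      (I.filter fun x => ¬ Gen h {e', x}ᶜ)
    omega
  obtain ⟨x, hx, hx'⟩ := Finset.exists_mem_notMem_of_card_lt_card hcard
  rw [Finset.mem_union, not_or, Finset.mem_filter, Finset.mem_filter] at hx'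
  refine ⟨x, ?_, ?_⟩
  · by_contra hc
    exact hx'.1 ⟨hx, hc⟩
  · by_contra hc
    exact hx'.2 ⟨hx, hc⟩

end Fib

end Sol

end RED
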