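import Pool.Agent.RED4.Defs4
import Pool.Agent.RED.NS4
import Pool.Agent.RED.NS3

/-!
# Conjugation by one-letter moves
-/

set_option autoImplicit false

namespace RED

open AFn IAQ

namespace Sol

variable {n : ℕ} {G K : Type*} [Group G] [Group K]

/-- the property of a move -/
def QS (G : Type*) [Group G] (e : Fin n) (s : MulAut (FreeGroup (Fin n))) : Prop :=
  ∀ (g : Fin n → G), g e = 1 → ∀ ψ : MulAut (FreeGroup (Fin n)), ψ ∈ NN g →
    s * ψ * s⁻¹ ∈ NN (act s g)

theorem QS_mul {e c : Fin n} (hec : e ≠ c) {s s' : MulAut (FreeGroup (Fin n))}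
    (hs' : s' ∈ Mv c) (h : QS G e s) (h' : QS G e s') : QS G e (s * s') := by
  intro g hg ψ hψ
  have h1 := h (act s' g) (by rw [Mv_act g hec hs', hg]) (s' * ψ * s'⁻¹) (h' g hg ψ hψ)
  rw [← act_mul] at h1
  have e1 : s * s' * ψ * (s * s')⁻¹ = s * (s' * ψ * s'⁻¹) * s⁻¹ := by group
  rw [e1]
  exact h1

theorem QS_sg (e c : Fin n) : QS G e (sg c) := fun g _ _ hψ => inv_sg g c hψ

theorem QS_R {e c : Fin n} (hec : e ≠ c) {w : FreeGroup (Fin n)} (hwc : kill c w = w)
    (hwe : kill e w = w) : QS G e (R c w) := fun _ hg _ hψ => inv_R hec hwc hwe hg hψ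

theorem QS_L {e c : Fin n} (hec : e ≠ c) {w : FreeGroup (Fin n)} (hwc : kill c w = w)
    (hwe : kill e w = w) : QS G e (L c w) := by
  rw [← sg_conj_R]
  exact QS_mul hec (sg_mem_Mv c)
    (QS_mul hec (R_mem_Mv c w) (QS_sg e c) (QS_R hec hwc hwe)) (QS_sg e c)

/-- the image of the moved letter -/
theorem LR_self (c : Fin n) (u v : FreeGroup (Fin n)) :
    (L c u * R c v) (FreeGroup.of c) = (kill c u)⁻¹ * FreeGroup.of c * kill c v := by
  rw [MulAut.mul_apply, R_of_self, map_mul, L_kill, L_of_self]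

theorem LR_ext {e c : Fin n} (hec : e ≠ c) {u v : FreeGroup (Fin n)}
    (h : kill e ((L c u * R c v) (FreeGroup.of c)) = (L c u * R c v) (FreeGroup.of c)) :
    L c u * R c v = L c (kill e (kill c u)) * R c (kill e (kill c v)) := by
  apply aut_ext
  intro x
  by_cases hx : x = c
  · subst hx
    rw [← h, LR_self, LR_self, map_mul, map_mul, map_inv, kill_of_ne hec.symm]
    rw [kill_comm x e, kill_comm x e, kill_kill, kill_kill]
  · rw [MulAut.mul_apply, MulAut.mul_apply, R_of_ne hx, R_of_ne hx, L_of_ne hx, L_of_ne hx]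

theorem QS_LR {e c : Fin n} (hec : e ≠ c) (u v : FreeGroup (Fin n)) :
    QS G e (L c (kill e (kill c u)) * R c (kill e (kill c v))) := by
  have h1 : ∀ w : FreeGroup (Fin n), kill c (kill e (kill c w)) = kill e (kill c w) := by
    intro w
    rw [kill_comm c e, kill_kill]
  refine QS_mul hec (R_mem_Mv c _) (QS_L hec (h1 u) (kill_kill e _)) (QS_R hec (h1 v) (kill_kill e _))

/-- conjugation by a one-letter move if another letter, which is not used, has value `1` -/
theorem NN_conj_one {g : Fin n → G} {e c : Fin n} (hec : e ≠ c) (hge : g e = 1)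
    {s : MulAut (FreeGroup (Fin n))} (hs : s ∈ Mv c) (hp : Pres e s)
    {ψ : MulAut (FreeGroup (Fin n))} (hψ : ψ ∈ NN g) : s * ψ * s⁻¹ ∈ NN (act s g) := by
  have hk : kill e (s (FreeGroup.of c)) = s (FreeGroup.of c) :=
    Pres.killed hp (kill_of_ne hec.symm)
  obtain ⟨u, v, h | h⟩ := mem_Mv_iff.1 hs
  · rw [h] at hk
    have h1 := LR_ext hec hk
    rw [h, h1]
    exact QS_LR hec u v g hge ψ hψ
  · have h2 : s (FreeGroup.of c) = ((L c u * R c v) (FreeGroup.of c))⁻¹ := by
      rw [h, MulAut.mul_apply, sg_of_self, map_inv]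
    rw [h2, map_inv, inv_inj] at hk
    have h1 := LR_ext hec hk
    rw [h, h1]
    exact QS_mul hec (sg_mem_Mv c) (QS_LR hec u v) (QS_sg e c) g hge ψ hψ

end Sol

end RED
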