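import Pool.Agent.RED4.NSa
import Pool.Agent.RED4.NSb
import Pool.Agent.RED4.FactA
import Pool.Agent.RED4.FactB
import Pool.Agent.RED.NS3

/-!
# Conjugation of the transported groups by good moves
-/

set_option autoImplicit false

namespace RED

open AFn IAQ

namespace Sol

variable {n : ℕ} {G K : Type*} [Group G] [Group K]

private theorem nsd_rs (h : Fin n → G) (e : Fin n) : rs h {e} = Function.update h e 1 := by
  funext x
  by_cases hx : x = e
  · subst hx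
    rw [Function.update_self, rs, if_pos (Finset.mem_singleton_self x)]
  · rw [Function.update_of_ne hx, rs, if_neg (fun h1 => hx (Finset.mem_singleton.1 h1))]

section

variable {f : G →* K} {I : Finset (Fin n)} {gb : Fin n → K}

theorem NS_conj_good (hf : MinK f) (hI : 5 ≤ I.card) (h1 : ∀ i ∈ I, gb i = 1)
    (hgb : Gen gb Iᶜ) {h : Fin n → G} (hh : Fb f gb h) {s : MulAut (FreeGroup (Fin n))}
    (hs : Good I gb s) {ψ : MulAut (FreeGroup (Fin n))} (hψ : ψ ∈ NS h) :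
    s * ψ * s⁻¹ ∈ NS (act s h) := by
  obtain ⟨hsG, c, b, hsc, hpr⟩ := hs
  obtain ⟨e, heI, heb, hec, hge⟩ := exists_red hf hI h1 hgb hh b c
  have hp : Pres e s := hpr e heI heb hec
  obtain ⟨t, ht⟩ := ns1_exists (Finset.singleton_nonempty e) hge
  have hrs : act s (rs h {e}) = rs (act s h) {e} := by
    rw [nsd_rs, nsd_rs, act_update hp]
  have ht' : Val (act s h) {e} (s * t * s⁻¹) := by
    refine ⟨Finset.singleton_nonempty e, Gen_pres hp hge, NConj.conj_MvS (fun y hy => ?_) ht.2.2.1,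
      ?_⟩
    · rw [Finset.mem_singleton.1 hy]
      exact hp
    · rw [← act_mul, inv_mul_cancel_right, act_mul, ht.2.2.2, hrs]
  refine mem_NS_of_p (HL2p_of_Fb hf hI h1 hgb (Fb_act hsG hh)) ht' ?_
  have h2 : t * ψ * t⁻¹ ∈ NN (rs h {e}) := hψ {e} t ht
  have h3 := NN_conj_one (g := rs h {e}) hec (ns1_rs_mem (Finset.mem_singleton_self e)) hsc hp h2
  rw [hrs] at h3
  have e1 : s * t * s⁻¹ * (s * ψ * s⁻¹) * (s * t * s⁻¹)⁻¹ = s * (t * ψ * t⁻¹) * s⁻¹ := by group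
  rw [e1]
  exact h3

theorem NS_conj_A (hf : MinK f) (hI : 5 ≤ I.card) (h1 : ∀ i ∈ I, gb i = 1)
    (hgb : Gen gb Iᶜ) {s : MulAut (FreeGroup (Fin n))}
    (hs : s ∈ Subgroup.closure {s | Good I gb s}) {h : Fin n → G} (hh : Fb f gb h)
    {ψ : MulAut (FreeGroup (Fin n))} (hψ : ψ ∈ NS h) :
    s * ψ * s⁻¹ ∈ NS (act s h) := by
  have key : s ∈ Gam gb ∧
      (∀ h : Fin n → G, Fb f gb h → ∀ ψ ∈ NS h, s * ψ * s⁻¹ ∈ NS (act s h)) ∧
      (∀ h : Fin n → G, Fb f gb h → ∀ ψ ∈ NS h, s⁻¹ * ψ * (s⁻¹)⁻¹ ∈ NS (act s⁻¹ h)) := by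
    clear hψ hh ψ h
    induction hs using Subgroup.closure_induction with
    | mem x hx =>
      refine ⟨hx.1, fun h hh ψ hψ => NS_conj_good hf hI h1 hgb hh hx hψ,
        fun h hh ψ hψ => NS_conj_good hf hI h1 hgb hh ?_ hψ⟩
      obtain ⟨hxG, c, b, hxc, hpr⟩ := hx
      exact ⟨(Gam gb).inv_mem hxG, c, b, (Mv c).inv_mem hxc,
        fun e he heb hec => Pres_inv (hpr e he heb hec)⟩
    | one =>
      refine ⟨(Gam gb).one_mem, fun h _ ψ hψ => ?_, fun h _ ψ hψ => ?_⟩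
      · rw [act_one, inv_one, mul_one, one_mul]
        exact hψ
      · rw [inv_one, act_one, inv_one, mul_one, one_mul]
        exact hψ
    | mul x y _ _ hx hy =>
      refine ⟨(Gam gb).mul_mem hx.1 hy.1, fun h hh ψ hψ => ?_, fun h hh ψ hψ => ?_⟩
      · have h2 := hx.2.1 _ (Fb_act hy.1 hh) _ (hy.2.1 h hh ψ hψ)
        rw [← act_mul] at h2
        have e : x * y * ψ * (x * y)⁻¹ = x * (y * ψ * y⁻¹) * x⁻¹ := by group
        rw [e]
        exact h2
      · have h2 := hy.2.2 _ (Fb_act ((Gam gb).inv_mem hx.1) hh) _ (hx.2.2 h hh ψ hψ)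
        rw [← act_mul] at h2
        have e : (x * y)⁻¹ * ψ * ((x * y)⁻¹)⁻¹ = y⁻¹ * (x⁻¹ * ψ * (x⁻¹)⁻¹) * (y⁻¹)⁻¹ := by group
        rw [e, mul_inv_rev]
        exact h2
    | inv x _ hx =>
      refine ⟨(Gam gb).inv_mem hx.1, hx.2.2, ?_⟩
      rw [inv_inv]
      exact hx.2.1
  exact key.2.1 h hh ψ hψ

end

end Sol

end RED
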