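import Pool.Agent.RED4.NSc
import Pool.Agent.RED4.NSd

/-!
# The points over the tuples over `gb`
-/

set_option autoImplicit false

namespace RED

open AFn IAQ

namespace Sol

variable {n : ℕ} {G K : Type*} [Group G] [Group K]

theorem FA_quot {f : G →* K} {I : Finset (Fin n)} {gb : Fin n → K} {g : Fin n → G}
    (hf : MinK f) (hI : 5 ≤ I.card) (h1 : ∀ i ∈ I, gb i = 1) (hgb : Gen gb Iᶜ)
    (hg : Fb f gb g) (hA : Gam gb ≤ Subgroup.closure {s | Good I gb s}) :
    ∃ (p : (MulAut (FreeGroup (Fin n)) ⧸ NS g) → Fin n → G)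
      (In : (MulAut (FreeGroup (Fin n)) ⧸ NS g) → Prop),
      FA f I gb p In ∧ In ((1 : MulAut (FreeGroup (Fin n))) : MulAut (FreeGroup (Fin n)) ⧸ NS g) ∧
        p ((1 : MulAut (FreeGroup (Fin n))) : MulAut (FreeGroup (Fin n)) ⧸ NS g) = g := by
  classical
  obtain ⟨i0, hi0⟩ : I.Nonempty := Finset.card_pos.1 (by omega)
  obtain ⟨e0, -, -, -, he0⟩ := exists_red hf hI h1 hgb hg i0 i0
  have hHG : NS g ≤ Gam g := NS_le_Gam_p he0
  -- the projection to the tuples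
  let p : (MulAut (FreeGroup (Fin n)) ⧸ NS g) → Fin n → G :=
    fun x => Quotient.liftOn' x (fun φ => act φ g) (by
      intro a b hab
      have h := QuotientGroup.leftRel_apply.1 hab
      have h' := mem_Gam_iff.1 (hHG h)
      show act a g = act b g
      have h3 : act a (act (a⁻¹ * b) g) = act a g := by rw [h']
      rw [← act_mul, mul_inv_cancel_left] at h3
      exact h3.symm)
  have hp : ∀ φ : MulAut (FreeGroup (Fin n)),
      p (φ : MulAut (FreeGroup (Fin n)) ⧸ NS g) = act φ g := fun φ => rfl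
  have hps : ∀ (θ : MulAut (FreeGroup (Fin n))) (x : MulAut (FreeGroup (Fin n)) ⧸ NS g),
      p (θ • x) = act θ (p x) := by
    intro θ x
    induction x using QuotientGroup.induction_on with
    | H φ => rw [MulAction.Quotient.smul_coe, hp, hp, smul_eq_mul, act_mul]
  let In : (MulAut (FreeGroup (Fin n)) ⧸ NS g) → Prop :=
    fun x => ∃ φ : MulAut (FreeGroup (Fin n)), φ ∈ Gam gb ∧
      x = (φ : MulAut (FreeGroup (Fin n)) ⧸ NS g)
  have hfb : ∀ x, In x → Fb f gb (p x) := by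
    rintro x ⟨φ, hφ, rfl⟩
    rw [hp]
    exact Fb_act hφ hg
  have hinn : ∀ θ ∈ Gam gb, ∀ x, In x → In (θ • x) := by
    rintro θ hθ x ⟨φ, hφ, rfl⟩
    exact ⟨θ * φ, Subgroup.mul_mem _ hθ hφ, by rw [MulAction.Quotient.smul_coe, smul_eq_mul]⟩
  -- the elements of `NS` fix the point
  have K1 : ∀ (θ : MulAut (FreeGroup (Fin n))) (x : MulAut (FreeGroup (Fin n)) ⧸ NS g),
      In x → θ ∈ NS (p x) → θ • x = x := by
    rintro θ x ⟨φ, hφ, rfl⟩ hθ
    rw [MulAction.Quotient.smul_coe, smul_eq_mul]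
    refine QuotientGroup.eq.2 ?_
    rw [hp] at hθ
    have h := NS_conj_A hf hI h1 hgb (hA ((Gam gb).inv_mem hφ)) (Fb_act hφ hg)
      ((NS (act φ g)).inv_mem hθ)
    rw [act_inv_act, inv_inv] at h
    rwa [mul_inv_rev]
  refine ⟨p, In, ⟨hf, hI, h1, hgb, hps, hfb, hinn, ?_, ?_⟩, ⟨1, Subgroup.one_mem _, rfl⟩, ?_⟩
  · intro Y θ θ' x hx hY hθ hθ' he
    have h := K1 (θ'⁻¹ * θ) x hx (NS_lemY_p (HL2p_of_Fb hf hI h1 hgb (hfb x hx)) Y hY
      (Subgroup.mul_mem _ (Subgroup.inv_mem _ hθ') hθ) (by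
        rw [mem_Gam_iff, act_mul, he, act_inv_act]))
    rwa [mul_smul, inv_smul_eq_iff] at h
  · intro j e i θ θ' x hx hje hie hij hG hθ hθ' hq hq' he
    have h := K1 (θ'⁻¹ * θ) x hx (lemQ (HL2p_of_Fb hf hI h1 hgb (hfb x hx)) hje hie hij hG
      (Mv_le_MvS (Finset.mem_insert_self _ _) (Subgroup.mul_mem _ (Subgroup.inv_mem _ hθ') hθ))
      (by rw [mem_Gam_iff, act_mul, he, act_inv_act]) (Pres_mul (Pres_inv hq') hq))
    rwa [mul_smul, inv_smul_eq_iff] at h
  · rw [hp, act_one]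

end Sol

end RED
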