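import Pool.Agent.RED4.Defs4

/-!
# Minimal normal subgroups of finite solvable groups
-/

set_option autoImplicit false

namespace RED

open AFn IAQ

namespace Sol

/-- a nontrivial finite solvable group has a normal subgroup whose quotient map satisfies
`MinK` -/
theorem exists_minK {G : Type*} [Group G] [Finite G] [Group.IsSolvable G] [Nontrivial G] :
    ∃ N : Subgroup G, ∃ _ : N.Normal, N ≠ ⊥ ∧ MinK (QuotientGroup.mk' N) := by
  obtain ⟨N, ⟨hN, hN0⟩, hmin⟩ := WellFounded.has_min (wellFounded_lt (α := Subgroup G))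
    {N : Subgroup G | N.Normal ∧ N ≠ ⊥} ⟨⊤, inferInstance, top_ne_bot⟩
  have hmin' : ∀ L : Subgroup G, L.Normal → L ≤ N → L = ⊥ ∨ L = N := by
    intro L hL hLN
    by_contra hcon
    push Not at hcon
    exact hmin L ⟨hL, hcon.1⟩ (lt_of_le_of_ne hLN hcon.2)
  refine ⟨N, hN, hN0, ?_⟩
  have hlt : ⁅N, N⁆ < N := Group.IsSolvable.commutator_lt_of_ne_bot hN0
  have hbot : ⁅N, N⁆ = ⊥ := by
    rcases hmin' ⁅N, N⁆ inferInstance hlt.le with h | h
    · exact h
    · exact absurd h hlt.ne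
  have hab : ∀ a ∈ N, ∀ b ∈ N, a * b = b * a := by
    intro a ha b hb
    have h1 := (Subgroup.commutator_eq_bot_iff_le_centralizer.mp hbot) ha
    exact ((Subgroup.mem_centralizer_iff.mp h1) b hb).symm
  intro D hD
  rw [QuotientGroup.ker_mk']
  have hsup : ∀ g : G, ∃ d ∈ D, ∃ z ∈ N, d * z = g := by
    intro g
    have h1 : (QuotientGroup.mk' N) g ∈ D.map (QuotientGroup.mk' N) := by
      rw [hD]; exact Subgroup.mem_top _
    obtain ⟨d, hd, hdg⟩ := Subgroup.mem_map.mp h1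
    refine ⟨d, hd, d⁻¹ * g, ?_, by group⟩
    exact QuotientGroup.eq.mp hdg
  have hnorm : (D ⊓ N).Normal := by
    refine ⟨fun x hx g => ?_⟩
    obtain ⟨d, hd, z, hz, rfl⟩ := hsup g
    have h1 : d * z * x * (d * z)⁻¹ = d * x * d⁻¹ := by
      have h2 : z * x = x * z := hab z hz x hx.2
      calc d * z * x * (d * z)⁻¹ = d * (z * x) * (z⁻¹ * d⁻¹) := by group
        _ = d * (x * z) * (z⁻¹ * d⁻¹) := by rw [h2]
        _ = d * x * d⁻¹ := by group
    rw [h1]
    exact ⟨D.mul_mem (D.mul_mem hd hx.1) (D.inv_mem hd), hN.conj_mem x hx.2 d⟩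
  rcases hmin' (D ⊓ N) hnorm inf_le_right with h | h
  · exact Or.inl h
  · right
    rw [eq_top_iff]
    intro g _
    obtain ⟨d, hd, z, hz, rfl⟩ := hsup g
    have h1 : z ∈ D ⊓ N := by rw [h]; exact hz
    exact D.mul_mem hd h1.1

end Sol

end RED
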