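import Pool.Agent.RED4.Step
import Pool.Agent.RED4.SolvA
import Pool.Agent.RED.GenTop

/-!
# Finite solvable groups
-/

set_option autoImplicit false

namespace RED

open AFn IAQ

namespace Sol

private theorem solv_ev {n : ℕ} {G K : Type*} [Group G] [Group K] (f : G →* K) (g : Fin n → G)
    (w : FreeGroup (Fin n)) : ev (fun x => f (g x)) w = f (ev g w) := by
  have h : ev (fun x => f (g x)) = f.comp (ev g) := by
    ext x
    simp [ev]
  rw [h]
  rfl

private theorem solv_triv {n : ℕ} {G : Type*} [Group G] [Subsingleton G] (g : Fin n → G) :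
    Gam g ≤ NN g := by
  have hall : ∀ φ : MulAut (FreeGroup (Fin n)), φ ∈ Gam g := fun φ w => Subsingleton.elim _ _
  have h : Subgroup.closure
      ({φ : MulAut (FreeGroup (Fin n)) | ∃ a b, a ≠ b ∧ φ = R a (FreeGroup.of b)} ∪
        {φ | ∃ a, φ = sg a}) ≤ NN g := by
    rw [Subgroup.closure_le]
    rintro φ (⟨a, b, -, rfl⟩ | ⟨a, rfl⟩)
    · exact Subgroup.subset_closure ⟨hall _, a,
        Subgroup.subset_closure (Or.inl (Or.inr ⟨_, rfl⟩))⟩
    · exact Subgroup.subset_closure ⟨hall _, a, Subgroup.subset_closure (Or.inr rfl)⟩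
  rw [gen_top] at h
  exact fun φ _ => h (Subgroup.mem_top φ)

theorem solv_gam.{u} {n : ℕ} {I : Finset (Fin n)} (hI : 5 ≤ I.card) (N : ℕ) :
    ∀ (G : Type u) [Group G] [Finite G] [Group.IsSolvable G], Nat.card G ≤ N →
      ∀ g : Fin n → G, (∀ i ∈ I, g i = 1) → Gen g Iᶜ → Gam g ≤ NN g := by
  induction N with
  | zero =>
    intro G _ _ _ hG
    have := Nat.card_pos (α := G)
    omega
  | succ N ih =>
    intro G _ _ _ hG g h1 hg
    rcases subsingleton_or_nontrivial G with hs | hnt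
    · exact solv_triv g
    · obtain ⟨M, hM, hne, hmin⟩ := exists_minK (G := G)
      obtain ⟨a, ha⟩ := Subgroup.ne_bot_iff_exists_ne_one.1 hne
      obtain ⟨ν, hν, hν1⟩ : ∃ ν : G, ν ∈ M ∧ ν ≠ 1 :=
        ⟨a.1, a.2, fun h => ha (Subtype.ext h)⟩
      have hcard : Nat.card (G ⧸ M) ≤ N := by
        have h2 := Subgroup.card_eq_card_quotient_mul_card_subgroup M
        have h3 : 1 < Nat.card M := by
          rw [Finite.one_lt_card_iff_nontrivial]
          exact ⟨⟨ν, hν⟩, 1, fun h => hν1 (congrArg Subtype.val h)⟩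
        have h4 : 0 < Nat.card (G ⧸ M) := Nat.card_pos
        have h5 : Nat.card (G ⧸ M) * 2 ≤ Nat.card (G ⧸ M) * Nat.card M :=
          Nat.mul_le_mul_left _ h3
        omega
      have hker : ∀ x : G, QuotientGroup.mk' M x = 1 ↔ x ∈ M := fun x =>
        QuotientGroup.eq_one_iff x
      refine step (f := QuotientGroup.mk' M) (QuotientGroup.mk'_surjective M) hmin
        ⟨ν, (hker ν).2 hν, hν1⟩ hI h1 hg ?_
      refine ih (G ⧸ M) hcard _ ?_ ?_
      · intro i hi
        rw [h1 i hi, map_one]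
      · intro h
        obtain ⟨h0, rfl⟩ := QuotientGroup.mk'_surjective M h
        obtain ⟨w, hw, hw2⟩ := hg h0
        exact ⟨w, hw, by rw [solv_ev, hw2]⟩

end Sol

end RED
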