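import Mathlib
import Pool.Agent.RED.HypMain
import Pool.Agent.RED.BMain
import Pool.Agent.RED.Final
import Pool.Agent.RED4.Solv

/-!
# Finite image for finite solvable groups
-/

set_option autoImplicit false

namespace RED

open AFn IAQ

theorem final_gam_range4 {n m : ℕ} {G : Type*} [Group G] [Finite G] [Group.IsSolvable G]
    (g : Fin n → G) (Hin : Subgroup (MulAut (FreeGroup (Fin n))))
    (ρ : Hin →* Matrix.GeneralLinearGroup (Fin m) ℤ) (I : Finset (Fin n)) (hI : 5 ≤ I.card)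
    (hf : Hin.FiniteIndex) (hm : m + 2 ≤ n) (hm2 : m ≤ 2 ^ (I.card - 2) + 1)
    (hΓ : Gam g ≤ Hin) (hgen : Gen g Iᶜ) (h1 : ∀ i ∈ I, g i = 1) :
    {y | ∃ (x : MulAut (FreeGroup (Fin n))) (hx : x ∈ Gam g), y = ρ ⟨x, hΓ hx⟩}.Finite := by
  have hcard : I.card + Iᶜ.card = n := by
    have := Finset.card_add_card_compl I
    rwa [Fintype.card_fin] at this
  have hI2 : n - 2 - Iᶜ.card = I.card - 2 := by omega
  have hyp : Hyp g I (ρ.comp (Subgroup.inclusion hΓ)) :=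
    hyp_main g I Hin ρ hf hm hΓ h1 hI (by omega) (by rw [hI2]; exact hm2)
  have hE := all_finite g I (ρ.comp (Subgroup.inclusion hΓ)) hyp hI
  set E := Subgroup.closure {x | ∃ φ, φ ∈ Gam g ∧ (∃ c, φ ∈ Mv c) ∧
    x = fe g (ρ.comp (Subgroup.inclusion hΓ)) φ} with hEd
  have key : ∀ φ ∈ NN g, φ ∈ Gam g ∧ fe g (ρ.comp (Subgroup.inclusion hΓ)) φ ∈ E := by
    intro φ hφ
    induction hφ using Subgroup.closure_induction with
    | mem x hx =>
      exact ⟨hx.1, Subgroup.subset_closure ⟨x, hx.1, hx.2, rfl⟩⟩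
    | one => exact ⟨(Gam g).one_mem, by rw [fe_one]; exact E.one_mem⟩
    | mul x y _ _ hx hy =>
      refine ⟨(Gam g).mul_mem hx.1 hy.1, ?_⟩
      rw [fe_mul _ _ hx.1 hy.1]
      exact E.mul_mem hx.2 hy.2
    | inv x _ hx =>
      refine ⟨(Gam g).inv_mem hx.1, ?_⟩
      rw [fe_inv _ _ hx.1]
      exact E.inv_mem hx.2
  have hEf : (E : Set (Matrix.GeneralLinearGroup (Fin m) ℤ)).Finite := Set.toFinite _
  refine hEf.subset ?_
  rintro y ⟨x, hx, rfl⟩
  have h2 := (key x (Sol.solv_gam hI (Nat.card G) G le_rfl g h1 hgen hx)).2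
  rw [fe_of_mem _ _ hx] at h2
  exact h2

/-- a tuple with letters of value `1` outside of a generating set of letters -/
theorem final4_std {n m : ℕ} {G : Type*} [Group G] [Finite G] [Group.IsSolvable G]
    (g : Fin n → G) (Hin : Subgroup (MulAut (FreeGroup (Fin n))))
    (ρ : Hin →* Matrix.GeneralLinearGroup (Fin m) ℤ) (I : Finset (Fin n)) (hI : 5 ≤ I.card)
    (hf : Hin.FiniteIndex) (hm : m + 2 ≤ n) (hm2 : m ≤ 2 ^ (I.card - 2) + 1)
    (hΓ : Gam g ≤ Hin) (φ : MulAut (FreeGroup (Fin n))) (hgen : Gen (act φ g) Iᶜ)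
    (h1 : ∀ i ∈ I, act φ g i = 1) : Finite ρ.range := by
  set cj : MulAut (FreeGroup (Fin n)) →* MulAut (FreeGroup (Fin n)) :=
    (MulAut.conj φ⁻¹).toMonoidHom with hcj
  have hcja : ∀ x, cj x = φ⁻¹ * x * φ := by
    intro x
    show φ⁻¹ * x * φ⁻¹⁻¹ = _
    rw [inv_inv]
  have hΓ' : Gam (act φ g) ≤ Hin.comap cj := by
    intro x hx
    rw [Subgroup.mem_comap, hcja]
    apply hΓ
    have h2 := Gam_conj hx φ⁻¹
    rwa [act_inv_act, inv_inv] at h2
  have hsj : Function.Surjective cj := (MulAut.conj φ⁻¹).surjective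
  have hfi : (Hin.comap cj).FiniteIndex :=
    ⟨by rw [Subgroup.index_comap_of_surjective Hin hsj]; exact hf.index_ne_zero⟩
  have h3 := final_gam_range4 (act φ g) (Hin.comap cj) (ρ.comp (cj.subgroupComap Hin)) I hI
    hfi hm hm2 hΓ' hgen h1
  refine final_of_finite g Hin ρ hΓ (h3.subset ?_)
  rintro y ⟨x, hx, rfl⟩
  refine ⟨φ * x * φ⁻¹, Gam_conj hx φ, ?_⟩
  show ρ _ = ρ _
  congr 1
  apply Subtype.ext
  show x = cj (φ * x * φ⁻¹)
  rw [hcja]
  group

end RED
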