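import Pool.Agent.RED4.Defs4
import Pool.Agent.RED.Rank2

/-!
# Lifting generating tuples
-/

set_option autoImplicit false

namespace RED

open AFn IAQ

namespace Sol

/-- the lifts to `S` of the values `gb` -/
def Lft {n : ℕ} {G K : Type*} [Group G] [Group K] (f : G →* K) (S : Finset (Fin n))
    (gb : Fin n → K) : Type _ :=
  {y : S → G // ∀ x : S, f (y x) = gb x}

instance {n : ℕ} {G K : Type*} [Group G] [Group K] [Finite G] (f : G →* K)
    (S : Finset (Fin n)) (gb : Fin n → K) : Finite (Lft f S gb) :=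
  Subtype.finite

theorem Lft.equiv {n : ℕ} {G K : Type*} [Group G] [Group K] {f : G →* K}
    {S : Finset (Fin n)} {gb kb : Fin n → K} (y : Lft f S gb) (z : Lft f S kb) :
    Nonempty (Lft f S gb ≃ Lft f S kb) := by
  refine ⟨⟨fun u => ⟨fun x => z.1 x * ((y.1 x)⁻¹ * u.1 x), fun x => ?_⟩,
    fun v => ⟨fun x => y.1 x * ((z.1 x)⁻¹ * v.1 x), fun x => ?_⟩, fun u => ?_, fun v => ?_⟩⟩
  · rw [map_mul, map_mul, map_inv, z.2 x, y.2 x, u.2 x, inv_mul_cancel, mul_one]
  · rw [map_mul, map_mul, map_inv, z.2 x, y.2 x, v.2 x, inv_mul_cancel, mul_one]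
  · apply Subtype.ext
    funext x
    simp
  · apply Subtype.ext
    funext x
    simp

/-- a lift which does not generate gives a section -/
theorem exists_section {n : ℕ} {G K : Type*} [Group G] [Group K] {f : G →* K}
    (hf : MinK f) {S : Finset (Fin n)} {gb : Fin n → K} (hgb : Gen gb S)
    (hno : ¬ ∃ g : Fin n → G, (∀ x ∈ S, f (g x) = gb x) ∧ Gen g S) (y : Lft f S gb) :
    ∃ σ : K →* G, (∀ k, f (σ k) = k) ∧ ∀ x : S, σ (gb x) = y.1 x := by
  classical
  have hmap : (Subgroup.closure (Set.range y.1)).map f = ⊤ := by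
    rw [MonoidHom.map_closure, eq_top_iff, ← (Gen_iff_closure gb S).1 hgb]
    refine Subgroup.closure_mono ?_
    rintro _ ⟨x, hx, rfl⟩
    exact ⟨y.1 ⟨x, hx⟩, ⟨⟨x, hx⟩, rfl⟩, y.2 ⟨x, hx⟩⟩
  rcases hf _ hmap with h | h
  · have hinj : Function.Injective (f.comp (Subgroup.closure (Set.range y.1)).subtype) := by
      rw [injective_iff_map_eq_one]
      rintro ⟨a, ha⟩ h1
      have h2 : a ∈ Subgroup.closure (Set.range y.1) ⊓ f.ker := ⟨ha, h1⟩
      rw [h, Subgroup.mem_bot] at h2
      exact Subtype.ext h2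
    have hsur : Function.Surjective (f.comp (Subgroup.closure (Set.range y.1)).subtype) := by
      intro k
      have h1 : k ∈ (Subgroup.closure (Set.range y.1)).map f := by rw [hmap]; exact trivial
      obtain ⟨a, ha, rfl⟩ := h1
      exact ⟨⟨a, ha⟩, rfl⟩
    let e := MulEquiv.ofBijective (f.comp (Subgroup.closure (Set.range y.1)).subtype)
      ⟨hinj, hsur⟩
    refine ⟨(Subgroup.closure (Set.range y.1)).subtype.comp e.symm.toMonoidHom, fun k => ?_,
      fun x => ?_⟩
    · exact e.apply_symm_apply k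
    · have h1 : e ⟨y.1 x, Subgroup.subset_closure ⟨x, rfl⟩⟩ = gb x := y.2 x
      show ((e.symm (gb x) : Subgroup.closure (Set.range y.1)) : G) = y.1 x
      rw [← h1, e.symm_apply_apply]
  · exfalso
    apply hno
    refine ⟨fun x => if hx : x ∈ S then y.1 ⟨x, hx⟩ else 1, fun x hx => ?_, ?_⟩
    · simp only [dif_pos hx]
      exact y.2 ⟨x, hx⟩
    · rw [Gen_iff_closure, eq_top_iff, ← h]
      refine Subgroup.closure_mono ?_
      rintro _ ⟨⟨x, hx⟩, rfl⟩
      exact ⟨x, hx, by simp only [dif_pos hx]⟩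

theorem gaschutz {n : ℕ} {G K : Type*} [Group G] [Group K] [Finite G] {f : G →* K}
    (hsurj : Function.Surjective f) (hf : MinK f) {S : Finset (Fin n)} {gb : Fin n → K}
    (hgb : Gen gb S) (hr : RB G S.card) :
    ∃ g : Fin n → G, (∀ x ∈ S, f (g x) = gb x) ∧ Gen g S := by
  classical
  by_contra hno
  obtain ⟨z, hz⟩ := exists_tau2 hr S rfl
  -- the values of `z` in the quotient
  have hkb : Subgroup.closure ((fun x => f (z x)) '' (S : Set (Fin n))) = ⊤ := by
    have h1 := (Gen_iff_closure z S).1 hz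
    rw [eq_top_iff]
    intro k _
    obtain ⟨a, rfl⟩ := hsurj k
    have h2 : a ∈ Subgroup.closure (z '' (S : Set (Fin n))) := by rw [h1]; exact trivial
    have h3 : f a ∈ (Subgroup.closure (z '' (S : Set (Fin n)))).map f :=
      Subgroup.mem_map_of_mem f h2
    rw [MonoidHom.map_closure, Set.image_image] at h3
    exact h3
  choose σ hσ1 hσ2 using exists_section hf hgb hno
  -- base points
  choose w hw using hsurj
  have y0 : Lft f S gb := ⟨fun x => w (gb x), fun x => hw _⟩
  have z0 : Lft f S (fun x => f (z x)) := ⟨fun x => z x, fun x => rfl⟩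
  obtain ⟨e⟩ := Lft.equiv y0 z0
  let F : Lft f S gb → Lft f S (fun x => f (z x)) := fun y =>
    ⟨fun x => σ y (f (z x)), fun x => hσ1 y _⟩
  have hF : Function.Injective F := by
    intro y y' h
    have h1 : σ y = σ y' := by
      refine MonoidHom.eq_of_eqOn_dense hkb ?_
      rintro _ ⟨x, hx, rfl⟩
      exact congrFun (congrArg Subtype.val h) ⟨x, hx⟩
    apply Subtype.ext
    funext x
    rw [← hσ2 y x, ← hσ2 y' x, h1]
  have hF2 : Function.Surjective F := (Finite.injective_iff_surjective_of_equiv e).1 hF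
  obtain ⟨y, hy⟩ := hF2 ⟨fun x => z x, fun x => rfl⟩
  have hσz : ∀ x ∈ S, σ y (f (z x)) = z x := fun x hx => congrFun (congrArg Subtype.val hy) ⟨x, hx⟩
  have hsur : (σ y).range = ⊤ := by
    rw [eq_top_iff, ← (Gen_iff_closure z S).1 hz, Subgroup.closure_le]
    rintro _ ⟨x, hx, rfl⟩
    exact ⟨f (z x), hσz x hx⟩
  have hinj : Function.Injective f := by
    intro a b hab
    have ha : a ∈ (σ y).range := by rw [hsur]; exact trivial
    have hb : b ∈ (σ y).range := by rw [hsur]; exact trivial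
    obtain ⟨a', rfl⟩ := ha
    obtain ⟨b', rfl⟩ := hb
    rw [hσ1, hσ1] at hab
    rw [hab]
  apply hno
  refine ⟨fun x => w (gb x), fun x _ => hw _, ?_⟩
  rw [Gen_iff_closure, eq_top_iff]
  intro a _
  have h1 : f a ∈ Subgroup.closure (gb '' (S : Set (Fin n))) := by
    rw [(Gen_iff_closure gb S).1 hgb]
    exact trivial
  have h2 : gb '' (S : Set (Fin n)) = f '' ((fun x => w (gb x)) '' (S : Set (Fin n))) := by
    rw [Set.image_image]
    simp only [hw]
  rw [h2, ← MonoidHom.map_closure] at h1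
  obtain ⟨b, hb, hab⟩ := h1
  rw [← hinj hab]
  exact hb

end Sol

end RED
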