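import Pool.Agent.RED4.FactA
import Pool.Agent.RED4.FactB

/-!
# Moving a letter outside of `I`
-/

set_option autoImplicit false

namespace RED

open AFn IAQ

namespace Sol

variable {n : ℕ} {G K : Type*} [Group G] [Group K]

/-- giving one letter a value if the others generate -/
private theorem exists_one {h : Fin n → G} {e : Fin n} (hg : Gen h {e}ᶜ) (y : G) :
    ∃ θ : MulAut (FreeGroup (Fin n)), act θ h = Function.update h e y := by
  obtain ⟨θ, -, h2⟩ := exists_upd (Y := {e}) hg (fun _ => y)
  refine ⟨θ, h2.trans ?_⟩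
  funext x
  by_cases hx : x = e
  · subst hx
    simp [upd]
  · simp [upd, hx]

theorem lift_move {f : G →* K} {I : Finset (Fin n)} {gb : Fin n → K} (hf : MinK f)
    (h1 : ∀ i ∈ I, gb i = 1) (hgb : Gen gb Iᶜ) {h : Fin n → G} (hh : ∀ x, f (h x) = gb x)
    {i e j : Fin n} (hi : i ∈ I) (he : e ∈ I) (hj : j ∉ I) (hie : i ≠ e) (hne : h i ≠ 1) {y : G}
    (hy : f y = gb j) :
    ∃ θ : MulAut (FreeGroup (Fin n)), act θ h = Function.update h j y := by
  have hje : j ≠ e := fun hc => hj (hc ▸ he)
  have hij : i ≠ j := fun hc => hj (hc ▸ hi)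
  have hS : Iᶜ ⊆ ({e}ᶜ : Finset (Fin n)) := by
    intro x hx
    rw [Finset.mem_compl] at hx
    rw [Finset.mem_compl, Finset.mem_singleton]
    rintro rfl
    exact hx he
  have hiS : i ∈ ({e}ᶜ : Finset (Fin n)) := by
    rw [Finset.mem_compl, Finset.mem_singleton]
    exact hie
  obtain ⟨θ1, hθ1⟩ := exists_one (gen_of_ne hf hgb hh hS hiS (h1 i hi) hne) ((h j)⁻¹ * y)
  have hθ2 := act_Rinv hje (Function.update h e ((h j)⁻¹ * y))
  rw [Function.update_self, Function.update_of_ne hje, mul_inv_cancel_left] at hθ2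
  obtain ⟨h', hh'⟩ : ∃ h', h' = Function.update (Function.update h e ((h j)⁻¹ * y)) j y := ⟨_, rfl⟩
  have hfh' : ∀ x, f (h' x) = gb x := by
    intro x
    rw [hh']
    by_cases hxj : x = j
    · subst hxj
      rw [Function.update_self]
      exact hy
    · rw [Function.update_of_ne hxj]
      by_cases hxe : x = e
      · subst hxe
        rw [Function.update_self, map_mul, map_inv, hh, hy, inv_mul_cancel, h1 x he]
      · rw [Function.update_of_ne hxe]
        exact hh x
  have hne' : h' i ≠ 1 := by
    rw [hh', Function.update_of_ne hij, Function.update_of_ne hie]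
    exact hne
  obtain ⟨θ3, hθ3⟩ := exists_one (gen_of_ne hf hgb hfh' hS hiS (h1 i hi) hne') (h e)
  refine ⟨θ3 * ((R j (FreeGroup.of e))⁻¹ * θ1), ?_⟩
  rw [act_mul, act_mul, hθ1, hθ2, ← hh', hθ3, hh']
  funext x
  by_cases hxe : x = e
  · subst hxe
    rw [Function.update_self, Function.update_of_ne (Ne.symm hje)]
  · rw [Function.update_of_ne hxe]
    by_cases hxj : x = j
    · subst hxj
      rw [Function.update_self, Function.update_self]
    · rw [Function.update_of_ne hxj, Function.update_of_ne hxj, Function.update_of_ne hxe]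

theorem lift_all {f : G →* K} {I : Finset (Fin n)} {gb : Fin n → K} (hf : MinK f)
    (h1 : ∀ i ∈ I, gb i = 1) (hgb : Gen gb Iᶜ) {h : Fin n → G} (hh : ∀ x, f (h x) = gb x)
    {i e : Fin n} (hi : i ∈ I) (he : e ∈ I) (hie : i ≠ e) (hne : h i ≠ 1) {g : Fin n → G}
    (hg : ∀ x, x ∉ I → f (g x) = gb x) :
    ∃ θ : MulAut (FreeGroup (Fin n)), ∀ x, act θ h x = if x ∈ I then h x else g x := by
  have key : ∀ S : Finset (Fin n), (∀ x ∈ S, x ∉ I) →
      ∃ θ : MulAut (FreeGroup (Fin n)), ∀ x, act θ h x = if x ∈ S then g x else h x := by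
    intro S
    induction S using Finset.induction_on with
    | empty =>
      intro _
      refine ⟨1, fun x => ?_⟩
      rw [act_one]
      simp
    | insert j S hjS ih =>
      intro hSI
      obtain ⟨θ, hθ⟩ := ih fun x hx => hSI x (Finset.mem_insert_of_mem hx)
      have hj : j ∉ I := hSI j (Finset.mem_insert_self j S)
      have hiS : i ∉ S := fun hc => hSI i (Finset.mem_insert_of_mem hc) hi
      obtain ⟨θ', hθ'⟩ := lift_move (h := act θ h) hf h1 hgb (fun x => by
        rw [hθ x]
        split_ifs with hx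
        · exact hg x (hSI x (Finset.mem_insert_of_mem hx))
        · exact hh x) hi he hj hie (by
        rw [hθ i, if_neg hiS]
        exact hne) (hg j hj)
      refine ⟨θ' * θ, fun x => ?_⟩
      rw [act_mul, hθ']
      by_cases hxj : x = j
      · subst hxj
        rw [Function.update_self, if_pos (Finset.mem_insert_self x S)]
      · rw [Function.update_of_ne hxj, hθ x]
        by_cases hxS : x ∈ S
        · rw [if_pos hxS, if_pos (Finset.mem_insert_of_mem hxS)]
        · rw [if_neg hxS, if_neg]
          intro hc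
          rcases Finset.mem_insert.1 hc with h3 | h3
          · exact hxj h3
          · exact hxS h3
  obtain ⟨θ, hθ⟩ := key Iᶜ fun x hx => Finset.mem_compl.1 hx
  refine ⟨θ, fun x => ?_⟩
  rw [hθ x]
  by_cases hx : x ∈ I
  · rw [if_pos hx, if_neg]
    exact fun hc => Finset.mem_compl.1 hc hx
  · rw [if_neg hx, if_pos (Finset.mem_compl.2 hx)]

end Sol

end RED
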