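import Mathlib
import Pool.Agent.RED4.GaA
import Pool.Agent.RED4.GaB
import Pool.Agent.RED4.SolvA
import Pool.Agent.RED4.FactB

/-!
# Standard forms of generating tuples of finite solvable groups
-/

set_option autoImplicit false

namespace RED

open AFn IAQ

namespace Sol

theorem gac_act_map {n : ℕ} {G K : Type*} [Group G] [Group K] (f : G →* K)
    (φ : MulAut (FreeGroup (Fin n))) (g : Fin n → G) :
    act φ (fun x => f (g x)) = fun x => f (act φ g x) := by
  funext x
  show ev (fun x => f (g x)) (φ⁻¹ (FreeGroup.of x)) = f (ev g (φ⁻¹ (FreeGroup.of x)))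
  have h : ev (fun x => f (g x)) = f.comp (ev g) := by
    ext y
    rw [ev_of, MonoidHom.comp_apply, ev_of]
  rw [h]
  rfl

theorem gac_gen_map {n : ℕ} {G K : Type*} [Group G] [Group K] {f : G →* K}
    (hf : Function.Surjective f) {g : Fin n → G} {S : Finset (Fin n)} (hg : Gen g S) :
    Gen (fun x => f (g x)) S := by
  intro y
  obtain ⟨x, rfl⟩ := hf y
  obtain ⟨w, hw, rfl⟩ := hg x
  refine ⟨w, hw, ?_⟩
  have h : ev (fun x => f (g x)) = f.comp (ev g) := by
    ext y
    rw [ev_of, MonoidHom.comp_apply, ev_of]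
  rw [h]
  rfl

theorem gac_RB {G K : Type*} [Group G] [Group K] {f : G →* K}
    (hf : Function.Surjective f) {r : ℕ} (hr : RB G r) : RB K r := by
  classical
  obtain ⟨M, h1, h2⟩ := hr
  refine ⟨M.image f, Finset.card_image_le.trans h1, ?_⟩
  rw [Finset.coe_image, ← MonoidHom.map_closure, h2, ← MonoidHom.range_eq_map]
  exact MonoidHom.range_eq_top.2 hf

theorem gac_gen_act {n : ℕ} {G : Type*} [Group G] {g : Fin n → G}
    (φ : MulAut (FreeGroup (Fin n))) (hg : Gen g Finset.univ) :
    Gen (act φ g) Finset.univ := by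
  intro h
  obtain ⟨w, -, hw⟩ := hg h
  refine ⟨φ w, ?_, ?_⟩
  · have h6 : fsub (Finset.univ : Finset (Fin n)) = ⊤ := by
      rw [eq_top_iff, ← FreeGroup.closure_range_of]
      unfold fsub
      refine Subgroup.closure_mono ?_
      rintro _ ⟨y, rfl⟩
      exact ⟨y, by simp, rfl⟩
    rw [h6]
    exact Subgroup.mem_top _
  · rw [ev_act, MulAut.inv_apply_self, hw]

theorem exists_std_solv.{u} {n : ℕ} {I : Finset (Fin n)} (hI : 5 ≤ I.card) (N : ℕ) :
    ∀ (G : Type u) [Group G] [Finite G] [Group.IsSolvable G], Nat.card G ≤ N →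
      RB G Iᶜ.card → ∀ g : Fin n → G, Gen g Finset.univ →
        ∃ φ : MulAut (FreeGroup (Fin n)), Gen (act φ g) Iᶜ ∧ ∀ i ∈ I, act φ g i = 1 := by
  induction N with
  | zero =>
    intro G _ _ _ hc
    have : 0 < Nat.card G := Nat.card_pos
    omega
  | succ N ih =>
    intro G _ _ _ hc hr g hg
    rcases subsingleton_or_nontrivial G with hs | hnt
    · refine ⟨1, fun h => ⟨1, one_mem _, Subsingleton.elim _ _⟩, fun i _ => Subsingleton.elim _ _⟩
    obtain ⟨M, hMn, hMb, hMK⟩ := exists_minK (G := G)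
    have hsurj : Function.Surjective (QuotientGroup.mk' M) := QuotientGroup.mk'_surjective M
    have hcard : Nat.card (G ⧸ M) ≤ N := by
      have h1 : Nat.card G = Nat.card (G ⧸ M) * Nat.card M := Subgroup.card_eq_card_quotient_mul_card_subgroup M
      have h2 : 1 < Nat.card M := (Subgroup.one_lt_card_iff_ne_bot M).2 hMb
      have h3 : 0 < Nat.card (G ⧸ M) := Nat.card_pos
      nlinarith
    obtain ⟨φ1, h1, h2⟩ := ih (G ⧸ M) hcard (gac_RB hsurj hr)
      (fun x => QuotientGroup.mk' M (g x)) (gac_gen_map hsurj hg)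
    obtain ⟨h, hh⟩ : ∃ h, h = act φ1 g := ⟨_, rfl⟩
    obtain ⟨gb, hgb⟩ : ∃ gb : Fin n → G ⧸ M, gb = fun x => QuotientGroup.mk' M (h x) := ⟨_, rfl⟩
    have hact : act φ1 (fun x => QuotientGroup.mk' M (g x)) = gb := by
      rw [gac_act_map, hgb, hh]
    rw [hact] at h1 h2
    have hhu : Gen h Finset.univ := by rw [hh]; exact gac_gen_act φ1 hg
    by_cases hone : ∀ i ∈ I, h i = 1
    · refine ⟨φ1, ?_, ?_⟩
      · rw [← hh]
        exact gen_of_one hhu fun i _ hi => hone i (by simpa using hi)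
      · rw [← hh]
        exact hone
    · push Not at hone
      obtain ⟨i, hi, hi1⟩ := hone
      obtain ⟨e, he, hie⟩ : ∃ e ∈ I, e ≠ i := Finset.exists_mem_ne (by omega) i
      obtain ⟨gs, hgs1, hgs2⟩ := gaschutz hsurj hMK h1 hr
      obtain ⟨θ, hθ⟩ := lift_all (f := QuotientGroup.mk' M) (I := I) (gb := gb) hMK h2 h1
        (h := h) (fun x => by rw [hgb]) hi he (Ne.symm hie) hi1 (g := gs)
        (fun x hx => hgs1 x (by simpa using hx))
      have hgen : Gen (act θ h) Iᶜ := by
        refine Gen_congr (fun x hx => ?_) hgs2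
        rw [hθ, if_neg (Finset.mem_compl.1 hx)]
      obtain ⟨t, -, hta⟩ := exists_upd hgen (fun _ => 1)
      refine ⟨t * θ * φ1, ?_, ?_⟩
      · rw [act_mul, ← hh, act_mul]
        refine Gen_congr (fun x hx => ?_) hgen
        rw [hta, upd_of_notMem (Finset.mem_compl.1 hx)]
      · intro x hx
        rw [act_mul, ← hh, act_mul, hta, upd_of_mem hx]

end Sol

end RED
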