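import Pool.Agent.RED4.Final4
import Pool.Agent.RED4.GaC

/-!
# Finite image for finite solvable groups, in terms of the rank
-/

set_option autoImplicit false

namespace RED

open AFn IAQ

theorem RB_mono {G : Type*} [Group G] {r r' : ℕ} (h : RB G r) (hr : r ≤ r') : RB G r' := by
  obtain ⟨M, h1, h2⟩ := h
  exact ⟨M, h1.trans hr, h2⟩

theorem final_solv {n m r : ℕ} {G : Type*} [Group G] [Finite G] [Group.IsSolvable G]
    (hr : RB G r) (g : Fin n → G) (hg : Function.Surjective (ev g))
    (Hin : Subgroup (MulAut (FreeGroup (Fin n))))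
    (ρ : Hin →* Matrix.GeneralLinearGroup (Fin m) ℤ)
    (hn : r + 5 ≤ n) (hf : Hin.FiniteIndex) (hm : m + 2 ≤ n)
    (hm2 : m ≤ 2 ^ (n - 2 - r) + 1) (hΓ : Gam g ≤ Hin) : Finite ρ.range := by
  classical
  obtain ⟨Z, -, hZ⟩ := Finset.exists_subset_card_eq (s := (Finset.univ : Finset (Fin n)))
    (n := r) (by rw [Finset.card_univ, Fintype.card_fin]; omega)
  have hI : (Zᶜ : Finset (Fin n)).card = n - r := by
    rw [Finset.card_compl, Fintype.card_fin, hZ]
  have hgu : Gen g Finset.univ := by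
    intro x
    obtain ⟨w, hw⟩ := hg x
    refine ⟨w, ?_, hw⟩
    have h6 : fsub (Finset.univ : Finset (Fin n)) = ⊤ := by
      rw [eq_top_iff, ← FreeGroup.closure_range_of]
      unfold fsub
      refine Subgroup.closure_mono ?_
      rintro _ ⟨y, rfl⟩
      exact ⟨y, by simp, rfl⟩
    rw [h6]
    exact Subgroup.mem_top w
  obtain ⟨φ, h1, h2⟩ := Sol.exists_std_solv (I := Zᶜ) (by omega) (Nat.card G) G le_rfl
    (by rw [compl_compl, hZ]; exact hr) g hgu
  exact final4_std g Hin ρ Zᶜ (by omega) hf hm (by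
    have : (Zᶜ : Finset (Fin n)).card - 2 = n - 2 - r := by omega
    rw [this]; exact hm2) hΓ φ h1 h2

end RED
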