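import Mathlib
import Pool.Agent.RED4.Defs4

/-!
# Minimal normal subgroups inside a solvable normal subgroup
-/

set_option autoImplicit false

namespace RED

open AFn IAQ

namespace Sol

theorem rad_comm_lt {G : Type*} [Group G] {N : Subgroup G} (hs : Group.IsSolvable N)
    (hN : N ≠ ⊥) : ⁅N, N⁆ < N := by
  have hnt : Nontrivial N := (Subgroup.nontrivial_iff_ne_bot N).2 hN
  have h1 : commutator N < ⊤ := Group.IsSolvable.commutator_lt_top_of_nontrivial N
  have h2 : (commutator N).map N.subtype < (⊤ : Subgroup N).map N.subtype :=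
    (Subgroup.map_subtype_lt_map_subtype).2 h1
  rw [commutator_def, Subgroup.map_commutator, ← MonoidHom.range_eq_map,
    Subgroup.range_subtype] at h2
  exact h2

/-- a nontrivial solvable normal subgroup contains a normal subgroup of the whole group whose
quotient map satisfies `MinK` -/
theorem exists_minK2 {G : Type*} [Group G] [Finite G] (R : Subgroup G) (hRn : R.Normal)
    (hR : Group.IsSolvable R) (hne : R ≠ ⊥) :
    ∃ N : Subgroup G, ∃ _ : N.Normal, N ≤ R ∧ N ≠ ⊥ ∧ MinK (QuotientGroup.mk' N) := by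
  obtain ⟨N, ⟨hN, hNR, hNb⟩, hmin⟩ := WellFounded.has_min
    (wellFounded_lt : WellFounded ((· < ·) : Subgroup G → Subgroup G → Prop))
    {N : Subgroup G | N.Normal ∧ N ≤ R ∧ N ≠ ⊥} ⟨R, hRn, le_rfl, hne⟩
  have hNs : Group.IsSolvable N :=
    Group.isSolvable_of_isSolvable_injective (f := Subgroup.inclusion hNR) (Subgroup.inclusion_injective hNR)
  have hlt := rad_comm_lt hNs hNb
  have hcomm : ⁅N, N⁆ = ⊥ := by
    by_contra hne
    exact hmin ⁅N, N⁆ ⟨inferInstance, hlt.le.trans hNR, hne⟩ hlt
  have hc : ∀ x ∈ N, ∀ y ∈ N, y * x = x * y := by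
    intro x hx y hy
    have h := (Subgroup.commutator_eq_bot_iff_le_centralizer.1 hcomm) hx
    exact Subgroup.mem_centralizer_iff.1 h y hy
  refine ⟨N, hN, hNR, hNb, ?_⟩
  intro D hD
  have htop : D ⊔ N = ⊤ := by
    have h1 := Subgroup.comap_map_eq (QuotientGroup.mk' N) D
    rw [hD, Subgroup.comap_top, QuotientGroup.ker_mk'] at h1
    exact h1.symm
  rw [QuotientGroup.ker_mk']
  have hnor : (D ⊓ N).Normal := by
    refine ⟨fun x hx g => ?_⟩
    have hg : g ∈ D ⊔ N := by rw [htop]; exact Subgroup.mem_top g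
    obtain ⟨d, hd, y, hy, rfl⟩ := Subgroup.mem_sup_of_normal_right.1 hg
    have h1 : d * y * x * (d * y)⁻¹ = d * x * d⁻¹ := by
      have h2 := hc x hx.2 y hy
      rw [mul_assoc d y x, h2]
      group
    rw [h1]
    exact ⟨D.mul_mem (D.mul_mem hd hx.1) (D.inv_mem hd), hN.conj_mem x hx.2 d⟩
  by_cases hb : D ⊓ N = ⊥
  · exact Or.inl hb
  · right
    have h1 : ¬ (D ⊓ N < N) := hmin _ ⟨hnor, inf_le_right.trans hNR, hb⟩
    have h2 : N ≤ D := by
      have h3 : D ⊓ N = N := by
        by_contra h4
        exact h1 (lt_of_le_of_ne inf_le_right h4)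
      rw [← h3]
      exact inf_le_left
    rw [sup_eq_left.2 h2] at htop
    exact htop

/-- the induced map on the quotient -/
theorem rad_quot.{u, v} {G : Type u} [Group G] [Finite G] {K : Type v} [Group K] {c : G →* K}
    (hc : Function.Surjective c) (hs : Group.IsSolvable c.ker) {N : Subgroup G} [N.Normal]
    (hN : N ≤ c.ker) (hNb : N ≠ ⊥) :
    ∃ c1 : G ⧸ N →* K, (∀ x, c1 (QuotientGroup.mk' N x) = c x) ∧ Function.Surjective c1 ∧
      Group.IsSolvable c1.ker ∧ Nat.card c1.ker < Nat.card c.ker := by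
  have hker : ∀ x ∈ N, c x = 1 := fun x hx => hN hx
  refine ⟨QuotientGroup.lift N c hker, fun x => rfl, ?_, ?_, ?_⟩
  · intro y
    obtain ⟨x, rfl⟩ := hc y
    exact ⟨QuotientGroup.mk' N x, rfl⟩
  · have h1 : (QuotientGroup.lift N c hker).ker = c.ker.map (QuotientGroup.mk' N) := by
      ext y
      obtain ⟨x, rfl⟩ := QuotientGroup.mk'_surjective N y
      constructor
      · intro h
        exact ⟨x, h, rfl⟩
      · rintro ⟨z, hz, hzx⟩
        rw [← hzx]
        exact hz
    rw [h1]
    exact Group.isSolvable_of_surjective ((QuotientGroup.mk' N).subgroupMap_surjective c.ker)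
  · have hK : Finite K := Finite.of_surjective c hc
    have e1 : Nat.card G = Nat.card c.ker * Nat.card K := by
      rw [← Subgroup.card_mul_index c.ker, Subgroup.index_ker, MonoidHom.range_eq_top.2 hc,
        Subgroup.card_top]
    have hc1 : Function.Surjective (QuotientGroup.lift N c hker) := by
      intro y
      obtain ⟨x, rfl⟩ := hc y
      exact ⟨QuotientGroup.mk' N x, rfl⟩
    have e2 : Nat.card (G ⧸ N) = Nat.card (QuotientGroup.lift N c hker).ker * Nat.card K := by
      rw [← Subgroup.card_mul_index (QuotientGroup.lift N c hker).ker, Subgroup.index_ker,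
        MonoidHom.range_eq_top.2 hc1, Subgroup.card_top]
    have e3 : Nat.card G = Nat.card (G ⧸ N) * Nat.card N :=
      Subgroup.card_eq_card_quotient_mul_card_subgroup N
    have h2 : 1 < Nat.card N := (Subgroup.one_lt_card_iff_ne_bot N).2 hNb
    have h3 : 0 < Nat.card K := Nat.card_pos
    have h4 : 0 < Nat.card (QuotientGroup.lift N c hker).ker := Nat.card_pos
    have e4 : Nat.card c.ker = Nat.card (QuotientGroup.lift N c hker).ker * Nat.card N := by
      rw [e1, e2] at e3
      have e5 : Nat.card c.ker * Nat.card K =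
          (Nat.card (QuotientGroup.lift N c hker).ker * Nat.card N) * Nat.card K := by
        rw [e3]; ring
      exact Nat.eq_of_mul_eq_mul_right h3 e5
    rw [e4]
    exact (Nat.lt_mul_iff_one_lt_right h4).2 h2

end Sol

end RED
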