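import Pool.Agent.RED4.Step
import Pool.Agent.RED4.Rad1

/-!
# From a quotient by a solvable normal subgroup to the group
-/

set_option autoImplicit false

namespace RED

open AFn IAQ

namespace Sol

theorem rad_ev {n : ℕ} {G K : Type*} [Group G] [Group K] (f : G →* K) (g : Fin n → G)
    (w : FreeGroup (Fin n)) : ev (fun x => f (g x)) w = f (ev g w) := by
  have h : ev (fun x => f (g x)) = f.comp (ev g) := by
    ext x
    simp [ev]
  rw [h]
  rfl

theorem rad_gen {n : ℕ} {G K : Type*} [Group G] [Group K] {f : G →* K}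
    (hf : Function.Surjective f) {g : Fin n → G} {S : Finset (Fin n)} (hg : Gen g S) :
    Gen (fun x => f (g x)) S := by
  intro y
  obtain ⟨x, rfl⟩ := hf y
  obtain ⟨w, hw, rfl⟩ := hg x
  exact ⟨w, hw, rad_ev f g w⟩

theorem rad_inj {n : ℕ} {G K : Type*} [Group G] [Group K] {c : G →* K}
    (hc : Function.Injective c) (g : Fin n → G) : Gam (fun x => c (g x)) = Gam g := by
  ext φ
  constructor
  · intro h w
    have h1 := h w
    rw [rad_ev, rad_ev] at h1
    exact hc h1
  · intro h w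
    rw [rad_ev, rad_ev, h w]

theorem rad_gam.{u, v} {n : ℕ} {I : Finset (Fin n)} (hI : 5 ≤ I.card) {K : Type v} [Group K]
    (hK : ∀ g : Fin n → K, (∀ i ∈ I, g i = 1) → Gen g Iᶜ → Gam g ≤ NN g) (N : ℕ) :
    ∀ (G : Type u) [Group G] [Finite G] (c : G →* K), Function.Surjective c →
      Group.IsSolvable c.ker → Nat.card c.ker ≤ N →
      ∀ g : Fin n → G, (∀ i ∈ I, g i = 1) → Gen g Iᶜ → Gam g ≤ NN g := by
  induction N with
  | zero =>
    intro G _ _ c _ _ hc
    have : 0 < Nat.card c.ker := Nat.card_pos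
    omega
  | succ N ih =>
    intro G _ _ c hc hs hcard g h1 hg
    by_cases hb : c.ker = ⊥
    · have hinj : Function.Injective c := (MonoidHom.ker_eq_bot_iff c).1 hb
      have h2 := hK (fun x => c (g x)) (fun i hi => by rw [h1 i hi, map_one]) (rad_gen hc hg)
      have h3 : NN (fun x => c (g x)) = NN g := by
        unfold NN
        rw [rad_inj hinj]
      rwa [rad_inj hinj, h3] at h2
    · obtain ⟨M, hM, hMc, hne, hmin⟩ := exists_minK2 c.ker inferInstance hs hb
      obtain ⟨c1, hc1, hc1s, hs1, hcard1⟩ := rad_quot hc hs hMc hne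
      obtain ⟨a, ha⟩ := Subgroup.ne_bot_iff_exists_ne_one.1 hne
      obtain ⟨ν, hν, hν1⟩ : ∃ ν : G, ν ∈ M ∧ ν ≠ 1 :=
        ⟨a.1, a.2, fun h => ha (Subtype.ext h)⟩
      refine step (f := QuotientGroup.mk' M) (QuotientGroup.mk'_surjective M) hmin
        ⟨ν, (QuotientGroup.eq_one_iff ν).2 hν, hν1⟩ hI h1 hg ?_
      refine ih (G ⧸ M) c1 hc1s hs1 (by omega) _ (fun i hi => by rw [h1 i hi, map_one])
        (rad_gen (QuotientGroup.mk'_surjective M) hg)

end Sol

end RED
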