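import Pool.Agent.RED4.GaC
import Pool.Agent.RED4.Rad1
import Pool.Agent.RED4.Rad2

/-!
# Standard forms: from a quotient by a solvable normal subgroup to the group
-/

set_option autoImplicit false

namespace RED

open AFn IAQ

namespace Sol

theorem rad_std.{u, v} {n : ℕ} {I : Finset (Fin n)} (hI : 5 ≤ I.card) {K : Type v} [Group K]
    (N : ℕ) :
    ∀ (G : Type u) [Group G] [Finite G] (c : G →* K), Function.Surjective c →
      Group.IsSolvable c.ker → Nat.card c.ker ≤ N → RB G Iᶜ.card →
      ∀ g : Fin n → G, Gen g Finset.univ → (∀ i ∈ I, c (g i) = 1) →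
        Gen (fun x => c (g x)) Iᶜ →
        ∃ φ : MulAut (FreeGroup (Fin n)), Gen (act φ g) Iᶜ ∧ ∀ i ∈ I, act φ g i = 1 := by
  induction N with
  | zero =>
    intro G _ _ c _ _ hc
    have : 0 < Nat.card c.ker := Nat.card_pos
    omega
  | succ N ih =>
    intro G _ _ c hc hs hcard hr g hg hg1 hg2
    by_cases hb : c.ker = ⊥
    · have hinj : Function.Injective c := (MonoidHom.ker_eq_bot_iff c).1 hb
      refine ⟨1, ?_, ?_⟩
      · rw [act_one]
        intro h
        obtain ⟨w, hw, hw2⟩ := hg2 (c h)
        rw [rad_ev] at hw2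
        exact ⟨w, hw, hinj hw2⟩
      · intro i hi
        rw [act_one]
        exact hinj (by rw [hg1 i hi, map_one])
    · obtain ⟨M, hMn, hMc, hMb, hMK⟩ := exists_minK2 c.ker inferInstance hs hb
      obtain ⟨c1, hc1, hc1s, hs1, hcard1⟩ := rad_quot hc hs hMc hMb
      have hsurj : Function.Surjective (QuotientGroup.mk' M) := QuotientGroup.mk'_surjective M
      obtain ⟨φ1, h1, h2⟩ := ih (G ⧸ M) c1 hc1s hs1 (by omega) (gac_RB hsurj hr)
        (fun x => QuotientGroup.mk' M (g x)) (rad_gen hsurj hg)
        (fun i hi => by rw [hc1]; exact hg1 i hi)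
        (by
          have h3 : (fun x => c1 (QuotientGroup.mk' M (g x))) = fun x => c (g x) := by
            funext x
            rw [hc1]
          rw [h3]
          exact hg2)
      obtain ⟨h, hh⟩ : ∃ h, h = act φ1 g := ⟨_, rfl⟩
      obtain ⟨gb, hgb⟩ : ∃ gb : Fin n → G ⧸ M, gb = fun x => QuotientGroup.mk' M (h x) := ⟨_, rfl⟩
      have hact : act φ1 (fun x => QuotientGroup.mk' M (g x)) = gb := by
        rw [gac_act_map, hgb, hh]
      rw [hact] at h1 h2
      have hhu : Gen h Finset.univ := by rw [hh]; exact gac_gen_act φ1 hg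
      by_cases hone : ∀ i ∈ I, h i = 1
      · refine ⟨φ1, ?_, ?_⟩
        · rw [← hh]
          exact gen_of_one hhu fun i _ hi => hone i (by simpa using hi)
        · rw [← hh]
          exact hone
      · push Not at hone
        obtain ⟨i, hi, hi1⟩ := hone
        obtain ⟨e, he, hie⟩ : ∃ e ∈ I, e ≠ i := Finset.exists_mem_ne (by omega) i
        obtain ⟨gs, hgs1, hgs2⟩ := gaschutz hsurj hMK h1 hr
        obtain ⟨θ, hθ⟩ := lift_all (f := QuotientGroup.mk' M) (I := I) (gb := gb) hMK h2 h1
          (h := h) (fun x => by rw [hgb]) hi he (Ne.symm hie) hi1 (g := gs)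
          (fun x hx => hgs1 x (by simpa using hx))
        have hgen : Gen (act θ h) Iᶜ := by
          refine Gen_congr (fun x hx => ?_) hgs2
          rw [hθ, if_neg (Finset.mem_compl.1 hx)]
        obtain ⟨t, -, hta⟩ := exists_upd hgen (fun _ => 1)
        refine ⟨t * θ * φ1, ?_, ?_⟩
        · rw [act_mul, ← hh, act_mul]
          refine Gen_congr (fun x hx => ?_) hgen
          rw [hta, upd_of_notMem (Finset.mem_compl.1 hx)]
        · intro x hx
          rw [act_mul, ← hh, act_mul, hta, upd_of_mem hx]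

end Sol

end RED
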