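import Mathlib
import Pool.Agent.RED.HypMain
import Pool.Agent.RED.BMain
import Pool.Agent.RED.Final
import Pool.Agent.RED.Final2
import Pool.Agent.RED4.Rad2
import Pool.Agent.RED4.Rad3

/-!
# Finite image: solvable normal subgroup with small quotient
-/

set_option autoImplicit false

namespace RED

open AFn IAQ

theorem final_gam_range6 {n m : ℕ} {G : Type*} [Group G]
    (g : Fin n → G) (Hin : Subgroup (MulAut (FreeGroup (Fin n))))
    (ρ : Hin →* Matrix.GeneralLinearGroup (Fin m) ℤ) (I : Finset (Fin n)) (hI : 5 ≤ I.card)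
    (hf : Hin.FiniteIndex) (hm : m + 2 ≤ n) (hm2 : m ≤ 2 ^ (I.card - 2) + 1)
    (hΓ : Gam g ≤ Hin) (h1 : ∀ i ∈ I, g i = 1) [Finite G] (hN : Gam g ≤ NN g) :
    {y | ∃ (x : MulAut (FreeGroup (Fin n))) (hx : x ∈ Gam g), y = ρ ⟨x, hΓ hx⟩}.Finite := by
  have hcard : I.card + Iᶜ.card = n := by
    have := Finset.card_add_card_compl I
    rwa [Fintype.card_fin] at this
  have hI2 : n - 2 - Iᶜ.card = I.card - 2 := by omega
  have hyp : Hyp g I (ρ.comp (Subgroup.inclusion hΓ)) :=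
    hyp_main g I Hin ρ hf hm hΓ h1 hI (by omega) (by rw [hI2]; exact hm2)
  have hE := all_finite g I (ρ.comp (Subgroup.inclusion hΓ)) hyp hI
  set E := Subgroup.closure {x | ∃ φ, φ ∈ Gam g ∧ (∃ c, φ ∈ Mv c) ∧
    x = fe g (ρ.comp (Subgroup.inclusion hΓ)) φ} with hEd
  have key : ∀ φ ∈ NN g, φ ∈ Gam g ∧ fe g (ρ.comp (Subgroup.inclusion hΓ)) φ ∈ E := by
    intro φ hφ
    induction hφ using Subgroup.closure_induction with
    | mem x hx =>
      exact ⟨hx.1, Subgroup.subset_closure ⟨x, hx.1, hx.2, rfl⟩⟩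
    | one => exact ⟨(Gam g).one_mem, by rw [fe_one]; exact E.one_mem⟩
    | mul x y _ _ hx hy =>
      refine ⟨(Gam g).mul_mem hx.1 hy.1, ?_⟩
      rw [fe_mul _ _ hx.1 hy.1]
      exact E.mul_mem hx.2 hy.2
    | inv x _ hx =>
      refine ⟨(Gam g).inv_mem hx.1, ?_⟩
      rw [fe_inv _ _ hx.1]
      exact E.inv_mem hx.2
  have hEf : (E : Set (Matrix.GeneralLinearGroup (Fin m) ℤ)).Finite := Set.toFinite _
  refine hEf.subset ?_
  rintro y ⟨x, hx, rfl⟩
  have h2 := (key x (hN hx)).2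
  rw [fe_of_mem _ _ hx] at h2
  exact h2

theorem final6_std {n m : ℕ} {G : Type*} [Group G] [Finite G]
    (g : Fin n → G) (Hin : Subgroup (MulAut (FreeGroup (Fin n))))
    (ρ : Hin →* Matrix.GeneralLinearGroup (Fin m) ℤ) (I : Finset (Fin n)) (hI : 5 ≤ I.card)
    (hf : Hin.FiniteIndex) (hm : m + 2 ≤ n) (hm2 : m ≤ 2 ^ (I.card - 2) + 1)
    (hΓ : Gam g ≤ Hin) (φ : MulAut (FreeGroup (Fin n)))
    (h1 : ∀ i ∈ I, act φ g i = 1) (hN : Gam (act φ g) ≤ NN (act φ g)) : Finite ρ.range := by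
  set cj : MulAut (FreeGroup (Fin n)) →* MulAut (FreeGroup (Fin n)) :=
    (MulAut.conj φ⁻¹).toMonoidHom with hcj
  have hcja : ∀ x, cj x = φ⁻¹ * x * φ := by
    intro x
    show φ⁻¹ * x * φ⁻¹⁻¹ = _
    rw [inv_inv]
  have hΓ' : Gam (act φ g) ≤ Hin.comap cj := by
    intro x hx
    rw [Subgroup.mem_comap, hcja]
    apply hΓ
    have h2 := Gam_conj hx φ⁻¹
    rwa [act_inv_act, inv_inv] at h2
  have hsj : Function.Surjective cj := (MulAut.conj φ⁻¹).surjective
  have hfi : (Hin.comap cj).FiniteIndex :=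
    ⟨by rw [Subgroup.index_comap_of_surjective Hin hsj]; exact hf.index_ne_zero⟩
  have h3 := final_gam_range6 (act φ g) (Hin.comap cj) (ρ.comp (cj.subgroupComap Hin)) I hI
    hfi hm hm2 hΓ' h1 hN
  refine final_of_finite g Hin ρ hΓ (h3.subset ?_)
  rintro y ⟨x, hx, rfl⟩
  refine ⟨φ * x * φ⁻¹, Gam_conj hx φ, ?_⟩
  show ρ _ = ρ _
  congr 1
  apply Subtype.ext
  show x = cj (φ * x * φ⁻¹)
  rw [hcja]
  group

theorem gen_univ6 {n : ℕ} {G : Type*} [Group G] {g : Fin n → G}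
    (hg : Function.Surjective (ev g)) : Gen g Finset.univ := by
  intro x
  obtain ⟨w, hw⟩ := hg x
  refine ⟨w, ?_, hw⟩
  have h6 : fsub (Finset.univ : Finset (Fin n)) = ⊤ := by
    rw [eq_top_iff, ← FreeGroup.closure_range_of]
    unfold fsub
    refine Subgroup.closure_mono ?_
    rintro _ ⟨y, rfl⟩
    exact ⟨y, by simp, rfl⟩
  rw [h6]
  exact Subgroup.mem_top w

theorem final_rad {n m r s d : ℕ} {G : Type*} [Group G] [Finite G] (R : Subgroup G) [R.Normal]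
    (hR : Group.IsSolvable R) (hr : RB G r) (hs : RB (G ⧸ R) s) (hd : MB (G ⧸ R) d)
    (hsr : s ≤ r) (g : Fin n → G) (hg : Function.Surjective (ev g))
    (Hin : Subgroup (MulAut (FreeGroup (Fin n))))
    (ρ : Hin →* Matrix.GeneralLinearGroup (Fin m) ℤ)
    (hn : r + 5 ≤ n) (hn2 : 4 * s + 2 * d + 5 ≤ n) (hf : Hin.FiniteIndex) (hm : m + 2 ≤ n)
    (hm2 : m ≤ 2 ^ (n - 2 - r) + 1) (hΓ : Gam g ≤ Hin) : Finite ρ.range := by
  classical
  obtain ⟨c, hc⟩ : ∃ c : G →* G ⧸ R, c = QuotientGroup.mk' R := ⟨_, rfl⟩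
  have hcs : Function.Surjective c := by rw [hc]; exact QuotientGroup.mk'_surjective R
  have hker : c.ker = R := by rw [hc]; exact QuotientGroup.ker_mk' R
  have hcsol : Group.IsSolvable c.ker := by rw [hker]; exact hR
  have hgK : Function.Surjective (ev (fun x => c (g x))) := by
    intro y
    obtain ⟨x, rfl⟩ := hcs y
    obtain ⟨w, rfl⟩ := hg x
    exact ⟨w, Sol.rad_ev c g w⟩
  obtain ⟨φ0, I0, hI0, hgen0, h10⟩ := exists_std2 hs hd hn2 _ hgK
  -- a set of `r` letters containing the complement of `I0`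
  obtain ⟨J, hJ1, hJ2⟩ := Finset.exists_superset_card_eq (s := I0ᶜ) (n := r)
    (hI0.trans hsr) (by rw [Fintype.card_fin]; omega)
  have hJc : (Jᶜ : Finset (Fin n)).card = n - r := by
    rw [Finset.card_compl, Fintype.card_fin, hJ2]
  have hJI : (Jᶜ : Finset (Fin n)) ⊆ I0 := by
    intro x hx
    by_contra h
    exact (Finset.mem_compl.1 hx) (hJ1 (Finset.mem_compl.2 h))
  have hI : 5 ≤ (Jᶜ : Finset (Fin n)).card := by omega
  obtain ⟨g1, hg1⟩ : ∃ g1, g1 = act φ0 g := ⟨_, rfl⟩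
  have hcg1 : (fun x => c (g1 x)) = act φ0 (fun x => c (g x)) := by
    rw [hg1, Sol.gac_act_map]
  have hg1u : Gen g1 Finset.univ := by
    rw [hg1]
    exact Sol.gac_gen_act φ0 (gen_univ6 hg)
  obtain ⟨φ1, h1, h2⟩ := Sol.rad_std hI (Nat.card c.ker) G c hcs hcsol le_rfl
    (by rw [compl_compl, hJ2]; exact hr) g1 hg1u
    (fun i hi => by
      have := congrFun hcg1 i
      rw [this]
      exact h10 i (hJI hi))
    (by
      rw [hcg1, compl_compl]
      exact Gen_mono hJ1 hgen0)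
  have hN : Gam (act φ1 g1) ≤ NN (act φ1 g1) := by
    refine Sol.rad_gam hI (K := G ⧸ R) ?_ (Nat.card c.ker) G c hcs hcsol le_rfl _ h2 h1
    intro k hk1 hk2
    have hku : Function.Surjective (ev k) := fun y => by
      obtain ⟨w, -, hw⟩ := hk2 y
      exact ⟨w, hw⟩
    exact (gen_all2 hs hd hn2 k hku).trans
      (NS_std (Finset.card_pos.1 (by omega)) hk2 hk1)
  refine final6_std g Hin ρ Jᶜ hI hf hm ?_ hΓ (φ1 * φ0) ?_ ?_
  · have : (Jᶜ : Finset (Fin n)).card - 2 = n - 2 - r := by omega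
    rw [this]
    exact hm2
  · intro i hi
    rw [act_mul, ← hg1]
    exact h2 i hi
  · rw [act_mul, ← hg1]
    exact hN

end RED
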