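import Pool.Agent.RED4.Defs4
import Pool.Agent.RED.NS4

/-!
# The transported groups at a tuple with `HL2p`
-/

set_option autoImplicit false

namespace RED

open AFn IAQ

namespace Sol

variable {n : ℕ} {G K : Type*} [Group G] [Group K]

theorem NS_indep_p {g : Fin n → G} (h2 : HL2p g)
    {Y Y' : Finset (Fin n)} {t t' : MulAut (FreeGroup (Fin n))} (ht : Val g Y t)
    (ht' : Val g Y' t') (φ : MulAut (FreeGroup (Fin n))) :
    t * φ * t⁻¹ ∈ NN (rs g Y) ↔ t' * φ * t'⁻¹ ∈ NN (rs g Y') := by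
  obtain ⟨e, he⟩ := ht.1
  obtain ⟨e', he'⟩ := ht'.1
  have hsub : ∀ {A B : Finset (Fin n)}, A ⊆ B → Bᶜ ⊆ Aᶜ := fun h =>
    Finset.compl_subset_compl.2 h
  have h3 : ({e} : Finset (Fin n)) ⊆ Y := Finset.singleton_subset_iff.2 he
  have h3' : ({e'} : Finset (Fin n)) ⊆ Y' := Finset.singleton_subset_iff.2 he'
  have hG : Gen g {e}ᶜ := Gen_mono (hsub h3) ht.2.1
  have hG' : Gen g {e'}ᶜ := Gen_mono (hsub h3') ht'.2.1
  obtain ⟨e'', hee, hee'⟩ := h2 e e' hG hG'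
  have s1 : ({e} : Finset (Fin n)) ⊆ {e, e''} := by
    rw [Finset.singleton_subset_iff]
    exact Finset.mem_insert_self _ _
  have s2 : ({e''} : Finset (Fin n)) ⊆ {e, e''} := by
    rw [Finset.singleton_subset_iff]
    exact Finset.mem_insert_of_mem (Finset.mem_singleton_self _)
  have s3 : ({e''} : Finset (Fin n)) ⊆ {e', e''} := by
    rw [Finset.singleton_subset_iff]
    exact Finset.mem_insert_of_mem (Finset.mem_singleton_self _)
  have s4 : ({e'} : Finset (Fin n)) ⊆ {e', e''} := by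
    rw [Finset.singleton_subset_iff]
    exact Finset.mem_insert_self _ _
  obtain ⟨t₁, ht₁⟩ := ns1_exists (g := g) (Y := {e}) (Finset.singleton_nonempty _) hG
  obtain ⟨t₂, ht₂⟩ := ns1_exists (g := g) (Y := {e, e''}) (Finset.insert_nonempty _ _) hee
  obtain ⟨t₃, ht₃⟩ := ns1_exists (g := g) (Y := {e''}) (Finset.singleton_nonempty _)
    (Gen_mono (hsub s2) hee)
  obtain ⟨t₄, ht₄⟩ := ns1_exists (g := g) (Y := {e', e''}) (Finset.insert_nonempty _ _) hee'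
  obtain ⟨t₅, ht₅⟩ := ns1_exists (g := g) (Y := {e'}) (Finset.singleton_nonempty _) hG'
  have e1 := NS_mono h3 ht₁ ht φ
  have e2 := NS_mono s1 ht₁ ht₂ φ
  have e3 := NS_mono s2 ht₃ ht₂ φ
  have e4 := NS_mono s3 ht₃ ht₄ φ
  have e5 := NS_mono s4 ht₅ ht₄ φ
  have e6 := NS_mono h3' ht₅ ht' φ
  exact e1.symm.trans (e2.trans (e3.symm.trans (e4.trans (e5.symm.trans e6))))

theorem mem_NS_of_p {g : Fin n → G} (h2 : HL2p g)
    {Y : Finset (Fin n)} {t : MulAut (FreeGroup (Fin n))} (ht : Val g Y t)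
    {φ : MulAut (FreeGroup (Fin n))} (h : t * φ * t⁻¹ ∈ NN (rs g Y)) : φ ∈ NS g := by
  intro Y' t' ht'
  exact (NS_indep_p h2 ht ht' φ).1 h

theorem NS_lemY_p {g : Fin n → G} (h2 : HL2p g)
    (Y : Finset (Fin n)) (hY : ∀ h : G, ∃ w ∈ fsub Yᶜ, ev g w = h)
    {φ : MulAut (FreeGroup (Fin n))} (hφ : φ ∈ MvS Y) (hφg : φ ∈ Gam g) : φ ∈ NS g := by
  rcases Y.eq_empty_or_nonempty with rfl | hne
  · have h1 : MvS (∅ : Finset (Fin n)) = ⊥ := by
      have h2 : {φ : MulAut (FreeGroup (Fin n)) | ∃ y ∈ (∅ : Finset (Fin n)), φ ∈ Mv y} = ∅ := by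
        ext φ
        simp
      rw [MvS, h2, Subgroup.closure_empty]
    rw [h1, Subgroup.mem_bot] at hφ
    rw [hφ]
    exact Subgroup.one_mem _
  · obtain ⟨t, htM, hta⟩ := exists_upd (g := g) (Y := Y) hY (fun _ => 1)
    have hta' : act t g = rs g Y := hta
    have hV : Val g Y t := ⟨hne, hY, htM, hta'⟩
    refine mem_NS_of_p h2 hV (lemY0 g Y hY ?_ ?_)
    · exact (MvS Y).mul_mem ((MvS Y).mul_mem htM hφ) ((MvS Y).inv_mem htM)
    · rw [← hta']
      exact Gam_conj hφg t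

theorem NS_le_Gam_p {g : Fin n → G} {e : Fin n} (he : Gen g {e}ᶜ) : NS g ≤ Gam g := by
  intro φ hφ
  obtain ⟨t, ht⟩ := ns1_exists (g := g) (Y := {e}) (Finset.singleton_nonempty _) he
  have h2 : t * φ * t⁻¹ ∈ Gam (act t g) := by
    rw [ht.2.2.2]
    exact NN_le _ (hφ {e} t ht)
  have h3 := Gam_conj h2 t⁻¹
  rw [← act_mul, inv_mul_cancel, act_one] at h3
  have h4 : t⁻¹ * (t * φ * t⁻¹) * t⁻¹⁻¹ = φ := by group
  rwa [h4] at h3

end Sol

end RED
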