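import Pool.Agent.RED4.NSa
import Pool.Agent.RED4.FactA
import Pool.Agent.RED.NS3

/-!
# Two-letter moves not using a letter which is not needed
-/

set_option autoImplicit false

namespace RED

open AFn IAQ

namespace Sol

variable {n : ℕ} {G K : Type*} [Group G] [Group K]

/-- moves of `e` conjugate an automorphism preserving the letter `e` into the same group -/
private theorem nsc_brk {h : Fin n → G} {e : Fin n} (hg : Gen h {e}ᶜ)
    {t φ : MulAut (FreeGroup (Fin n))} (ht : t ∈ MvS {e}) (hp : Pres e φ)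
    (hφ : φ ∈ Gam (rs h {e})) (htφ : t * φ * t⁻¹ ∈ Gam (rs h {e})) :
    φ⁻¹ * (t * φ * t⁻¹) ∈ NN (rs h {e}) := by
  refine lemY0 h {e} hg ?_ ((Gam _).mul_mem ((Gam _).inv_mem hφ) htφ)
  have h1 : φ⁻¹ * t * (φ⁻¹)⁻¹ ∈ MvS {e} := by
    refine NConj.conj_MvS (fun y hy => ?_) ht
    rw [Finset.mem_singleton.1 hy]
    exact Pres_inv hp
  have e1 : φ⁻¹ * (t * φ * t⁻¹) = (φ⁻¹ * t * (φ⁻¹)⁻¹) * t⁻¹ := by group
  rw [e1]
  exact (MvS _).mul_mem h1 ((MvS _).inv_mem ht)

private theorem rs_single (h : Fin n → G) (e : Fin n) : rs h {e} = Function.update h e 1 := by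
  funext x
  by_cases hx : x = e
  · subst hx
    rw [Function.update_self, rs, if_pos (Finset.mem_singleton_self x)]
  · rw [Function.update_of_ne hx, rs, if_neg (fun h1 => hx (Finset.mem_singleton.1 h1))]

/-- two-letter moves not using `e` -/
theorem lemQ {h : Fin n → G} (h2 : HL2p h) {j e i : Fin n} (hje : j ≠ e) (hie : i ≠ e)
    (hij : i ≠ j) (hg : Gen h {i, e}ᶜ) {φ : MulAut (FreeGroup (Fin n))} (hφ : φ ∈ MvS {j, i})
    (hφg : φ ∈ Gam h) (hp : Pres e φ) : φ ∈ NS h := by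
  set k : Fin n → G := Function.update h e (h j) with hk
  have hke : k e = h j := Function.update_self _ _ _
  have hkx : ∀ x, x ≠ e → k x = h x := fun x hx => Function.update_of_ne hx _ _
  -- `φ` preserves `k`
  have hφk : φ ∈ Gam k := by
    rw [mem_Gam_iff, hk, act_update hp, (mem_Gam_iff).1 hφg]
  -- generation
  have hgk : Gen k {i, e}ᶜ := by
    refine Gen_congr (fun x hx => ?_) hg
    refine (hkx x fun hxe => ?_).symm
    rw [Finset.mem_compl] at hx
    exact hx (by rw [hxe]; exact Finset.mem_insert_of_mem (Finset.mem_singleton_self e))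
  have hgji : Gen k {j, i}ᶜ := by
    rw [Gen_iff] at hg ⊢
    refine hg.trans ?_
    rw [Subgroup.map_le_iff_le_comap]
    nth_rewrite 1 [fsub]
    rw [Subgroup.closure_le]
    rintro _ ⟨x, hx, rfl⟩
    have hx' : x ∉ ({i, e} : Finset (Fin n)) := Finset.mem_compl.1 hx
    rw [Finset.mem_insert, Finset.mem_singleton, not_or] at hx'
    by_cases hxj : x = j
    · refine ⟨FreeGroup.of e, of_mem_fsub ?_, ?_⟩
      · rw [Finset.mem_compl, Finset.mem_insert, Finset.mem_singleton, not_or]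
        exact ⟨fun h1 => hje h1.symm, fun h1 => hie h1.symm⟩
      · rw [ev_of, ev_of, hke, hxj]
    · refine ⟨FreeGroup.of x, of_mem_fsub ?_, ?_⟩
      · rw [Finset.mem_compl, Finset.mem_insert, Finset.mem_singleton, not_or]
        exact ⟨hxj, hx'.1⟩
      · rw [ev_of, ev_of, hkx x hx'.2]
  have hsub1 : ({i} : Finset (Fin n)) ⊆ {j, i} := by
    intro x hx
    rw [Finset.mem_singleton] at hx
    rw [hx]
    exact Finset.mem_insert_of_mem (Finset.mem_singleton_self i)
  have hsub2 : ({i} : Finset (Fin n)) ⊆ {i, e} := by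
    intro x hx
    rw [Finset.mem_singleton] at hx
    rw [hx]
    exact Finset.mem_insert_self i _
  have hsub3 : ({e} : Finset (Fin n)) ⊆ {i, e} := by
    intro x hx
    rw [Finset.mem_singleton] at hx
    rw [hx]
    exact Finset.mem_insert_of_mem (Finset.mem_singleton_self e)
  have hgi : Gen k {i}ᶜ := Gen_mono (Finset.compl_subset_compl.2 hsub1) hgji
  have hgek : Gen k {e}ᶜ := Gen_mono (Finset.compl_subset_compl.2 hsub3) hgk
  have hge : Gen h {e}ᶜ := Gen_mono (Finset.compl_subset_compl.2 hsub3) hg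
  obtain ⟨t0, ht0⟩ := ns1_exists (Finset.insert_nonempty j {i}) hgji
  obtain ⟨t1, ht1⟩ := ns1_exists (Finset.singleton_nonempty i) hgi
  obtain ⟨t2, ht2⟩ := ns1_exists (Finset.insert_nonempty i {e}) hgk
  obtain ⟨t3, ht3⟩ := ns1_exists (Finset.singleton_nonempty e) hgek
  have hrs : rs k {e} = rs h {e} := by
    rw [rs_single, rs_single, hk, Function.update_idem]
  -- at `{j, i}`
  have a0 : t0 * φ * t0⁻¹ ∈ NN (rs k {j, i}) := by
    refine lemY0 k {j, i} hgji ?_ ?_
    · exact (MvS _).mul_mem ((MvS _).mul_mem ht0.2.2.1 hφ) ((MvS _).inv_mem ht0.2.2.1)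
    · have := Gam_conj hφk t0
      rwa [ht0.2.2.2] at this
  have a1 := (NS_mono hsub1 ht1 ht0 φ).2 a0
  have a2 := (NS_mono hsub2 ht1 ht2 φ).1 a1
  have a3 := (NS_mono hsub3 ht3 ht2 φ).2 a2
  rw [hrs] at a3
  -- `φ` itself
  have hφe : φ ∈ Gam (rs h {e}) := by
    rw [mem_Gam_iff, rs_single, act_update hp, (mem_Gam_iff).1 hφg]
  have b1 := nsc_brk hge ht3.2.2.1 hp hφe (NN_le _ a3)
  have b2 : φ ∈ NN (rs h {e}) := by
    have e1 : φ = (t3 * φ * t3⁻¹) * (φ⁻¹ * (t3 * φ * t3⁻¹))⁻¹ := by group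
    rw [e1]
    exact (NN _).mul_mem a3 ((NN _).inv_mem b1)
  obtain ⟨t, ht⟩ := ns1_exists (Finset.singleton_nonempty e) hge
  refine mem_NS_of_p h2 ht ?_
  have hG : t * φ * t⁻¹ ∈ Gam (rs h {e}) := by
    have := Gam_conj hφg t
    rwa [ht.2.2.2] at this
  have b3 := nsc_brk hge ht.2.2.1 hp hφe hG
  have e2 : t * φ * t⁻¹ = φ * (φ⁻¹ * (t * φ * t⁻¹)) := by group
  rw [e2]
  exact (NN _).mul_mem b2 b3

end Sol

end RED
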