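import Pool.Agent.RED4.Defs4
import Pool.Agent.RED.MvBasic

/-!
# One-letter moves are products of good ones
-/

set_option autoImplicit false

namespace RED

open AFn IAQ

namespace Sol

variable {n : ℕ} {G K : Type*} [Group G] [Group K]

/-- the words which are trivial modulo the letters of `I` -/
def nseK (I : Finset (Fin n)) : Subgroup (FreeGroup (Fin n)) :=
  Subgroup.closure {x | ∃ w ∈ fsub Iᶜ, ∃ b ∈ I, x = w * FreeGroup.of b * w⁻¹}

theorem nse_of_mem {I : Finset (Fin n)} {a : Fin n} (ha : a ∈ I) : FreeGroup.of a ∈ nseK I :=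
  Subgroup.subset_closure ⟨1, (fsub _).one_mem, a, ha, by group⟩

theorem nse_conj_fsub {I : Finset (Fin n)} {v s : FreeGroup (Fin n)} (hv : v ∈ fsub Iᶜ)
    (hs : s ∈ nseK I) : v * s * v⁻¹ ∈ nseK I := by
  unfold nseK at hs
  induction hs using Subgroup.closure_induction with
  | mem x hx =>
    obtain ⟨w, hw, b, hb, rfl⟩ := hx
    refine Subgroup.subset_closure ⟨v * w, (fsub _).mul_mem hv hw, b, hb, ?_⟩
    group
  | one =>
    have : v * 1 * v⁻¹ = 1 := by group
    rw [this]
    exact (nseK I).one_mem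
  | mul x y _ _ hx hy =>
    have : v * (x * y) * v⁻¹ = v * x * v⁻¹ * (v * y * v⁻¹) := by group
    rw [this]
    exact (nseK I).mul_mem hx hy
  | inv x _ hx =>
    have : v * x⁻¹ * v⁻¹ = (v * x * v⁻¹)⁻¹ := by group
    rw [this]
    exact (nseK I).inv_mem hx

theorem nse_conj {I : Finset (Fin n)} (g : FreeGroup (Fin n)) :
    ∀ s ∈ nseK I, g * s * g⁻¹ ∈ nseK I := by
  induction g using FreeGroup.induction_on with
  | C1 =>
    intro s hs
    have : 1 * s * 1⁻¹ = s := by group
    rwa [this]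
  | of a =>
    intro s hs
    by_cases ha : a ∈ I
    · exact (nseK I).mul_mem ((nseK I).mul_mem (nse_of_mem ha) hs)
        ((nseK I).inv_mem (nse_of_mem ha))
    · exact nse_conj_fsub (of_mem_fsub (Finset.mem_compl.2 ha)) hs
  | inv_of a _ =>
    intro s hs
    by_cases ha : a ∈ I
    · exact (nseK I).mul_mem ((nseK I).mul_mem ((nseK I).inv_mem (nse_of_mem ha)) hs)
        ((nseK I).inv_mem ((nseK I).inv_mem (nse_of_mem ha)))
    · exact nse_conj_fsub ((fsub _).inv_mem (of_mem_fsub (Finset.mem_compl.2 ha))) hs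
  | mul x y hx hy =>
    intro s hs
    have : x * y * s * (x * y)⁻¹ = x * (y * s * y⁻¹) * x⁻¹ := by group
    rw [this]
    exact hx _ (hy s hs)

theorem nse_ret {I : Finset (Fin n)} (u : FreeGroup (Fin n)) : u * (ret Iᶜ u)⁻¹ ∈ nseK I := by
  have hof : ∀ a : Fin n, FreeGroup.of a * (ret Iᶜ (FreeGroup.of a))⁻¹ ∈ nseK I := by
    intro a
    by_cases ha : a ∈ I
    · have h1 : ret Iᶜ (FreeGroup.of a) = 1 := by simp [ret, ha]
      rw [h1, inv_one, mul_one]
      exact nse_of_mem ha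
    · rw [ret_eq (of_mem_fsub (Finset.mem_compl.2 ha)), mul_inv_cancel]
      exact (nseK I).one_mem
  induction u using FreeGroup.induction_on with
  | C1 => rw [map_one, inv_one, mul_one]; exact (nseK I).one_mem
  | of a => exact hof a
  | inv_of a _ =>
    have h := nse_conj (FreeGroup.of a)⁻¹ _ ((nseK I).inv_mem (hof a))
    have h2 : (FreeGroup.of a)⁻¹ * (FreeGroup.of a * (ret Iᶜ (FreeGroup.of a))⁻¹)⁻¹ *
        ((FreeGroup.of a)⁻¹)⁻¹ = (FreeGroup.of a)⁻¹ * (ret Iᶜ (FreeGroup.of a)⁻¹)⁻¹ := by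
      rw [map_inv]; group
    rw [h2] at h
    exact h
  | mul x y hx hy =>
    have h2 : x * y * (ret Iᶜ (x * y))⁻¹ =
        x * (y * (ret Iᶜ y)⁻¹) * x⁻¹ * (x * (ret Iᶜ x)⁻¹) := by
      rw [map_mul]; group
    rw [h2]
    exact (nseK I).mul_mem (nse_conj x _ hy) hx

theorem nse_L_kill (c : Fin n) (w : FreeGroup (Fin n)) : L c (kill c w) = L c w := by
  apply aut_ext
  intro x
  by_cases hx : x = c
  · subst hx; rw [L_of_self, L_of_self, kill_kill]
  · rw [L_of_ne hx, L_of_ne hx]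

theorem nse_R_kill (c : Fin n) (w : FreeGroup (Fin n)) : R c (kill c w) = R c w := by
  apply aut_ext
  intro x
  by_cases hx : x = c
  · subst hx; rw [R_of_self, R_of_self, kill_kill]
  · rw [R_of_ne hx, R_of_ne hx]

theorem nse_kill_self (b : Fin n) (w : FreeGroup (Fin n)) :
    kill b (w * FreeGroup.of b * w⁻¹) = 1 := by
  simp only [map_mul, map_inv, kill_of_self, mul_one, mul_inv_cancel]

theorem nse_kill_e {I : Finset (Fin n)} {b e : Fin n} {w : FreeGroup (Fin n)} (hw : w ∈ fsub Iᶜ)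
    (he : e ∈ I) (heb : e ≠ b) :
    kill e (w * FreeGroup.of b * w⁻¹) = w * FreeGroup.of b * w⁻¹ := by
  have hke : kill e w = w := kill_eq hw (by simpa using he)
  simp only [map_mul, map_inv, kill_of_ne (Ne.symm heb), hke]

theorem nse_ev {gb : Fin n → K} {b c : Fin n} (hb : gb b = 1) (hbc : b ≠ c)
    (w : FreeGroup (Fin n)) : ev gb (kill c (w * FreeGroup.of b * w⁻¹)) = 1 := by
  simp only [map_mul, map_inv, kill_of_ne hbc, ev_of, hb, mul_one, mul_inv_cancel]

section

variable {I : Finset (Fin n)} {gb : Fin n → K}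

theorem nse_L_mem (h1 : ∀ i ∈ I, gb i = 1) (c : Fin n) {k : FreeGroup (Fin n)}
    (hk : k ∈ nseK I) : L c k ∈ Subgroup.closure {s | Good I gb s} := by
  unfold nseK at hk
  induction hk using Subgroup.closure_induction with
  | mem x hx =>
    obtain ⟨w, hw, b, hb, rfl⟩ := hx
    by_cases hbc : b = c
    · subst hbc
      have h2 : L b (w * FreeGroup.of b * w⁻¹) = 1 := by
        rw [← nse_L_kill, nse_kill_self, map_one]
      rw [h2]
      exact Subgroup.one_mem _
    · refine Subgroup.subset_closure ⟨?_, c, b, L_mem_Mv c _, ?_⟩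
      · rw [L_mem_Gam_iff]
        exact nse_ev (h1 b hb) hbc w
      · intro e he heb hec
        refine Mv_pres hec (L_mem_Mv c _) ?_
        rw [L_of_self, map_mul, kill_of_ne (Ne.symm hec), map_inv, kill_comm e c,
          nse_kill_e hw he heb]
  | one => rw [map_one]; exact Subgroup.one_mem _
  | mul x y _ _ hx hy => rw [map_mul]; exact Subgroup.mul_mem _ hx hy
  | inv x _ hx => rw [map_inv]; exact Subgroup.inv_mem _ hx

theorem nse_R_mem (h1 : ∀ i ∈ I, gb i = 1) (c : Fin n) {k : FreeGroup (Fin n)}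
    (hk : k ∈ nseK I) : R c k ∈ Subgroup.closure {s | Good I gb s} := by
  unfold nseK at hk
  induction hk using Subgroup.closure_induction with
  | mem x hx =>
    obtain ⟨w, hw, b, hb, rfl⟩ := hx
    by_cases hbc : b = c
    · subst hbc
      have h2 : R b (w * FreeGroup.of b * w⁻¹) = 1 := by
        rw [← nse_R_kill, nse_kill_self, map_one]
      rw [h2]
      exact Subgroup.one_mem _
    · refine Subgroup.subset_closure ⟨?_, c, b, R_mem_Mv c _, ?_⟩
      · rw [R_mem_Gam_iff]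
        exact nse_ev (h1 b hb) hbc w
      · intro e he heb hec
        refine Mv_pres hec (R_mem_Mv c _) ?_
        rw [R_of_self, map_mul, kill_of_ne (Ne.symm hec), kill_comm e c, nse_kill_e hw he heb]
  | one => rw [map_one]; exact Subgroup.one_mem _
  | mul x y _ _ hx hy => rw [map_mul]; exact Subgroup.mul_mem _ hx hy
  | inv x _ hx => rw [map_inv]; exact Subgroup.inv_mem _ hx

theorem nse_good_le : Subgroup.closure {s | Good I gb s} ≤ Gam gb := by
  rw [Subgroup.closure_le]
  exact fun s hs => hs.1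

end

/-- one-letter moves are products of good ones -/
theorem NN_le_good {I : Finset (Fin n)} {gb : Fin n → K} (hI : I.Nonempty)
    (h1 : ∀ i ∈ I, gb i = 1) : NN gb ≤ Subgroup.closure {s | Good I gb s} := by
  unfold NN
  rw [Subgroup.closure_le]
  rintro φ ⟨hφG, c, hφc⟩
  have hpres : ∀ (u v : FreeGroup (Fin n)) (e : Fin n), u ∈ fsub Iᶜ → v ∈ fsub Iᶜ → e ∈ I →
      e ≠ c → kill e ((L c u * R c v) (FreeGroup.of c)) = (L c u * R c v) (FreeGroup.of c) := by
    intro u v e hu hv he hec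
    have hku : kill e u = u := kill_eq hu (by simpa using he)
    have hkv : kill e v = v := kill_eq hv (by simpa using he)
    rw [MulAut.mul_apply, R_of_self, map_mul, L_kill, L_of_self, map_mul, map_mul, map_inv,
      kill_of_ne (Ne.symm hec), kill_comm e c, kill_comm e c, hku, hkv]
  obtain ⟨u, v, h | h⟩ := mem_Mv_iff.1 hφc
  · set k1 := u * (ret Iᶜ u)⁻¹ with hk1
    set k2 := v * (ret Iᶜ v)⁻¹ with hk2
    have h2 : φ = L c k1 * R c k2 * (L c (ret Iᶜ u) * R c (ret Iᶜ v)) := by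
      rw [LR_mul, h, hk1, hk2, inv_mul_cancel_right, inv_mul_cancel_right]
    have hL := nse_L_mem (gb := gb) h1 c (nse_ret (I := I) u)
    have hR := nse_R_mem (gb := gb) h1 c (nse_ret (I := I) v)
    have hrest : L c (ret Iᶜ u) * R c (ret Iᶜ v) ∈ Gam gb := by
      have h3 : L c (ret Iᶜ u) * R c (ret Iᶜ v) = (L c k1 * R c k2)⁻¹ * φ := by
        rw [h2]; group
      rw [h3]
      exact (Gam gb).mul_mem ((Gam gb).inv_mem (nse_good_le (Subgroup.mul_mem _ hL hR))) hφG
    rw [SetLike.mem_coe, h2]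
    refine Subgroup.mul_mem _ (Subgroup.mul_mem _ hL hR) (Subgroup.subset_closure
      ⟨hrest, c, c, mem_Mv_iff.2 ⟨_, _, Or.inl rfl⟩, ?_⟩)
    intro e he _ hec
    exact Mv_pres hec (mem_Mv_iff.2 ⟨_, _, Or.inl rfl⟩)
      (hpres _ _ e (ret_mem _ _) (ret_mem _ _) he hec)
  · set k1 := u * (ret Iᶜ u)⁻¹ with hk1
    set k2 := v * (ret Iᶜ v)⁻¹ with hk2
    have h2 : φ = L c k1 * R c k2 * (L c (ret Iᶜ u) * R c (ret Iᶜ v) * sg c) := by
      rw [← mul_assoc, LR_mul, h, hk1, hk2, inv_mul_cancel_right, inv_mul_cancel_right]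
    have hL := nse_L_mem (gb := gb) h1 c (nse_ret (I := I) u)
    have hR := nse_R_mem (gb := gb) h1 c (nse_ret (I := I) v)
    have hrest : L c (ret Iᶜ u) * R c (ret Iᶜ v) * sg c ∈ Gam gb := by
      have h3 : L c (ret Iᶜ u) * R c (ret Iᶜ v) * sg c = (L c k1 * R c k2)⁻¹ * φ := by
        rw [h2]; group
      rw [h3]
      exact (Gam gb).mul_mem ((Gam gb).inv_mem (nse_good_le (Subgroup.mul_mem _ hL hR))) hφG
    rw [SetLike.mem_coe, h2]
    refine Subgroup.mul_mem _ (Subgroup.mul_mem _ hL hR) (Subgroup.subset_closure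
      ⟨hrest, c, c, mem_Mv_iff.2 ⟨_, _, Or.inr rfl⟩, ?_⟩)
    intro e he _ hec
    refine Mv_pres hec (mem_Mv_iff.2 ⟨_, _, Or.inr rfl⟩) ?_
    rw [MulAut.mul_apply, sg_of_self, map_inv, map_inv,
      hpres _ _ e (ret_mem _ _) (ret_mem _ _) he hec]

end Sol

end RED
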