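import Mathlib
import Pool.Agent.RED4.Final6
import Pool.Agent.RED.GamIdx
import Pool.Agent.IAQ.Inf

/-!
# The final statement in terms of the ambient data
-/

set_option autoImplicit false

namespace RED

theorem rb_quot6 {G : Type*} [Group G] (R : Subgroup G) [R.Normal] {r : ℕ} (h : RB G r) :
    RB (G ⧸ R) r := by
  classical
  obtain ⟨S, hS, hc⟩ := h
  refine ⟨S.image (QuotientGroup.mk' R), (Finset.card_image_le).trans hS, ?_⟩
  rw [Finset.coe_image, ← MonoidHom.map_closure, hc]
  exact Subgroup.map_top_of_surjective _ (QuotientGroup.mk'_surjective R)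

theorem rb_min6 {G : Type*} [Group G] {a b : ℕ} (h : RB G a) (h' : RB G b) :
    RB G (min a b) := by
  rcases le_total a b with h1 | h1
  · rwa [min_eq_left h1]
  · rwa [min_eq_right h1]

theorem final_rad' {n m r s d : ℕ} {G : Type*} [Group G] [Finite G] (R : Subgroup G)
    [R.Normal] (hR : Group.IsSolvable R) (hr : RB G r) (hs : RB (G ⧸ R) s)
    (hd : MB (G ⧸ R) d) (g : Fin n → G) (hg : Function.Surjective (ev g))
    (Hin : Subgroup (MulAut (FreeGroup (Fin n))))
    (ρ : Hin →* Matrix.GeneralLinearGroup (Fin m) ℤ)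
    (hn : r + 5 ≤ n) (hn2 : 4 * s + 2 * d + 5 ≤ n) (hf : Hin.FiniteIndex) (hm : m + 2 ≤ n)
    (hm2 : m ≤ 2 ^ (n - 2 - r) + 1) (hΓ : Gam g ≤ Hin) : Finite ρ.range :=
  final_rad (s := min s r) R hR hr (rb_min6 hs (rb_quot6 R hr)) hd (min_le_right _ _) g hg
    Hin ρ hn (by have := min_le_left s r; omega) hf hm hm2 hΓ

end RED
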