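import Mathlib

/-!
# A section theorem
-/

set_option autoImplicit false

namespace RED

namespace Sol

/-- moves over the tuples with a letter of `I` different from `one` -/
structure CovB {n : ℕ} {X E : Type*} (I : Finset (Fin n)) (one : X) (p : E → Fin n → X)
    (T : Fin n → X → E → E) : Prop where
  pT : ∀ (e : Fin n) (y : X) (x : E), (∃ i ∈ I, i ≠ e ∧ p x i ≠ one) →
    p (T e y x) = Function.update (p x) e y
  self : ∀ (e : Fin n) (x : E), (∃ i ∈ I, i ≠ e ∧ p x i ≠ one) → T e (p x e) x = x
  tri : ∀ (e : Fin n) (y z : X) (x : E), (∃ i ∈ I, i ≠ e ∧ p x i ≠ one) →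
    T e z (T e y x) = T e z x
  sq : ∀ (e e' : Fin n) (y z : X) (x : E), e ≠ e' →
    (∃ i ∈ I, i ≠ e ∧ i ≠ e' ∧ p x i ≠ one) → T e' z (T e y x) = T e y (T e' z x)

section SecBAux

variable {n : ℕ} {X E : Type*} {I : Finset (Fin n)} {one v : X} {p : E → Fin n → X}
  {T : Fin n → X → E → E}

theorem secB_half (hC : CovB I one p T) {e e' c : Fin n} (hne : e ≠ e') (hce : c ≠ e)
    (hce' : c ≠ e') (heI : e ∈ I) (heI' : e' ∈ I) {x : E} {y z : X} (he' : p x e' ≠ one)
    (hy : y ≠ one) :
    T e' z (T e y x) = T c (p x c) (T e' z (T e y (T c v x))) := by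
  have hc1 : ∃ i ∈ I, i ≠ c ∧ p x i ≠ one := ⟨e', heI', hce'.symm, he'⟩
  have hx : T c (p x c) (T c v x) = x := by rw [hC.tri c v _ x hc1, hC.self c x hc1]
  have hp : p (T c v x) = Function.update (p x) c v := hC.pT c v x hc1
  have hpe' : p (T c v x) e' ≠ one := by
    rw [hp, Function.update_of_ne hce'.symm]; exact he'
  have h1 : T e y x = T c (p x c) (T e y (T c v x)) := by
    conv_lhs => rw [← hx]
    exact hC.sq c e (p x c) y (T c v x) hce ⟨e', heI', hce'.symm, hne.symm, hpe'⟩
  rw [h1]
  refine hC.sq c e' (p x c) z (T e y (T c v x)) hce' ⟨e, heI, hce.symm, hne, ?_⟩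
  rw [hC.pT e y (T c v x) ⟨e', heI', hne.symm, hpe'⟩, Function.update_self]
  exact hy

theorem secB_sq (hI : 3 ≤ I.card) (hv : v ≠ one) (hC : CovB I one p T) {e e' : Fin n} {x : E}
    {y z : X} (hne : e ≠ e') (h1 : ∃ i ∈ I, i ≠ e ∧ p x i ≠ one)
    (h2 : ∃ i ∈ I, i ≠ e' ∧ p x i ≠ one)
    (h3 : ∃ i ∈ I, i ≠ e' ∧ Function.update (p x) e y i ≠ one)
    (h4 : ∃ i ∈ I, i ≠ e ∧ Function.update (p x) e' z i ≠ one) :
    T e' z (T e y x) = T e y (T e' z x) := by
  by_cases hcl : ∃ i ∈ I, i ≠ e ∧ i ≠ e' ∧ p x i ≠ one
  · exact hC.sq e e' y z x hne hcl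
  · have hcl' : ∀ i ∈ I, i ≠ e → i ≠ e' → p x i = one := by
      intro i hi hi1 hi2
      by_contra hh
      exact hcl ⟨i, hi, hi1, hi2, hh⟩
    obtain ⟨i1, hi1, hi1e, hi1p⟩ := h1
    obtain ⟨i2, hi2, hi2e, hi2p⟩ := h2
    obtain ⟨i3, hi3, hi3e, hi3p⟩ := h3
    obtain ⟨i4, hi4, hi4e, hi4p⟩ := h4
    have e1 : i1 = e' := by
      by_contra hh
      exact hi1p (hcl' i1 hi1 hi1e hh)
    have e2 : i2 = e := by
      by_contra hh
      exact hi2p (hcl' i2 hi2 hh hi2e)
    have e3 : i3 = e := by
      by_contra hh
      rw [Function.update_of_ne hh] at hi3p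
      exact hi3p (hcl' i3 hi3 hh hi3e)
    have e4 : i4 = e' := by
      by_contra hh
      rw [Function.update_of_ne hh] at hi4p
      exact hi4p (hcl' i4 hi4 hi4e hh)
    subst e1
    subst e2
    have hy : y ≠ one := by
      rw [e3, Function.update_self] at hi3p
      exact hi3p
    have hz : z ≠ one := by
      rw [e4, Function.update_self] at hi4p
      exact hi4p
    obtain ⟨c, hc, hcn⟩ : ∃ c ∈ I, c ∉ ({i2, i1} : Finset (Fin n)) := by
      by_contra hh
      push Not at hh
      have hsub : I ⊆ ({i2, i1} : Finset (Fin n)) := fun c hc => hh c hc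
      have := Finset.card_le_card hsub
      have h2' : ({i2, i1} : Finset (Fin n)).card ≤ 2 := Finset.card_le_two
      omega
    have hc2 : c ≠ i2 := by
      rintro rfl
      exact hcn (by simp)
    have hc1 : c ≠ i1 := by
      rintro rfl
      exact hcn (by simp)
    rw [secB_half (v := v) hC hne hc2 hc1 hi2 hi1 hi1p hy,
      secB_half (v := v) hC hne.symm hc1 hc2 hi1 hi2 hi2p hz]
    have hp : p (T c v x) = Function.update (p x) c v := hC.pT c v x ⟨i1, hi1, hc1.symm, hi1p⟩
    rw [hC.sq i2 i1 y z (T c v x) hne ⟨c, hc, hc2, hc1, by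
      rw [hp, Function.update_self]; exact hv⟩]

/-- the letters of the list are changed, one after the other -/
def secBfold (T : Fin n → X → E → E) (h : Fin n → X) : List (Fin n) → E → E
  | [], x => x
  | a :: l, x => T a (h a) (secBfold T h l x)

theorem secB_p_fold (hv : v ≠ one) (hC : CovB I one p T) {o : Fin n} (ho : o ∈ I)
    (h : Fin n → X) (x : E) (hx : p x o = v) :
    ∀ l : List (Fin n), o ∉ l →
      p (secBfold T h l x) o = v ∧ ∀ i, p (secBfold T h l x) i = if i ∈ l then h i else p x i := by
  intro l
  induction l with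
  | nil => exact fun _ => ⟨hx, fun i => by simp [secBfold]⟩
  | cons a l ih =>
    intro hl
    have hoa : o ≠ a := by
      rintro rfl
      exact hl (List.mem_cons_self ..)
    obtain ⟨h1, h2⟩ := ih fun hb => hl (List.mem_cons_of_mem _ hb)
    have h3 : p (secBfold T h (a :: l) x) = Function.update (p (secBfold T h l x)) a (h a) :=
      hC.pT a (h a) _ ⟨o, ho, hoa, by rw [h1]; exact hv⟩
    constructor
    · rw [h3, Function.update_of_ne hoa, h1]
    · intro i
      rw [h3]
      by_cases hia : i = a
      · subst hia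
        simp
      · rw [Function.update_of_ne hia, h2 i]
        simp [hia]

theorem secB_fold_congr (T : Fin n → X → E → E) (h h' : Fin n → X) (x : E) :
    ∀ l : List (Fin n), (∀ a ∈ l, h a = h' a) → secBfold T h l x = secBfold T h' l x := by
  intro l
  induction l with
  | nil => exact fun _ => rfl
  | cons a l ih =>
    intro hl
    rw [secBfold, secBfold, hl a (List.mem_cons_self ..),
      ih fun b hb => hl b (List.mem_cons_of_mem _ hb)]

theorem secB_fold_edge (hv : v ≠ one) (hC : CovB I one p T) {o : Fin n} (ho : o ∈ I)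
    (h : Fin n → X) (x : E) (hx : p x o = v) {e : Fin n} (he : e ≠ o) (y : X) :
    ∀ l : List (Fin n), l.Nodup → o ∉ l → e ∈ l →
      secBfold T (Function.update h e y) l x = T e y (secBfold T h l x) := by
  intro l
  induction l with
  | nil => intro _ _ hel; simp at hel
  | cons a l ih =>
    intro hnd hl hel
    obtain ⟨hal, hnd'⟩ := List.nodup_cons.mp hnd
    have hoa : o ≠ a := by
      rintro rfl
      exact hl (List.mem_cons_self ..)
    have hl' : o ∉ l := fun hb => hl (List.mem_cons_of_mem _ hb)
    obtain ⟨h1, -⟩ := secB_p_fold hv hC ho h x hx l hl'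
    by_cases hea : e = a
    · subst hea
      rw [secBfold, secBfold, Function.update_self,
        secB_fold_congr T (Function.update h e y) h x l fun b hb =>
          Function.update_of_ne (by rintro rfl; exact hal hb) _ _,
        hC.tri e (h e) y _ ⟨o, ho, he.symm, by rw [h1]; exact hv⟩]
    · have hel' : e ∈ l := by
        rcases List.mem_cons.mp hel with hh | hh
        · exact absurd hh hea
        · exact hh
      rw [secBfold, secBfold, Function.update_of_ne (fun hh => hea hh.symm), ih hnd' hl' hel']
      exact hC.sq e a y (h a) _ hea ⟨o, ho, he.symm, hoa, by rw [h1]; exact hv⟩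

theorem secB_fold_self (hv : v ≠ one) (hC : CovB I one p T) {o : Fin n} (ho : o ∈ I)
    (x : E) (hx : p x o = v) :
    ∀ l : List (Fin n), o ∉ l → secBfold T (p x) l x = x := by
  intro l
  induction l with
  | nil => exact fun _ => rfl
  | cons a l ih =>
    intro hl
    have hoa : o ≠ a := by
      rintro rfl
      exact hl (List.mem_cons_self ..)
    rw [secBfold, ih fun hb => hl (List.mem_cons_of_mem _ hb)]
    exact hC.self a x ⟨o, ho, hoa, by rw [hx]; exact hv⟩

end SecBAux

theorem secB {n : ℕ} {X E : Type*} {I : Finset (Fin n)} {one v : X} {p : E → Fin n → X}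
    {T : Fin n → X → E → E} (hI : 3 ≤ I.card) (hv : v ≠ one) (hC : CovB I one p T) (x0 : E)
    (h0 : ∃ i ∈ I, p x0 i ≠ one) :
    ∃ s : (Fin n → X) → E, s (p x0) = x0 ∧
      (∀ h, (∃ i ∈ I, h i ≠ one) → p (s h) = h) ∧
      ∀ (h : Fin n → X) (e : Fin n) (y : X), (∃ i ∈ I, i ≠ e ∧ h i ≠ one) →
        s (Function.update h e y) = T e y (s h) := by
  classical
  obtain ⟨i0, hi0, hi0p⟩ := h0
  obtain ⟨o, hoI, hoi0⟩ : ∃ o ∈ I, o ≠ i0 := by
    by_contra hh
    push Not at hh
    have hsub : I ⊆ ({i0} : Finset (Fin n)) := fun c hc => by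
      rw [Finset.mem_singleton]; exact hh c hc
    have := Finset.card_le_card hsub
    simp only [Finset.card_singleton] at this
    omega
  obtain ⟨a0, ha0I, ha0o⟩ : ∃ a ∈ I, a ≠ o := ⟨i0, hi0, hoi0.symm⟩
  have hlo : ∃ i ∈ I, i ≠ o ∧ p x0 i ≠ one := ⟨i0, hi0, hoi0.symm, hi0p⟩
  obtain ⟨x1, hx1⟩ : ∃ x1, x1 = T o v x0 := ⟨_, rfl⟩
  have hpx1 : p x1 = Function.update (p x0) o v := by rw [hx1]; exact hC.pT o v x0 hlo
  have hx1o : p x1 o = v := by rw [hpx1, Function.update_self]
  obtain ⟨L, hL⟩ : ∃ L, L = ((Finset.univ : Finset (Fin n)).erase o).toList := ⟨_, rfl⟩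
  have hLmem : ∀ a, a ∈ L ↔ a ≠ o := by
    intro a
    rw [hL, Finset.mem_toList, Finset.mem_erase]
    simp
  have hLo : o ∉ L := fun hh => (hLmem o).1 hh rfl
  have hLnd : L.Nodup := by rw [hL]; exact Finset.nodup_toList _
  obtain ⟨s0, hs0⟩ : ∃ s0 : (Fin n → X) → E, s0 = fun h => secBfold T h L x1 := ⟨_, rfl⟩
  have ps0 : ∀ h, p (s0 h) = Function.update h o v := by
    intro h
    obtain ⟨h1, h2⟩ := secB_p_fold hv hC hoI h x1 hx1o L hLo
    funext i
    rw [hs0]
    by_cases hi : i = o
    · subst hi
      rw [Function.update_self]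
      exact h1
    · rw [Function.update_of_ne hi]
      have := h2 i
      rw [if_pos ((hLmem i).2 hi)] at this
      exact this
  have s0edge : ∀ (h : Fin n → X) (e : Fin n) (y : X), e ≠ o →
      s0 (Function.update h e y) = T e y (s0 h) := by
    intro h e y he
    rw [hs0]
    exact secB_fold_edge hv hC hoI h x1 hx1o he y L hLnd hLo ((hLmem e).2 he)
  have s0o : ∀ (h : Fin n → X) (y : X), s0 (Function.update h o y) = s0 h := by
    intro h y
    rw [hs0]
    exact secB_fold_congr T _ _ x1 L fun a ha => Function.update_of_ne ((hLmem a).1 ha) _ _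
  have s0x : s0 (p x0) = x1 := by
    have h1 : s0 (p x1) = x1 := by
      rw [hs0]
      exact secB_fold_self hv hC hoI x1 hx1o L hLo
    rw [hpx1, s0o] at h1
    exact h1
  -- the layer with a letter of `I` other than `o`
  obtain ⟨sr, hsr⟩ : ∃ sr : (Fin n → X) → E, sr = fun h => T o (h o) (s0 h) := ⟨_, rfl⟩
  have leg0 : ∀ h : Fin n → X, (∃ i ∈ I, i ≠ o ∧ h i ≠ one) →
      ∃ i ∈ I, i ≠ o ∧ p (s0 h) i ≠ one := by
    rintro h ⟨i, hi, hio, hh⟩
    exact ⟨i, hi, hio, by rw [ps0, Function.update_of_ne hio]; exact hh⟩
  have psr : ∀ h : Fin n → X, (∃ i ∈ I, i ≠ o ∧ h i ≠ one) → p (sr h) = h := by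
    intro h hh
    rw [hsr]
    show p (T o (h o) (s0 h)) = h
    rw [hC.pT o (h o) (s0 h) (leg0 h hh), ps0]
    simp
  have sredge : ∀ (h : Fin n → X) (e : Fin n) (y : X), e ≠ o → (∃ i ∈ I, i ≠ o ∧ h i ≠ one) →
      (∃ i ∈ I, i ≠ o ∧ Function.update h e y i ≠ one) → (∃ i ∈ I, i ≠ e ∧ h i ≠ one) →
      sr (Function.update h e y) = T e y (sr h) := by
    intro h e y heo hR hR2 hle
    rw [hsr]
    show T o (Function.update h e y o) (s0 (Function.update h e y)) = T e y (T o (h o) (s0 h))
    rw [Function.update_of_ne heo.symm, s0edge h e y heo]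
    refine secB_sq hI hv hC heo ?_ (leg0 h hR) ?_ ?_
    · exact ⟨o, hoI, heo.symm, by rw [ps0, Function.update_self]; exact hv⟩
    · obtain ⟨i, hi, hio, hh⟩ := hR2
      refine ⟨i, hi, hio, ?_⟩
      rw [ps0]
      by_cases hie : i = e
      · subst hie
        rw [Function.update_self] at hh ⊢
        exact hh
      · rw [Function.update_of_ne hie] at hh ⊢
        rw [Function.update_of_ne hio]
        exact hh
    · obtain ⟨i, hi, hie, hh⟩ := hle
      refine ⟨i, hi, hie, ?_⟩
      rw [ps0]
      simpa using hh
  -- the remaining tuples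
  have indep : ∀ (h : Fin n → X) (a a' : Fin n), a ∈ I → a' ∈ I → a ≠ o → a' ≠ o →
      (¬ ∃ i ∈ I, i ≠ o ∧ h i ≠ one) → h o ≠ one →
      T a one (sr (Function.update h a v)) = T a' one (sr (Function.update h a' v)) := by
    intro h a a' ha ha' hao ha'o hnR ho1
    by_cases haa : a = a'
    · rw [haa]
    · have hone : ∀ i ∈ I, i ≠ o → h i = one := by
        intro i hi hio
        by_contra hh
        exact hnR ⟨i, hi, hio, hh⟩
      obtain ⟨k, hk⟩ : ∃ k, k = Function.update (Function.update h a v) a' v := ⟨_, rfl⟩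
      have hk' : k = Function.update (Function.update h a' v) a v := by
        rw [hk, Function.update_comm haa]
      have hka : k a = v := by rw [hk', Function.update_self]
      have hka' : k a' = v := by rw [hk, Function.update_self]
      have hko : k o = h o := by
        rw [hk, Function.update_of_ne ha'o.symm, Function.update_of_ne hao.symm]
      have hkR : ∃ i ∈ I, i ≠ o ∧ k i ≠ one := ⟨a, ha, hao, by rw [hka]; exact hv⟩
      have e1 : Function.update k a' one = Function.update h a v := by
        rw [hk, Function.update_idem]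
        have : Function.update h a v a' = one := by
          rw [Function.update_of_ne (fun hh => haa hh.symm)]; exact hone a' ha' ha'o
        conv_rhs => rw [← Function.update_eq_self a' (Function.update h a v)]
        rw [this]
      have e2 : Function.update k a one = Function.update h a' v := by
        rw [hk', Function.update_idem]
        have : Function.update h a' v a = one := by
          rw [Function.update_of_ne haa]; exact hone a ha hao
        conv_rhs => rw [← Function.update_eq_self a (Function.update h a' v)]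
        rw [this]
      have r1 : sr (Function.update h a v) = T a' one (sr k) := by
        rw [← e1]
        refine sredge k a' one ha'o hkR ?_ ⟨o, hoI, ha'o.symm, by rw [hko]; exact ho1⟩
        exact ⟨a, ha, hao, by rw [Function.update_of_ne haa, hka]; exact hv⟩
      have r2 : sr (Function.update h a' v) = T a one (sr k) := by
        rw [← e2]
        refine sredge k a one hao hkR ?_ ⟨o, hoI, hao.symm, by rw [hko]; exact ho1⟩
        exact ⟨a', ha', ha'o, by rw [Function.update_of_ne (fun hh => haa hh.symm), hka']; exact hv⟩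
      rw [r1, r2]
      refine (hC.sq a a' one one (sr k) haa ⟨o, hoI, hao.symm, ha'o.symm, ?_⟩).symm
      rw [psr k hkR, hko]
      exact ho1
  obtain ⟨s, hs⟩ : ∃ s : (Fin n → X) → E, s = fun h =>
      if ∃ i ∈ I, i ≠ o ∧ h i ≠ one then sr h else T a0 one (sr (Function.update h a0 v)) :=
    ⟨_, rfl⟩
  have sR : ∀ h : Fin n → X, (∃ i ∈ I, i ≠ o ∧ h i ≠ one) → s h = sr h := by
    intro h hh
    rw [hs]
    exact if_pos hh
  have snR : ∀ h : Fin n → X, (¬ ∃ i ∈ I, i ≠ o ∧ h i ≠ one) → h o ≠ one → ∀ a ∈ I, a ≠ o →
      s h = T a one (sr (Function.update h a v)) := by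
    intro h hh ho1 a ha hao
    rw [hs]
    show (if ∃ i ∈ I, i ≠ o ∧ h i ≠ one then sr h
      else T a0 one (sr (Function.update h a0 v))) = _
    rw [if_neg hh]
    exact indep h a0 a ha0I ha ha0o hao hh ho1
  have Rupd : ∀ (h : Fin n → X) (a : Fin n), a ∈ I → a ≠ o →
      ∃ i ∈ I, i ≠ o ∧ Function.update h a v i ≠ one := by
    intro h a ha hao
    exact ⟨a, ha, hao, by rw [Function.update_self]; exact hv⟩
  have ps : ∀ h : Fin n → X, (∃ i ∈ I, h i ≠ one) → p (s h) = h := by
    rintro h ⟨i, hi, hh⟩
    by_cases hR : ∃ i ∈ I, i ≠ o ∧ h i ≠ one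
    · rw [sR h hR, psr h hR]
    · have hone : ∀ i ∈ I, i ≠ o → h i = one := by
        intro i hi hio
        by_contra hh
        exact hR ⟨i, hi, hio, hh⟩
      have hio : i = o := by
        by_contra hio
        exact hh (hone i hi hio)
      subst hio
      rw [snR h hR hh a0 ha0I ha0o]
      rw [hC.pT a0 one _ ⟨i, hoI, ha0o.symm, by
        rw [psr _ (Rupd h a0 ha0I ha0o), Function.update_of_ne ha0o.symm]; exact hh⟩,
        psr _ (Rupd h a0 ha0I ha0o), Function.update_idem]
      conv_lhs => rw [← hone a0 ha0I ha0o]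
      exact Function.update_eq_self a0 h
  refine ⟨s, ?_, ps, ?_⟩
  · rw [sR _ hlo, hsr]
    show T o (p x0 o) (s0 (p x0)) = x0
    rw [s0x, hx1, hC.tri o v _ x0 hlo, hC.self o x0 hlo]
  · intro h e y hle
    by_cases heo : e = o
    · subst heo
      have hR2 : ∃ i ∈ I, i ≠ e ∧ Function.update h e y i ≠ one := by
        obtain ⟨i, hi, hie, hh⟩ := hle
        exact ⟨i, hi, hie, by rw [Function.update_of_ne hie]; exact hh⟩
      rw [sR h hle, sR _ hR2, hsr]
      show T e (Function.update h e y e) (s0 (Function.update h e y)) = T e y (T e (h e) (s0 h))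
      rw [Function.update_self, s0o, hC.tri e (h e) y (s0 h) (leg0 h hle)]
    · by_cases hR : ∃ i ∈ I, i ≠ o ∧ h i ≠ one
      · by_cases hR2 : ∃ i ∈ I, i ≠ o ∧ Function.update h e y i ≠ one
        · rw [sR h hR, sR _ hR2]
          exact sredge h e y heo hR hR2 hle
        · have hone : ∀ i ∈ I, i ≠ o → Function.update h e y i = one := by
            intro i hi hio
            by_contra hh
            exact hR2 ⟨i, hi, hio, hh⟩
          obtain ⟨i1, hi1, hi1o, hi1p⟩ := hR
          have hi1e : i1 = e := by
            by_contra hh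
            have := hone i1 hi1 hi1o
            rw [Function.update_of_ne hh] at this
            exact hi1p this
          subst hi1e
          have hy : y = one := by
            have := hone i1 hi1 hi1o
            rw [Function.update_self] at this
            exact this
          have ho1 : h o ≠ one := by
            obtain ⟨i, hi, hie, hh⟩ := hle
            by_cases hio : i = o
            · rw [← hio]; exact hh
            · exfalso
              have := hone i hi hio
              rw [Function.update_of_ne hie] at this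
              exact hh this
          have ho2 : Function.update h i1 y o ≠ one := by
            rw [Function.update_of_ne (fun hh => heo hh.symm)]; exact ho1
          have hR : ∃ i ∈ I, i ≠ o ∧ h i ≠ one := ⟨i1, hi1, hi1o, hi1p⟩
          rw [snR _ hR2 ho2 i1 hi1 hi1o, Function.update_idem, sR h hR,
            sredge h i1 v heo hR (Rupd h i1 hi1 hi1o) hle,
            hC.tri i1 v one _ (by rw [psr h hR]; exact hle), hy]
      · have hone : ∀ i ∈ I, i ≠ o → h i = one := by
          intro i hi hio
          by_contra hh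
          exact hR ⟨i, hi, hio, hh⟩
        have ho1 : h o ≠ one := by
          obtain ⟨i, hi, hie, hh⟩ := hle
          by_cases hio : i = o
          · rw [← hio]; exact hh
          · exact absurd (hone i hi hio) hh
        by_cases hR2 : ∃ i ∈ I, i ≠ o ∧ Function.update h e y i ≠ one
        · obtain ⟨i1, hi1, hi1o, hi1p⟩ := hR2
          have hi1e : i1 = e := by
            by_contra hh
            rw [Function.update_of_ne hh] at hi1p
            exact hi1p (hone i1 hi1 hi1o)
          subst hi1e
          have hR2 : ∃ i ∈ I, i ≠ o ∧ Function.update h i1 y i ≠ one := ⟨i1, hi1, hi1o, hi1p⟩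
          have hleg : ∃ i ∈ I, i ≠ i1 ∧ Function.update h i1 v i ≠ one :=
            ⟨o, hoI, fun hh => heo hh.symm, by
              rw [Function.update_of_ne (fun hh => heo hh.symm)]; exact ho1⟩
          rw [sR _ hR2, snR h hR ho1 i1 hi1 hi1o,
            hC.tri i1 one y _ (by rw [psr _ (Rupd h i1 hi1 hi1o)]; exact hleg)]
          have := sredge (Function.update h i1 v) i1 y heo (Rupd h i1 hi1 hi1o)
            (by rw [Function.update_idem]; exact hR2) hleg
          rw [Function.update_idem] at this
          exact this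
        · by_cases heI : e ∈ I
          · have hhe : h e = one := hone e heI heo
            have hy : y = one := by
              by_contra hh
              exact hR2 ⟨e, heI, heo, by rw [Function.update_self]; exact hh⟩
            have hph : p (s h) = h := ps h ⟨o, hoI, ho1⟩
            have h2 : Function.update h e y = h := by
              rw [hy]
              conv_lhs => rw [← hhe]
              exact Function.update_eq_self e h
            rw [h2]
            have := hC.self e (s h) (by rw [hph]; exact hle)
            rw [hph, hhe] at this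
            rw [hy]
            exact this.symm
          · have hae : a0 ≠ e := by
              rintro rfl
              exact heI ha0I
            have ho2 : Function.update h e y o ≠ one := by
              rw [Function.update_of_ne (fun hh => heo hh.symm)]; exact ho1
            have h3 : Function.update (Function.update h e y) a0 v =
                Function.update (Function.update h a0 v) e y := Function.update_comm hae.symm _ _ _
            have hRa : ∃ i ∈ I, i ≠ o ∧ Function.update h a0 v i ≠ one := Rupd h a0 ha0I ha0o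
            rw [snR h hR ho1 a0 ha0I ha0o, snR _ hR2 ho2 a0 ha0I ha0o, h3,
              sredge (Function.update h a0 v) e y heo hRa ⟨a0, ha0I, ha0o, by
                rw [Function.update_of_ne hae, Function.update_self]; exact hv⟩
                ⟨a0, ha0I, hae, by rw [Function.update_self]; exact hv⟩]
            refine hC.sq e a0 y one _ hae.symm ⟨o, hoI, fun hh => heo hh.symm, ha0o.symm, ?_⟩
            rw [psr _ hRa, Function.update_of_ne ha0o.symm]
            exact ho1

end Sol

end RED
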