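import Pool.Agent.RED4.U1

/-!
# The moves of the letters outside of `I`, second part
-/

set_option autoImplicit false

namespace RED

open AFn IAQ

namespace Sol

variable {n : ℕ} {G K : Type*} [Group G] [Group K]

section

variable {E : Type*} [MulAction (MulAut (FreeGroup (Fin n))) E] {f : G →* K}
  {I : Finset (Fin n)} {gb : Fin n → K} {p : E → Fin n → G} {In : E → Prop}
  {T : Fin n → G → E → E}

theorem Uc_tri (hA : FA f I gb p In) (hT : TOp f gb p In T) {x : E} (hx : In x)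
    {e e' e'' j : Fin n} (he : e ∈ I) (he' : e' ∈ I) (he'' : e'' ∈ I) (hj : j ∉ I)
    (hl : Leg I (p x) e) (hl' : Leg I (p x) e') (hl'' : Leg I (p x) e'') {y z : G}
    (hy : f y = gb j) (hz : f z = gb j) :
    Uc p T e' j z (Uc p T e j y x) = Uc p T e'' j z x := by
  obtain ⟨i, hi, -, hne⟩ := id hl
  have pick : ∀ S : Finset (Fin n), S.card ≤ 4 → ∃ a ∈ I, a ∉ S := by
    intro S hS
    exact Finset.exists_mem_notMem_of_card_lt_card (by have := hA.card; omega)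
  obtain ⟨a1, ha1, h1⟩ := pick {i} (by simp)
  obtain ⟨a2, ha2, h2⟩ := pick {i, a1} (Finset.card_le_two.trans (by norm_num))
  obtain ⟨a3, ha3, h3⟩ := pick {i, a1, a2} (Finset.card_le_three.trans (by norm_num))
  obtain ⟨a4, ha4, h4⟩ := pick {i, a1, a2, a3} Finset.card_le_four
  simp only [Finset.mem_insert, Finset.mem_singleton, not_or] at h1 h2 h3 h4
  obtain ⟨h2i, h21⟩ := h2
  obtain ⟨h3i, h31, h32⟩ := h3
  obtain ⟨h4i, h41, h42, h43⟩ := h4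
  have hIj : ∀ a ∈ I, j ≠ a := fun a ha hc => hj (hc ▸ ha)
  have hij : i ≠ j := fun hc => hj (hc ▸ hi)
  -- legal letters
  have leg : ∀ a, a ≠ i → Leg I (p x) a := fun a ha => ⟨i, hi, Ne.symm ha, hne⟩
  rw [Uc_indep hA hT hx he ha1 hj hl (leg a1 h1) hy,
    Uc_indep hA hT hx he'' ha3 hj hl'' (leg a3 h3i) hz]
  obtain ⟨hx1, hp1⟩ := Uc_in hA hT hx ha1 hj (leg a1 h1) hy
  have hleg1 : ∀ a, Leg I (p x) a → Leg I (p (Uc p T a1 j y x)) a := by
    rintro a ⟨i', hi', h5, h6⟩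
    refine ⟨i', hi', h5, ?_⟩
    rw [hp1, Function.update_of_ne (Ne.symm (hIj i' hi'))]
    exact h6
  rw [Uc_indep hA hT hx1 he' ha2 hj (hleg1 e' hl') (hleg1 a2 (leg a2 h2i)) hz]
  have hpa2 : p (Uc p T a1 j y x) a2 = p x a2 := by
    rw [hp1, Function.update_of_ne (Ne.symm (hIj a2 ha2))]
  have hpj : p (Uc p T a1 j y x) j = y := by rw [hp1, Function.update_self]
  -- good points
  obtain ⟨Ok, hOk⟩ : ∃ Ok : E → Prop, Ok = fun w => In w ∧ p w i = p x i := ⟨_, rfl⟩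
  have okx : Ok x := by rw [hOk]; exact ⟨hx, rfl⟩
  have okIn : ∀ w, Ok w → In w := fun w hw => by rw [hOk] at hw; exact hw.1
  have gen1 : ∀ w a, Ok w → a ∈ I → a ≠ i → Gen (p w) {a}ᶜ := by
    intro w a hw ha hai
    rw [hOk] at hw
    refine gen_leg hA hw.1 ha ⟨i, hi, Ne.symm hai, ?_⟩
    rw [hw.2]
    exact hne
  have gen2 : ∀ w a a', Ok w → a ∈ I → a' ∈ I → a ≠ i → a' ≠ i → Gen (p w) {a, a'}ᶜ := by
    intro w a a' hw ha ha' hai hai'
    rw [hOk] at hw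
    refine gen_leg2 hA hw.1 ha ha' hi (Ne.symm hai) (Ne.symm hai') ?_
    rw [hw.2]
    exact hne
  have okT : ∀ w a v, Ok w → a ∈ I → a ≠ i → f v = 1 → Ok (T a v w) := by
    intro w a v hw ha hai hv
    have hv' : f v = gb a := by rw [hv, hA.one a ha]
    have hg := gen1 w a hw ha hai
    rw [hOk] at hw ⊢
    refine ⟨hT.inT a v w hw.1 hg hv', ?_⟩
    rw [hT.pT a v w hw.1 hg hv', Function.update_of_ne (Ne.symm hai)]
    exact hw.2
  have pTT : ∀ w a v, Ok w → a ∈ I → a ≠ i → f v = 1 →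
      p (T a v w) = Function.update (p w) a v := by
    intro w a v hw ha hai hv
    exact hT.pT a v w (okIn w hw) (gen1 w a hw ha hai) (by rw [hv, hA.one a ha])
  have hRG : ∀ a ∈ I, (R j (FreeGroup.of a))⁻¹ ∈ Gam gb := fun a ha =>
    Rinv_mem_Gam (hIj a ha) (hA.one a ha)
  have pRR : ∀ w a, a ∈ I → p ((R j (FreeGroup.of a))⁻¹ • w) =
      Function.update (p w) j (p w j * p w a) := by
    intro w a ha
    rw [hA.ps, act_Rinv (hIj a ha)]
  have okR : ∀ w a, Ok w → a ∈ I → Ok ((R j (FreeGroup.of a))⁻¹ • w) := by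
    intro w a hw ha
    rw [hOk] at hw ⊢
    refine ⟨hA.inn _ (hRG a ha) w hw.1, ?_⟩
    rw [pRR w a ha, Function.update_of_ne hij]
    exact hw.2
  have SQ : ∀ w a a' v v', Ok w → a ∈ I → a' ∈ I → a ≠ a' → a ≠ i → a' ≠ i → f v = 1 → f v' = 1 →
      T a' v' (T a v w) = T a v (T a' v' w) := by
    intro w a a' v v' hw ha ha' haa hai hai' hv hv'
    exact hT.sq a a' v v' w (okIn w hw) haa (gen2 w a a' hw ha ha' hai hai')
      (by rw [hv, hA.one a ha]) (by rw [hv', hA.one a' ha'])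
  have CM : ∀ w a a' v, Ok w → a ∈ I → a' ∈ I → a ≠ a' → a ≠ i → f v = 1 →
      (R j (FreeGroup.of a'))⁻¹ • T a v w = T a v ((R j (FreeGroup.of a'))⁻¹ • w) := by
    intro w a a' v hw ha ha' haa hai hv
    exact hT.comm a v w _ (okIn w hw) (gen1 w a hw ha hai) (by rw [hv, hA.one a ha])
      (hRG a' ha') (pres_Rinv (Ne.symm (hIj a ha)) haa)
  have fk : ∀ w a, Ok w → a ∈ I → f (p w a) = 1 := by
    intro w a hw ha
    rw [(hA.fb w (okIn w hw)).1 a, hA.one a ha]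
  have BK : ∀ w a v, Ok w → a ∈ I → a ≠ i → f v = 1 → T a (p w a) (T a v w) = w := by
    intro w a v hw ha hai hv
    rw [hT.tri a v (p w a) w (okIn w hw) (gen1 w a hw ha hai) (by rw [hv, hA.one a ha])
      (by rw [fk w a hw ha, hA.one a ha])]
    exact hT.self a w (okIn w hw) (gen1 w a hw ha hai)
  -- the values
  obtain ⟨ν1, hν1⟩ : ∃ ν, ν = (p x j)⁻¹ * y := ⟨_, rfl⟩
  obtain ⟨ν2, hν2⟩ : ∃ ν, ν = y⁻¹ * z := ⟨_, rfl⟩
  obtain ⟨ν3, hν3⟩ : ∃ ν, ν = (p x j)⁻¹ * z := ⟨_, rfl⟩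
  have hfj : f (p x j) = gb j := (hA.fb x hx).1 j
  have f1 : f ν1 = 1 := by rw [hν1, map_mul, map_inv, hfj, hy, inv_mul_cancel]
  have f2 : f ν2 = 1 := by rw [hν2, map_mul, map_inv, hy, hz, inv_mul_cancel]
  have f3 : f ν3 = 1 := by rw [hν3, map_mul, map_inv, hfj, hz, inv_mul_cancel]
  have g1 := fk x a1 okx ha1
  have g2 := fk x a2 okx ha2
  have g3 := fk x a3 okx ha3
  unfold Uc
  unfold Uc at hpa2 hpj
  rw [← hν1] at hpa2 hpj ⊢
  rw [hpa2, hpj, ← hν2, ← hν3]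
  -- the point `X`
  have ok3 : Ok (T a3 ν3 x) := okT _ _ _ okx ha3 h3i f3
  have ok13 : Ok (T a1 ν1 (T a3 ν3 x)) := okT _ _ _ ok3 ha1 h1 f1
  obtain ⟨X, hX⟩ : ∃ X, X = T a2 ν2 (T a1 ν1 (T a3 ν3 x)) := ⟨_, rfl⟩
  have okX : Ok X := by rw [hX]; exact okT _ _ _ ok13 ha2 h2i f2
  have ok1 : Ok (T a1 ν1 x) := okT _ _ _ okx ha1 h1 f1
  -- the left side
  have L1 : T a2 ν2 (T a1 ν1 x) = T a3 (p x a3) X := by
    have e1 : T a1 ν1 x = T a3 (p x a3) (T a1 ν1 (T a3 ν3 x)) := by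
      conv_lhs => rw [← BK x a3 ν3 okx ha3 h3i f3]
      exact SQ _ a3 a1 _ _ ok3 ha3 ha1 h31 h3i h1 g3 f1
    rw [e1, hX]
    exact SQ _ a3 a2 _ _ ok13 ha3 ha2 h32 h3i h2i g3 f2
  have hL : T a2 (p x a2) ((R j (FreeGroup.of a2))⁻¹ • T a2 ν2 (T a1 (p x a1)
      ((R j (FreeGroup.of a1))⁻¹ • T a1 ν1 x))) =
      T a2 (p x a2) (T a1 (p x a1) (T a3 (p x a3)
        ((R j (FreeGroup.of a2))⁻¹ • (R j (FreeGroup.of a1))⁻¹ • X))) := by
    congr 1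
    rw [SQ _ a1 a2 _ _ (okR _ _ ok1 ha1) ha1 ha2 (Ne.symm h21) h1 h2i g1 f2,
      ← CM _ a2 a1 ν2 ok1 ha2 ha1 h21 h2i f2, L1, CM _ a3 a1 _ okX ha3 ha1 h31 h3i g3,
      CM _ a1 a2 _ (okT _ _ _ (okR _ _ okX ha1) ha3 h3i g3) ha1 ha2 (Ne.symm h21) h1 g1,
      CM _ a3 a2 _ (okR _ _ okX ha1) ha3 ha2 h32 h3i g3]
  -- the right side
  have p31 : p (T a3 ν3 x) a1 = p x a1 := by
    rw [pTT _ _ _ okx ha3 h3i f3, Function.update_of_ne (Ne.symm h31)]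
  have p132 : p (T a1 ν1 (T a3 ν3 x)) a2 = p x a2 := by
    rw [pTT _ _ _ ok3 ha1 h1 f1, Function.update_of_ne h21, pTT _ _ _ okx ha3 h3i f3,
      Function.update_of_ne (Ne.symm h32)]
  have R1 : T a3 ν3 x = T a1 (p x a1) (T a2 (p x a2) X) := by
    have e1 := BK (T a1 ν1 (T a3 ν3 x)) a2 ν2 ok13 ha2 h2i f2
    rw [p132, ← hX] at e1
    have e2 := BK (T a3 ν3 x) a1 ν1 ok3 ha1 h1 f1
    rw [p31] at e2
    rw [e1, e2]
  have ok3X : Ok ((R j (FreeGroup.of a3))⁻¹ • X) := okR _ _ okX ha3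
  have hR : T a3 (p x a3) ((R j (FreeGroup.of a3))⁻¹ • T a3 ν3 x) =
      T a2 (p x a2) (T a1 (p x a1) (T a3 (p x a3) ((R j (FreeGroup.of a3))⁻¹ • X))) := by
    rw [R1, CM _ a1 a3 _ (okT _ _ _ okX ha2 h2i g2) ha1 ha3 (Ne.symm h31) h1 g1,
      CM _ a2 a3 _ okX ha2 ha3 (Ne.symm h32) h2i g2,
      SQ _ a1 a3 _ _ (okT _ _ _ ok3X ha2 h2i g2) ha1 ha3 (Ne.symm h31) h1 h3i g1 g3,
      SQ _ a2 a3 _ _ ok3X ha2 ha3 (Ne.symm h32) h2i h3i g2 g3,
      SQ _ a2 a1 _ _ (okT _ _ _ ok3X ha3 h3i g3) ha2 ha1 h21 h2i h1 g2 g1]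
  rw [hL, hR]
  congr 3
  -- the same effect
  rw [← mul_smul]
  have hMv : ∀ a, (R j (FreeGroup.of a))⁻¹ ∈ Mv j := fun a => inv_mem (R_mem_Mv j _)
  have hP4 : ∀ a, a4 ≠ a → Pres a4 (R j (FreeGroup.of a))⁻¹ := fun a ha =>
    pres_Rinv (Ne.symm (hIj a4 ha4)) ha
  have pX : p X = Function.update (Function.update (Function.update (p x) a3 ν3) a1 ν1) a2 ν2 := by
    rw [hX, pTT _ _ _ ok13 ha2 h2i f2, pTT _ _ _ ok3 ha1 h1 f1, pTT _ _ _ okx ha3 h3i f3]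
  have v1 : p X a1 = ν1 := by
    rw [pX, Function.update_of_ne (Ne.symm h21), Function.update_self]
  have v2 : p X a2 = ν2 := by rw [pX, Function.update_self]
  have v3 : p X a3 = ν3 := by
    rw [pX, Function.update_of_ne h32, Function.update_of_ne h31, Function.update_self]
  have vj : p X j = p x j := by
    rw [pX, Function.update_of_ne (hIj a2 ha2), Function.update_of_ne (hIj a1 ha1),
      Function.update_of_ne (hIj a3 ha3)]
  refine hA.qq j a4 a1 _ _ X (okIn X okX) (hIj a4 ha4) (Ne.symm h41) (Ne.symm (hIj a1 ha1))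
    (gen2 X a1 a4 okX ha1 ha4 h1 h4i) (mul_mem (hMv a2) (hMv a1)) (hMv a3) ?_ (hP4 a3 h43) ?_
  · exact Pres_mul (hP4 a2 h42) (hP4 a1 h41)
  · rw [act_mul, act_Rinv (hIj a1 ha1), act_Rinv (hIj a2 ha2), act_Rinv (hIj a3 ha3),
      Function.update_self, Function.update_of_ne (Ne.symm (hIj a2 ha2)), Function.update_idem,
      v1, v2, v3, vj, hν1, hν2, hν3]
    congr 1
    group

end

end Sol

end RED
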