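import Pool.Agent.RED4.U1

/-!
# The moves of the letters outside of `I`, third part
-/

set_option autoImplicit false

namespace RED

open AFn IAQ

namespace Sol

variable {n : ℕ} {G K : Type*} [Group G] [Group K]

section

variable {E : Type*} [MulAction (MulAut (FreeGroup (Fin n))) E] {f : G →* K}
  {I : Finset (Fin n)} {gb : Fin n → K} {p : E → Fin n → G} {In : E → Prop}
  {T : Fin n → G → E → E}

private theorem u3_ne {e j : Fin n} (he : e ∈ I) (hj : j ∉ I) : e ≠ j := fun h => hj (h ▸ he)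

private theorem u3_spare (hA : FA f I gb p In) (a b c d : Fin n) :
    ∃ e ∈ I, e ≠ a ∧ e ≠ b ∧ e ≠ c ∧ e ≠ d := by
  by_contra hcon
  push Not at hcon
  have h1 : I ⊆ {a, b, c, d} := by
    intro e he
    simp only [Finset.mem_insert, Finset.mem_singleton]
    by_cases h1 : e = a
    · exact Or.inl h1
    · by_cases h2 : e = b
      · exact Or.inr (Or.inl h2)
      · by_cases h3 : e = c
        · exact Or.inr (Or.inr (Or.inl h3))
        · exact Or.inr (Or.inr (Or.inr (hcon e he h1 h2 h3)))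
  have h2 := (Finset.card_le_card h1).trans Finset.card_le_four
  have h3 := hA.card
  omega

/-- a point whose letter `i` does not have the value `1` -/
private def QQ (p : E → Fin n → G) (In : E → Prop) (i : Fin n) (w : E) : Prop :=
  In w ∧ p w i ≠ 1

private theorem u3_T (hA : FA f I gb p In) (hT : TOp f gb p In T) {i a : Fin n} {w : E}
    (hi : i ∈ I) (hw : QQ p In i w) (ha : a ∈ I) (hia : i ≠ a) {v : G} (hv : f v = gb a) :
    QQ p In i (T a v w) ∧ p (T a v w) = Function.update (p w) a v := by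
  have h1 : p (T a v w) = Function.update (p w) a v :=
    hT.pT a v w hw.1 (gen_leg hA hw.1 ha ⟨i, hi, hia, hw.2⟩) hv
  refine ⟨⟨hT.inT a v w hw.1 (gen_leg hA hw.1 ha ⟨i, hi, hia, hw.2⟩) hv, ?_⟩, h1⟩
  rw [h1, Function.update_of_ne hia]
  exact hw.2

private theorem u3_R (hA : FA f I gb p In) {i a j : Fin n} {w : E}
    (hi : i ∈ I) (hw : QQ p In i w) (ha : a ∈ I) (hj : j ∉ I) :
    QQ p In i ((R j (FreeGroup.of a))⁻¹ • w) ∧
      p ((R j (FreeGroup.of a))⁻¹ • w) = Function.update (p w) j (p w j * p w a) := by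
  have h1 : p ((R j (FreeGroup.of a))⁻¹ • w) = Function.update (p w) j (p w j * p w a) := by
    rw [hA.ps, act_Rinv (u3_ne ha hj).symm]
  refine ⟨⟨hA.inn _ (Rinv_mem_Gam (u3_ne ha hj).symm (hA.one a ha)) w hw.1, ?_⟩, h1⟩
  rw [h1, Function.update_of_ne (u3_ne hi hj)]
  exact hw.2

private theorem u3_TT (hA : FA f I gb p In) (hT : TOp f gb p In T) {i a b : Fin n} {w : E}
    (hi : i ∈ I) (hw : QQ p In i w) (ha : a ∈ I) (hb : b ∈ I) (hia : i ≠ a) (hib : i ≠ b)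
    (hab : a ≠ b) {v v' : G} (hv : f v = gb a) (hv' : f v' = gb b) :
    T a v (T b v' w) = T b v' (T a v w) :=
  (hT.sq a b v v' w hw.1 hab (gen_leg2 hA hw.1 ha hb hi hia hib hw.2) hv hv').symm

private theorem u3_RT (hA : FA f I gb p In) (hT : TOp f gb p In T) {i a b j : Fin n} {w : E}
    (hi : i ∈ I) (hw : QQ p In i w) (ha : a ∈ I) (hb : b ∈ I) (hj : j ∉ I) (hib : i ≠ b)
    (hab : a ≠ b) {v : G} (hv : f v = gb b) :
    (R j (FreeGroup.of a))⁻¹ • T b v w = T b v ((R j (FreeGroup.of a))⁻¹ • w) :=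
  hT.comm b v w _ hw.1 (gen_leg hA hw.1 hb ⟨i, hi, hib, hw.2⟩) hv
    (Rinv_mem_Gam (u3_ne ha hj).symm (hA.one a ha)) (pres_Rinv (u3_ne hb hj) hab.symm)

private theorem u3_ins (hA : FA f I gb p In) (hT : TOp f gb p In T) {i a : Fin n} {w : E}
    (hi : i ∈ I) (hw : QQ p In i w) (ha : a ∈ I) (hia : i ≠ a) {v t : G} (hv : f v = gb a)
    (ht : p w a = t) : w = T a t (T a v w) := by
  have hg := gen_leg hA hw.1 ha ⟨i, hi, hia, hw.2⟩
  rw [← ht, hT.tri a v (p w a) w hw.1 hg hv ((hA.fb w hw.1).1 a), hT.self a w hw.1 hg]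

theorem Uc_comm_T (hA : FA f I gb p In) (hT : TOp f gb p In T) {x : E} (hx : In x)
    {i e e' j : Fin n} (hi : i ∈ I) (he : e ∈ I) (he' : e' ∈ I) (hj : j ∉ I) (hie : i ≠ e)
    (hie' : i ≠ e') (hee : e ≠ e') (h1 : p x i ≠ 1) {y z : G} (hy : f y = gb j)
    (hz : f z = gb e') :
    T e' z (Uc p T e j y x) = Uc p T e j y (T e' z x) := by
  have q0 : QQ p In i x := ⟨hx, h1⟩
  obtain ⟨qz, pz⟩ := u3_T hA hT hi q0 he' hie' hz
  obtain ⟨v, hv⟩ : ∃ v : G, v = (p x j)⁻¹ * y := ⟨_, rfl⟩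
  have fv : f v = gb e := by rw [hv]; exact Uc_val hA hx he hy
  obtain ⟨qa, pa⟩ := u3_T hA hT hi q0 he hie fv
  obtain ⟨qb, pb⟩ := u3_R hA hi qa he hj
  rw [show Uc p T e j y (T e' z x) = T e (p (T e' z x) e) ((R j (FreeGroup.of e))⁻¹ •
      T e ((p (T e' z x) j)⁻¹ * y) (T e' z x)) from rfl, pz, Function.update_of_ne hee,
    Function.update_of_ne (u3_ne he' hj).symm,
    show Uc p T e j y x = T e (p x e) ((R j (FreeGroup.of e))⁻¹ •
      T e ((p x j)⁻¹ * y) x) from rfl, ← hv,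
    u3_TT hA hT hi qb he' he hie' hie hee.symm hz ((hA.fb x hx).1 e),
    ← u3_RT hA hT hi qa he he' hj hie' hee hz,
    u3_TT hA hT hi q0 he' he hie' hie hee.symm hz fv]

private theorem u3_form (hA : FA f I gb p In) (hT : TOp f gb p In T) {x : E} (hx : In x)
    {i e e' j j' : Fin n} (hi : i ∈ I) (he : e ∈ I) (he' : e' ∈ I) (hj : j ∉ I) (hj' : j' ∉ I)
    (hie : i ≠ e) (hie' : i ≠ e') (hee : e ≠ e') (hjj : j ≠ j') (h1 : p x i ≠ 1) {y z : G}
    (hy : f y = gb j) (hz : f z = gb j') :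
    Uc p T e' j' z (Uc p T e j y x) = T e' (p x e') (T e (p x e)
      ((R j' (FreeGroup.of e'))⁻¹ • (R j (FreeGroup.of e))⁻¹ •
        T e' ((p x j')⁻¹ * z) (T e ((p x j)⁻¹ * y) x))) := by
  have q0 : QQ p In i x := ⟨hx, h1⟩
  have hUp := (Uc_in hA hT hx he hj ⟨i, hi, hie, h1⟩ hy).2
  have fv : f ((p x j)⁻¹ * y) = gb e := Uc_val hA hx he hy
  have fv' : f ((p x j')⁻¹ * z) = gb e' := Uc_val hA hx he' hz
  obtain ⟨qa, pa⟩ := u3_T hA hT hi q0 he hie fv
  obtain ⟨qb, pb⟩ := u3_R hA hi qa he hj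
  obtain ⟨qc, pc⟩ := u3_T hA hT hi qb he' hie' fv'
  rw [show Uc p T e' j' z (Uc p T e j y x) = T e' (p (Uc p T e j y x) e')
      ((R j' (FreeGroup.of e'))⁻¹ • T e' ((p (Uc p T e j y x) j')⁻¹ * z)
        (Uc p T e j y x)) from rfl, hUp, Function.update_of_ne (u3_ne he' hj),
    Function.update_of_ne hjj.symm,
    show Uc p T e j y x = T e (p x e) ((R j (FreeGroup.of e))⁻¹ •
      T e ((p x j)⁻¹ * y) x) from rfl,
    u3_TT hA hT hi qb he' he hie' hie hee.symm fv' ((hA.fb x hx).1 e),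
    u3_RT hA hT hi qc he' he hj' hie hee.symm ((hA.fb x hx).1 e),
    ← u3_RT hA hT hi qa he he' hj hie' hee fv']

theorem Uc_comm (hA : FA f I gb p In) (hT : TOp f gb p In T) {x : E} (hx : In x)
    {i e e' j j' : Fin n} (hi : i ∈ I) (he : e ∈ I) (he' : e' ∈ I) (hj : j ∉ I) (hj' : j' ∉ I)
    (hie : i ≠ e) (hie' : i ≠ e') (hee : e ≠ e') (hjj : j ≠ j') (h1 : p x i ≠ 1) {y z : G}
    (hy : f y = gb j) (hz : f z = gb j') :
    Uc p T e' j' z (Uc p T e j y x) = Uc p T e j y (Uc p T e' j' z x) := by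
  have q0 : QQ p In i x := ⟨hx, h1⟩
  have fv : f ((p x j)⁻¹ * y) = gb e := Uc_val hA hx he hy
  have fv' : f ((p x j')⁻¹ * z) = gb e' := Uc_val hA hx he' hz
  have hRR : (R j' (FreeGroup.of e'))⁻¹ * (R j (FreeGroup.of e))⁻¹ =
      (R j (FreeGroup.of e))⁻¹ * (R j' (FreeGroup.of e'))⁻¹ := by
    rw [← mul_inv_rev, ← mul_inv_rev]
    congr 1
    refine aut_ext fun c => ?_
    rw [MulAut.mul_apply, MulAut.mul_apply]
    by_cases hc : c = j
    · rw [hc, R_of_ne hjj, R_of_self, kill_of_ne (u3_ne he hj), map_mul, R_of_ne hjj,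
        R_of_ne (u3_ne he hj')]
    · by_cases hc' : c = j'
      · rw [hc', R_of_ne hjj.symm, R_of_self, kill_of_ne (u3_ne he' hj'), map_mul,
          R_of_ne hjj.symm, R_of_ne (u3_ne he' hj)]
      · rw [R_of_ne hc, R_of_ne hc', R_of_ne hc]
  rw [u3_form hA hT hx hi he he' hj hj' hie hie' hee hjj h1 hy hz,
    u3_form hA hT hx hi he' he hj' hj hie' hie hee.symm hjj.symm h1 hz hy, ← mul_smul,
    ← mul_smul, hRR, u3_TT hA hT hi q0 he' he hie' hie hee.symm fv' fv, mul_smul]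
  obtain ⟨qa, -⟩ := u3_T hA hT hi q0 he' hie' fv'
  obtain ⟨qb, -⟩ := u3_T hA hT hi qa he hie fv
  obtain ⟨qc, -⟩ := u3_R hA hi qb he' hj'
  obtain ⟨qd, -⟩ := u3_R hA hi qc he hj
  exact u3_TT hA hT hi qd he' he hie' hie hee.symm ((hA.fb x hx).1 e') ((hA.fb x hx).1 e)

/-- good moves of a letter outside of `I` -/
theorem good_eq_Uc (hA : FA f I gb p In) (hT : TOp f gb p In T) {x : E} (hx : In x)
    {i b e j : Fin n} (hi : i ∈ I) (hib : i ≠ b) (h1 : p x i ≠ 1) (he : e ∈ I)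
    (hl : Leg I (p x) e) (hj : j ∉ I) {s : MulAut (FreeGroup (Fin n))} (hs : s ∈ Mv j)
    (hsg : s ∈ Gam gb) (hp : ∀ e ∈ I, e ≠ b → Pres e s) :
    s • x = Uc p T e j (act s (p x) j) x := by
  obtain ⟨a, ha, nai, nab, -, -⟩ := u3_spare hA i b b b
  obtain ⟨a3, ha3, n3i, n3b, n3a, -⟩ := u3_spare hA i b a a
  have hsx := hA.inn s hsg x hx
  obtain ⟨y, hy⟩ : ∃ y, y = act s (p x) j := ⟨_, rfl⟩
  have fy : f y = gb j := by
    rw [hy, ← hA.ps]
    exact (hA.fb _ hsx).1 j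
  have q0 : QQ p In i x := ⟨hx, h1⟩
  rw [← hy, Uc_indep hA hT hx he ha hj hl ⟨i, hi, nai.symm, h1⟩ fy]
  obtain ⟨v, hv⟩ : ∃ v : G, v = (p x j)⁻¹ * y := ⟨_, rfl⟩
  have fv : f v = gb a := by rw [hv]; exact Uc_val hA hx ha fy
  obtain ⟨qa, pa⟩ := u3_T hA hT hi q0 ha nai.symm fv
  have hPa := hp a ha nab
  have hga := gen_leg hA hx ha ⟨i, hi, nai.symm, h1⟩
  -- the effect of `s`
  have hact : act s (p x) = Function.update (p x) j y := by
    funext c
    by_cases hc : c = j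
    · rw [hc, Function.update_self, hy]
    · rw [Function.update_of_ne hc]
      change ev (p x) (s⁻¹ (FreeGroup.of c)) = p x c
      rw [Mv_fix hc ((Mv j).inv_mem hs), ev_of]
  have haj := u3_ne ha hj
  have key : s • T a v x = (R j (FreeGroup.of a))⁻¹ • T a v x := by
    refine hA.qq j a3 a _ _ _ qa.1 (u3_ne ha3 hj).symm n3a.symm haj
      (gen_leg2 hA qa.1 ha ha3 hi nai.symm n3i.symm qa.2) hs
      ((Mv j).inv_mem (R_mem_Mv j _)) (hp a3 ha3 n3b) (pres_Rinv (u3_ne ha3 hj) n3a) ?_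
    rw [pa, act_update hPa, hact, act_Rinv haj.symm, Function.update_self,
      Function.update_of_ne haj.symm, hv, mul_inv_cancel_left, Function.update_comm haj]
  rw [show Uc p T a j y x = T a (p x a) ((R j (FreeGroup.of a))⁻¹ •
      T a ((p x j)⁻¹ * y) x) from rfl, ← hv, ← key, hT.comm a v x s hx hga fv hsg hPa]
  have hgs : Gen (p (s • x)) {a}ᶜ := by
    rw [hA.ps]
    exact Gen_pres hPa hga
  have hps : p (s • x) a = p x a := by
    rw [hA.ps, hact, Function.update_of_ne haj]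
  have h5 := hT.tri a v (p x a) (s • x) hsx hgs fv ((hA.fb x hx).1 a)
  have h6 := hT.self a (s • x) hsx hgs
  rw [hps] at h6
  rw [h5, h6]

end

end Sol

end RED
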