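import Pool.Agent.RED4.SecB
import Pool.Agent.RED4.U2
import Pool.Agent.RED4.U3

/-!
# The section over the tuples with a letter of `I` different from `1`
-/

set_option autoImplicit false

namespace RED

open AFn IAQ

namespace Sol

variable {n : ℕ} {G K : Type*} [Group G] [Group K]

theorem sec_star {E : Type*} [MulAction (MulAut (FreeGroup (Fin n))) E] {f : G →* K}
    {I : Finset (Fin n)} {gb : Fin n → K} {p : E → Fin n → G} {In : E → Prop}
    {T : Fin n → G → E → E} (hA : FA f I gb p In) (hT : TOp f gb p In T) (x0 : E)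
    (hx0 : In x0) (h0 : ∃ i ∈ I, p x0 i ≠ 1) :
    ∃ s : (Fin n → G) → E, s (p x0) = x0 ∧
      (∀ h, Fb f gb h → (∃ i ∈ I, h i ≠ 1) → In (s h) ∧ p (s h) = h) ∧
      (∀ (h : Fin n → G) (e : Fin n) (y : G), Fb f gb h → e ∈ I → f y = gb e → Leg I h e →
        s (Function.update h e y) = T e y (s h)) ∧
      ∀ (h : Fin n → G) (e j : Fin n) (y : G), Fb f gb h → e ∈ I → j ∉ I → f y = gb j →
        Leg I h e → s (Function.update h j y) = Uc p T e j y (s h) := by
  classical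
  -- the base tuple
  obtain ⟨g0, hg0⟩ : ∃ g0 : Fin n → G, g0 = fun a => if a ∈ I then 1 else p x0 a := ⟨_, rfl⟩
  have g0I : ∀ a ∈ I, g0 a = 1 := fun a ha => by rw [hg0]; exact if_pos ha
  have fg0 : ∀ a, f (g0 a) = gb a := by
    intro a
    by_cases ha : a ∈ I
    · rw [g0I a ha, map_one, hA.one a ha]
    · rw [hg0]
      simp only [if_neg ha]
      exact (hA.fb x0 hx0).1 a
  obtain ⟨κ, hκ⟩ : ∃ κ : G → f.ker, κ = fun y => if hy : f y = 1 then ⟨y, hy⟩ else 1 := ⟨_, rfl⟩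
  have κv : ∀ y : G, f y = 1 → ((κ y : f.ker) : G) = y := by
    intro y hy
    rw [hκ]
    simp only [dif_pos hy]
  have hker : ∀ (a : Fin n) (y : G), f y = gb a → f ((g0 a)⁻¹ * y) = 1 := by
    intro a y hy
    rw [map_mul, map_inv, fg0, hy, inv_mul_cancel]
  have κg : ∀ (a : Fin n) (y : G), f y = gb a → g0 a * ((κ ((g0 a)⁻¹ * y) : f.ker) : G) = y := by
    intro a y hy
    rw [κv _ (hker a y hy), mul_inv_cancel_left]
  have fν : ∀ (a : Fin n) (ν : f.ker), f (g0 a * (ν : G)) = gb a := by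
    intro a ν
    rw [map_mul, fg0, ν.2, mul_one]
  have κinv : ∀ (a : Fin n) (ν : f.ker), κ ((g0 a)⁻¹ * (g0 a * (ν : G))) = ν := by
    intro a ν
    apply Subtype.ext
    rw [κv _ (hker a _ (fν a ν)), inv_mul_cancel_left]
  -- the tuples of elements of the kernel
  obtain ⟨pk, hpk⟩ : ∃ pk : {x // In x} → Fin n → f.ker,
      pk = fun x a => κ ((g0 a)⁻¹ * p x.1 a) := ⟨_, rfl⟩
  have pkv : ∀ (x : {x // In x}) (a : Fin n), g0 a * ((pk x a : f.ker) : G) = p x.1 a := by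
    intro x a
    rw [hpk]
    exact κg a _ ((hA.fb x.1 x.2).1 a)
  have pk1 : ∀ (x : {x // In x}) (i : Fin n), i ∈ I → (pk x i ≠ 1 ↔ p x.1 i ≠ 1) := by
    intro x i hi
    have h := pkv x i
    rw [g0I i hi, one_mul] at h
    rw [← h, Ne, Ne, OneMemClass.coe_eq_one]
  have hleg : ∀ (x : {x // In x}) (e : Fin n), (∃ i ∈ I, i ≠ e ∧ pk x i ≠ 1) ↔
      Leg I (p x.1) e := by
    intro x e
    constructor
    · rintro ⟨i, hi, hie, h⟩
      exact ⟨i, hi, hie, (pk1 x i hi).1 h⟩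
    · rintro ⟨i, hi, hie, h⟩
      exact ⟨i, hi, hie, (pk1 x i hi).2 h⟩
  -- spare letters
  have spare : ∀ s : Finset (Fin n), s.card ≤ 4 → ∃ c ∈ I, c ∉ s := by
    intro s hs
    by_contra hcon
    push Not at hcon
    have h1 := Finset.card_le_card (fun c hc => hcon c hc : I ⊆ s)
    have h2 := hA.card
    omega
  have hcar0 : ∀ x : E, ∃ c : Fin n, (∃ c' ∈ I, Leg I (p x) c') → (c ∈ I ∧ Leg I (p x) c) := by
    intro x
    by_cases h : ∃ c' ∈ I, Leg I (p x) c'
    · obtain ⟨c', h1, h2⟩ := h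
      exact ⟨c', fun _ => ⟨h1, h2⟩⟩
    · obtain ⟨i, _⟩ := h0
      exact ⟨i, fun h' => absurd h' h⟩
  choose car hcar using hcar0
  have hex : ∀ (x : E) (e : Fin n), Leg I (p x) e → ∃ c' ∈ I, Leg I (p x) c' := by
    rintro x e ⟨i, hi, hie, h⟩
    obtain ⟨c, hc, hci⟩ := spare {i} (by simp)
    exact ⟨c, hc, i, hi, fun h' => hci (by rw [h']; exact Finset.mem_singleton_self _), h⟩
  obtain ⟨Tv, hTv⟩ : ∃ Tv : Fin n → f.ker → E → E,
      Tv = fun (e : Fin n) (ν : f.ker) (x : E) => if e ∈ I then T e (g0 e * (ν : G)) x else Uc p T (car x) e (g0 e * (ν : G)) x := ⟨_, rfl⟩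
  have TvI : ∀ (e : Fin n) (ν : f.ker) (x : E), e ∈ I → Tv e ν x = T e (g0 e * (ν : G)) x := by
    intro e ν x he
    rw [hTv]
    exact if_pos he
  have TvJ : ∀ (e : Fin n) (ν : f.ker) (x : E), e ∉ I →
      Tv e ν x = Uc p T (car x) e (g0 e * (ν : G)) x := by
    intro e ν x he
    rw [hTv]
    exact if_neg he
  have TvIn : ∀ (e : Fin n) (ν : f.ker) (x : E), In x → Leg I (p x) e → In (Tv e ν x) := by
    intro e ν x hx hl
    by_cases he : e ∈ I
    · rw [TvI e ν x he]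
      exact hT.inT e _ x hx (gen_leg hA hx he hl) (fν e ν)
    · rw [TvJ e ν x he]
      obtain ⟨h1, h2⟩ := hcar x (hex x e hl)
      exact (Uc_in hA hT hx h1 he h2 (fν e ν)).1
  obtain ⟨T', hT'⟩ : ∃ T' : Fin n → f.ker → {x // In x} → {x // In x},
      T' = fun (e : Fin n) (ν : f.ker) (x : {x // In x}) =>
        if h : In (Tv e ν x.1) then ⟨Tv e ν x.1, h⟩ else x := ⟨_, rfl⟩
  have T'v : ∀ (e : Fin n) (ν : f.ker) (x : {x // In x}), Leg I (p x.1) e →
      (T' e ν x).1 = Tv e ν x.1 := by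
    intro e ν x hl
    rw [hT']
    simp only [dif_pos (TvIn e ν x.1 x.2 hl)]
  have F1 : ∀ (e : Fin n) (ν : f.ker) (x : {x // In x}), e ∈ I → Leg I (p x.1) e →
      (T' e ν x).1 = T e (g0 e * (ν : G)) x.1 := by
    intro e ν x he hl
    rw [T'v e ν x hl, TvI e ν x.1 he]
  have F2 : ∀ (e c : Fin n) (ν : f.ker) (x : {x // In x}), e ∉ I → c ∈ I → Leg I (p x.1) c →
      (T' e ν x).1 = Uc p T c e (g0 e * (ν : G)) x.1 := by
    intro e c ν x he hc hl
    have hle : Leg I (p x.1) e := by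
      obtain ⟨i, hi, _, h⟩ := hl
      exact ⟨i, hi, fun h' => he (by rw [← h']; exact hi), h⟩
    rw [T'v e ν x hle, TvJ e ν x.1 he]
    obtain ⟨h1, h2⟩ := hcar x.1 (hex x.1 e hle)
    exact Uc_indep hA hT x.2 h1 hc he h2 hl (fν e ν)
  have Fp : ∀ (e : Fin n) (ν : f.ker) (x : {x // In x}), Leg I (p x.1) e →
      p (T' e ν x).1 = Function.update (p x.1) e (g0 e * (ν : G)) := by
    intro e ν x hl
    by_cases he : e ∈ I
    · rw [F1 e ν x he hl]
      exact hT.pT e _ x.1 x.2 (gen_leg hA x.2 he hl) (fν e ν)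
    · obtain ⟨h1, h2⟩ := hcar x.1 (hex x.1 e hl)
      rw [F2 e _ ν x he h1 h2]
      exact (Uc_in hA hT x.2 h1 he h2 (fν e ν)).2
  -- the value at a letter different from `e`
  have Fne : ∀ (e i : Fin n) (ν : f.ker) (x : {x // In x}), Leg I (p x.1) e → i ≠ e →
      p (T' e ν x).1 i = p x.1 i := by
    intro e i ν x hl hie
    rw [Fp e ν x hl, Function.update_of_ne hie]
  have Fleg : ∀ (e c : Fin n) (ν : f.ker) (x : {x // In x}), Leg I (p x.1) e →
      (∃ i ∈ I, i ≠ e ∧ i ≠ c ∧ p x.1 i ≠ 1) → Leg I (p (T' e ν x).1) c := by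
    rintro e c ν x hl ⟨i, hi, hie, hic, h⟩
    exact ⟨i, hi, hic, by rw [Fne e i ν x hl hie]; exact h⟩
  have hC : CovB I (1 : f.ker) pk T' := by
    refine ⟨?_, ?_, ?_, ?_⟩
    · intro e ν x hl
      rw [hleg] at hl
      funext a
      rw [hpk]
      show κ ((g0 a)⁻¹ * p (T' e ν x).1 a) = _
      rw [Fp e ν x hl]
      by_cases hae : a = e
      · rw [hae, Function.update_self, Function.update_self, κinv]
      · rw [Function.update_of_ne hae, Function.update_of_ne hae]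
    · intro e x hl
      rw [hleg] at hl
      apply Subtype.ext
      by_cases he : e ∈ I
      · rw [F1 e _ x he hl, pkv]
        exact hT.self e x.1 x.2 (gen_leg hA x.2 he hl)
      · obtain ⟨h1, h2⟩ := hcar x.1 (hex x.1 e hl)
        rw [F2 e _ _ x he h1 h2, pkv]
        exact Uc_self hA hT x.2 h1 he h2
    · intro e y z x hl
      rw [hleg] at hl
      have hl' : Leg I (p (T' e y x).1) e := by
        obtain ⟨i, hi, hie, h⟩ := hl
        exact ⟨i, hi, hie, by rw [Fne e i y x ⟨i, hi, hie, h⟩ hie]; exact h⟩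
      apply Subtype.ext
      by_cases he : e ∈ I
      · rw [F1 e z _ he hl', F1 e y x he hl, F1 e z x he hl]
        exact hT.tri e _ _ x.1 x.2 (gen_leg hA x.2 he hl) (fν e y) (fν e z)
      · obtain ⟨i, hi, hie, h⟩ := hl
        obtain ⟨c, hc, hci⟩ := spare {i} (by simp)
        have hci' : i ≠ c := fun h' => hci (by rw [h']; exact Finset.mem_singleton_self _)
        have l1 : Leg I (p x.1) c := ⟨i, hi, hci', h⟩
        have l2 : Leg I (p (T' e y x).1) c :=
          ⟨i, hi, hci', by rw [Fne e i y x ⟨i, hi, hie, h⟩ hie]; exact h⟩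
        rw [F2 e c z _ he hc l2, F2 e c y x he hc l1, F2 e c z x he hc l1]
        exact Uc_tri hA hT x.2 hc hc hc he l1 l1 l1 (fν e y) (fν e z)
    · rintro e e' y z x hee ⟨i, hi, hie, hie', h⟩
      rw [pk1 x i hi] at h
      have le : Leg I (p x.1) e := ⟨i, hi, hie, h⟩
      have le' : Leg I (p x.1) e' := ⟨i, hi, hie', h⟩
      have h1 : p (T' e y x).1 i ≠ 1 := by rw [Fne e i y x le hie]; exact h
      have h2 : p (T' e' z x).1 i ≠ 1 := by rw [Fne e' i z x le' hie']; exact h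
      have m1 : Leg I (p (T' e y x).1) e' := ⟨i, hi, hie', h1⟩
      have m2 : Leg I (p (T' e' z x).1) e := ⟨i, hi, hie, h2⟩
      apply Subtype.ext
      by_cases he : e ∈ I
      · by_cases he' : e' ∈ I
        · rw [F1 e' z _ he' m1, F1 e y x he le, F1 e y _ he m2, F1 e' z x he' le']
          exact hT.sq e e' _ _ x.1 x.2 hee (gen_leg2 hA x.2 he he' hi hie hie' h) (fν e y)
            (fν e' z)
        · obtain ⟨c, hc, hcs⟩ := spare {i, e} ((Finset.card_le_two).trans (by norm_num))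
          simp only [Finset.mem_insert, Finset.mem_singleton, not_or] at hcs
          rw [F2 e' c z _ he' hc ⟨i, hi, Ne.symm hcs.1, h1⟩, F1 e y x he le, F1 e y _ he m2,
            F2 e' c z x he' hc ⟨i, hi, Ne.symm hcs.1, h⟩]
          exact (Uc_comm_T hA hT x.2 hi hc he he' (Ne.symm hcs.1) hie hcs.2 h (fν e' z)
            (fν e y)).symm
      · by_cases he' : e' ∈ I
        · obtain ⟨c, hc, hcs⟩ := spare {i, e'} ((Finset.card_le_two).trans (by norm_num))
          simp only [Finset.mem_insert, Finset.mem_singleton, not_or] at hcs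
          rw [F1 e' z _ he' m1, F2 e c y x he hc ⟨i, hi, Ne.symm hcs.1, h⟩,
            F2 e c y _ he hc ⟨i, hi, Ne.symm hcs.1, h2⟩, F1 e' z x he' le']
          exact Uc_comm_T hA hT x.2 hi hc he' he (Ne.symm hcs.1) hie' hcs.2 h (fν e y) (fν e' z)
        · obtain ⟨c, hc, hcs⟩ := spare {i} (by simp)
          obtain ⟨d, hd, hds⟩ := spare {i, c} ((Finset.card_le_two).trans (by norm_num))
          simp only [Finset.mem_insert, Finset.mem_singleton, not_or] at hcs hds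
          rw [F2 e' d z _ he' hd ⟨i, hi, Ne.symm hds.1, h1⟩,
            F2 e c y x he hc ⟨i, hi, Ne.symm hcs, h⟩,
            F2 e c y _ he hc ⟨i, hi, Ne.symm hcs, h2⟩,
            F2 e' d z x he' hd ⟨i, hi, Ne.symm hds.1, h⟩]
          exact Uc_comm hA hT x.2 hi hc hd he he' (Ne.symm hcs) (Ne.symm hds.1)
            (Ne.symm hds.2) hee h (fν e y) (fν e' z)
  -- the section
  obtain ⟨i0, hi0, hp0⟩ := h0
  have hx0' : pk ⟨x0, hx0⟩ i0 ≠ 1 := (pk1 ⟨x0, hx0⟩ i0 hi0).2 hp0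
  obtain ⟨s', hs1, hs2, hs3⟩ := secB (le_trans (by norm_num) hA.card) hx0' hC ⟨x0, hx0⟩
    ⟨i0, hi0, hx0'⟩
  obtain ⟨hk, hhk⟩ : ∃ hk : (Fin n → G) → Fin n → f.ker,
      hk = fun h a => κ ((g0 a)⁻¹ * h a) := ⟨_, rfl⟩
  have hkv : ∀ (h : Fin n → G), (∀ x, f (h x) = gb x) → ∀ a,
      g0 a * ((hk h a : f.ker) : G) = h a := by
    intro h hf a
    rw [hhk]
    exact κg a _ (hf a)
  have hk1 : ∀ (h : Fin n → G), (∀ x, f (h x) = gb x) → ∀ i ∈ I, h i ≠ 1 → hk h i ≠ 1 := by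
    intro h hf i hi h1 h2
    have h3 := hkv h hf i
    rw [h2, g0I i hi, one_mul] at h3
    exact h1 h3.symm
  have hps : ∀ h : Fin n → G, (∀ x, f (h x) = gb x) → (∃ i ∈ I, h i ≠ 1) →
      p (s' (hk h)).1 = h := by
    rintro h hf ⟨i, hi, h1⟩
    have h2 := hs2 (hk h) ⟨i, hi, hk1 h hf i hi h1⟩
    funext a
    rw [← pkv, h2, hkv h hf]
  have hup : ∀ (h : Fin n → G) (e : Fin n) (y : G),
      hk (Function.update h e y) = Function.update (hk h) e (κ ((g0 e)⁻¹ * y)) := by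
    intro h e y
    rw [hhk]
    funext a
    by_cases hae : a = e
    · rw [hae]
      simp only [Function.update_self]
    · simp only [Function.update_of_ne hae]
  refine ⟨fun h => (s' (hk h)).1, ?_, ?_, ?_, ?_⟩
  · have h1 : hk (p x0) = pk ⟨x0, hx0⟩ := by rw [hhk, hpk]
    show (s' (hk (p x0))).1 = x0
    rw [h1, hs1]
  · intro h hF hi
    exact ⟨(s' (hk h)).2, hps h hF.1 hi⟩
  · rintro h e y hF he hy ⟨i, hi, hie, h1⟩
    show (s' (hk (Function.update h e y))).1 = T e y (s' (hk h)).1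
    rw [hup, hs3 (hk h) e _ ⟨i, hi, hie, hk1 h hF.1 i hi h1⟩, F1 e _ _ he (by
      rw [hps h hF.1 ⟨i, hi, h1⟩]
      exact ⟨i, hi, hie, h1⟩), κg e y hy]
  · rintro h e j y hF he hj hy ⟨i, hi, hie, h1⟩
    show (s' (hk (Function.update h j y))).1 = Uc p T e j y (s' (hk h)).1
    rw [hup, hs3 (hk h) j _ ⟨i, hi, fun h' => hj (by rw [← h']; exact hi),
      hk1 h hF.1 i hi h1⟩, F2 j e _ _ hj he (by
      rw [hps h hF.1 ⟨i, hi, h1⟩]
      exact ⟨i, hi, hie, h1⟩), κg j y hy]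

end Sol

end RED
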