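import Pool.Agent.RED4.FactA
import Pool.Agent.RED4.FactB

/-!
# The moves giving a letter a value
-/

set_option autoImplicit false

namespace RED

open AFn IAQ

namespace Sol

variable {n : ℕ} {G K : Type*} [Group G] [Group K]

private theorem MvS_single {e : Fin n} {φ : MulAut (FreeGroup (Fin n))} (h : φ ∈ MvS {e}) :
    φ ∈ Mv e := by
  have h1 : MvS ({e} : Finset (Fin n)) ≤ Mv e := by
    unfold MvS
    rw [Subgroup.closure_le]
    rintro φ ⟨y, hy, hφ⟩
    rw [Finset.mem_singleton] at hy
    subst hy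
    exact hφ
  exact h1 h

private theorem ev_map (f : G →* K) (h : Fin n → G) (w : FreeGroup (Fin n)) :
    ev (fun x => f (h x)) w = f (ev h w) := by
  have h1 : ev (fun x => f (h x)) = f.comp (ev h) := by
    ext x
    rw [ev_of]
    show f (h x) = f (ev h (FreeGroup.of x))
    rw [ev_of]
  exact DFunLike.congr_fun h1 w

private theorem act_map (f : G →* K) (φ : MulAut (FreeGroup (Fin n))) (h : Fin n → G) :
    act φ (fun x => f (h x)) = fun x => f (act φ h x) := by
  funext x
  exact ev_map f h _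

theorem TOp_exists {E : Type*} [MulAction (MulAut (FreeGroup (Fin n))) E] {f : G →* K}
    {I : Finset (Fin n)} {gb : Fin n → K} {p : E → Fin n → G} {In : E → Prop}
    (hA : FA f I gb p In) : ∃ T : Fin n → G → E → E, TOp f gb p In T := by
  classical
  have hex : ∀ (h : Fin n → G) (e : Fin n) (y : G), ∃ θ : MulAut (FreeGroup (Fin n)),
      θ ∈ Mv e ∧ (Gen h {e}ᶜ → act θ h = Function.update h e y) := by
    intro h e y
    by_cases hg : Gen h {e}ᶜ
    · obtain ⟨θ, hθ, hθ2⟩ := exists_upd hg (fun _ => y)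
      refine ⟨θ, MvS_single hθ, fun _ => ?_⟩
      rw [hθ2]
      funext x
      by_cases hx : x = e
      · subst hx
        rw [upd_of_mem (Finset.mem_singleton_self _), Function.update_self]
      · rw [upd_of_notMem (fun hx' => hx (Finset.mem_singleton.1 hx')),
          Function.update_of_ne hx]
    · exact ⟨1, Subgroup.one_mem _, fun h' => absurd h' hg⟩
  choose ψ hψ1 hψ2 using hex
  have hgb : ∀ x, In x → gb = fun a => f (p x a) := by
    intro x hx
    funext a
    exact ((hA.fb x hx).1 a).symm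
  have hGam : ∀ (x : E) (e : Fin n) (y : G) (θ : MulAut (FreeGroup (Fin n))), In x →
      f y = gb e → act θ (p x) = Function.update (p x) e y → θ ∈ Gam gb := by
    intro x e y θ hx hy hθ
    rw [mem_Gam_iff]
    conv_lhs => rw [hgb x hx]
    rw [act_map, hθ]
    funext a
    by_cases ha : a = e
    · subst ha
      rw [Function.update_self, hy]
    · rw [Function.update_of_ne ha]
      exact (hA.fb x hx).1 a
  have hm : ∀ {e : Fin n} {S : Finset (Fin n)} {φ : MulAut (FreeGroup (Fin n))}, e ∈ S →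
      φ ∈ Mv e → φ ∈ MvS S := fun he hφ => Mv_le_MvS he hφ
  have hGu : ∀ (h : Fin n → G) (e : Fin n) (y : G) (S : Finset (Fin n)), e ∉ S → Gen h S →
      Gen (Function.update h e y) S := by
    intro h e y S he hS
    refine Gen_congr (fun x hx => ?_) hS
    have hxe : x ≠ e := by
      rintro rfl
      exact he hx
    rw [Function.update_of_ne hxe]
  let T : Fin n → G → E → E := fun e y x => ψ (p x) e y • x
  have hT : ∀ e y x, T e y x = ψ (p x) e y • x := fun e y x => rfl
  have hin : ∀ (e : Fin n) (y : G) (x : E), In x → Gen (p x) {e}ᶜ → f y = gb e →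
      In (T e y x) := by
    intro e y x hx hg hy
    exact hA.inn _ (hGam x e y _ hx hy (hψ2 _ _ _ hg)) x hx
  have hpT : ∀ (e : Fin n) (y : G) (x : E), Gen (p x) {e}ᶜ →
      p (T e y x) = Function.update (p x) e y := by
    intro e y x hg
    rw [hT, hA.ps, hψ2 _ _ _ hg]
  have heq : ∀ (e : Fin n) (y : G) (x : E) (θ : MulAut (FreeGroup (Fin n))), In x →
      Gen (p x) {e}ᶜ → θ ∈ Mv e → act θ (p x) = Function.update (p x) e y →
      θ • x = T e y x := by
    intro e y x θ hx hg hθ hθ2
    rw [hT]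
    refine hA.red {e} θ _ x hx hg (hm (Finset.mem_singleton_self _) hθ)
      (hm (Finset.mem_singleton_self _) (hψ1 _ _ _)) ?_
    rw [hθ2, hψ2 _ _ _ hg]
  have hself : ∀ e : Fin n, e ∉ ({e}ᶜ : Finset (Fin n)) := fun e h =>
    (Finset.mem_compl.1 h) (Finset.mem_singleton_self _)
  refine ⟨T, hin, fun e y x _ hg _ => hpT e y x hg,
    fun e y x θ hx hg _ hθ hθ2 => heq e y x θ hx hg hθ hθ2, ?_, ?_, ?_, ?_⟩
  · intro e x hx hg
    have h1 := heq e (p x e) x 1 hx hg (Subgroup.one_mem _)
      (by rw [act_one, Function.update_eq_self])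
    rw [one_smul] at h1
    exact h1.symm
  · intro e y z x hx hg hy hz
    have h1 : Gen (p (T e y x)) {e}ᶜ := by
      rw [hpT e y x hg]
      exact hGu _ _ _ _ (hself e) hg
    have h2 : T e z (T e y x) = (ψ (p (T e y x)) e z * ψ (p x) e y) • x := by
      rw [mul_smul, ← hT]
    rw [h2]
    refine heq e z x _ hx hg (Subgroup.mul_mem _ (hψ1 _ _ _) (hψ1 _ _ _)) ?_
    have h5 : act (ψ (p x) e y) (p x) = p (T e y x) := by rw [hT, hA.ps]
    rw [act_mul, h5, hψ2 _ _ _ h1, hpT e y x hg, Function.update_idem]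
  · intro e y x s hx hg hy hs hp
    have h1 : s • T e y x = (s * ψ (p x) e y * s⁻¹) • (s • x) := by
      rw [hT, mul_smul, mul_smul, inv_smul_smul]
    rw [h1]
    have hgs : Gen (p (s • x)) {e}ᶜ := by
      rw [hA.ps]
      exact Gen_pres hp hg
    refine heq e y (s • x) _ (hA.inn s hs x hx) hgs (Mv_conj hp (hψ1 _ _ _)) ?_
    rw [hA.ps, act_mul, act_inv_act, act_mul, hψ2 _ _ _ hg, act_update hp]
  · intro e e' y z x hx hne hg hy hz
    have hsub1 : ({e, e'} : Finset (Fin n))ᶜ ⊆ {e}ᶜ :=
      Finset.compl_subset_compl.2 (Finset.singleton_subset_iff.2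
        (Finset.mem_insert_self _ _))
    have hsub2 : ({e, e'} : Finset (Fin n))ᶜ ⊆ {e'}ᶜ :=
      Finset.compl_subset_compl.2 (Finset.singleton_subset_iff.2
        (Finset.mem_insert_of_mem (Finset.mem_singleton_self _)))
    have he := Gen_mono hsub1 hg
    have he' := Gen_mono hsub2 hg
    have h3 : Gen (p (T e y x)) {e'}ᶜ := by
      rw [hpT e y x he]
      exact Gen_mono hsub2 (hGu _ _ _ _ (fun h => (Finset.mem_compl.1 h)
        (Finset.mem_insert_self _ _)) hg)
    have h3' : Gen (p (T e' z x)) {e}ᶜ := by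
      rw [hpT e' z x he']
      exact Gen_mono hsub1 (hGu _ _ _ _ (fun h => (Finset.mem_compl.1 h)
        (Finset.mem_insert_of_mem (Finset.mem_singleton_self _))) hg)
    have h4 : T e' z (T e y x) = (ψ (p (T e y x)) e' z * ψ (p x) e y) • x := by
      rw [mul_smul, ← hT]
    have h4' : T e y (T e' z x) = (ψ (p (T e' z x)) e y * ψ (p x) e' z) • x := by
      rw [mul_smul, ← hT]
    have me : e ∈ ({e, e'} : Finset (Fin n)) := Finset.mem_insert_self _ _
    have me' : e' ∈ ({e, e'} : Finset (Fin n)) :=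
      Finset.mem_insert_of_mem (Finset.mem_singleton_self _)
    rw [h4, h4']
    refine hA.red {e, e'} _ _ x hx hg
      (Subgroup.mul_mem _ (hm me' (hψ1 _ _ _)) (hm me (hψ1 _ _ _)))
      (Subgroup.mul_mem _ (hm me (hψ1 _ _ _)) (hm me' (hψ1 _ _ _))) ?_
    have h5 : act (ψ (p x) e y) (p x) = p (T e y x) := by rw [hT, hA.ps]
    have h5' : act (ψ (p x) e' z) (p x) = p (T e' z x) := by rw [hT, hA.ps]
    rw [act_mul, act_mul, h5, h5', hψ2 _ _ _ h3, hψ2 _ _ _ h3', hpT e y x he,
      hpT e' z x he', Function.update_comm hne]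

end Sol

end RED
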