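import Pool.Agent.RED4.FAq
import Pool.Agent.RED4.TOpx
import Pool.Agent.RED4.ExtA
import Pool.Agent.RED4.ExtB
import Pool.Agent.RED4.NSe

/-!
# The induction step
-/

set_option autoImplicit false

namespace RED

open AFn IAQ

namespace Sol

variable {n : ℕ} {G K : Type*} [Group G] [Group K]

private theorem ev_comp (f : G →* K) (g : Fin n → G) (w : FreeGroup (Fin n)) :
    ev (fun x => f (g x)) w = f (ev g w) := by
  have h : ev (fun x => f (g x)) = f.comp (ev g) := by
    ext x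
    rw [ev_of, MonoidHom.comp_apply, ev_of]
  exact DFunLike.congr_fun h w

theorem step {f : G →* K} (hsurj : Function.Surjective f) (hf : MinK f)
    (hne : ∃ ν : G, f ν = 1 ∧ ν ≠ 1) {I : Finset (Fin n)} (hI : 5 ≤ I.card) {g : Fin n → G}
    (h1 : ∀ i ∈ I, g i = 1) (hg : Gen g Iᶜ)
    (ih : Gam (fun x => f (g x)) ≤ NN (fun x => f (g x))) : Gam g ≤ NN g := by
  obtain ⟨ν, hν, hν1⟩ := hne
  have hIne : I.Nonempty := Finset.card_pos.1 (by omega)
  have h1b : ∀ i ∈ I, (fun x => f (g x)) i = 1 := by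
    intro i hi
    show f (g i) = 1
    rw [h1 i hi, map_one]
  have hgb : Gen (fun x => f (g x)) Iᶜ := by
    intro k
    obtain ⟨γ, rfl⟩ := hsurj k
    obtain ⟨w, hw, hwγ⟩ := hg γ
    exact ⟨w, hw, by rw [ev_comp, hwγ]⟩
  have hFg : Fb f (fun x => f (g x)) g :=
    ⟨fun x => rfl, Gen_mono (Finset.subset_univ _) hg⟩
  have hA : Gam (fun x => f (g x)) ≤ Subgroup.closure {s | Good I (fun x => f (g x)) s} :=
    ih.trans (NN_le_good hIne h1b)
  have hGG : Gam g ≤ Gam (fun x => f (g x)) := by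
    intro φ hφ w
    rw [ev_comp, ev_comp, hφ w]
  obtain ⟨p, In, hFA, hIn, hp⟩ := FA_quot hf hI h1b hgb hFg hA
  obtain ⟨T, hT⟩ := TOp_exists hFA
  obtain ⟨s, hs0, hs1, hs2, hs3, hs4⟩ := sec_ext hFA hT _ hIn
    (by intro i hi; rw [hp]; exact h1 i hi) hν hν1
  rw [hp] at hs0
  have key : ∀ θ ∈ Subgroup.closure {s | Good I (fun x => f (g x)) s},
      θ ∈ Gam (fun x => f (g x)) ∧
        ∀ h : Fin n → G, Fb f (fun x => f (g x)) h → θ • s h = s (act θ h) := by
    intro θ hθ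
    induction hθ using Subgroup.closure_induction with
    | mem x hx => exact ⟨hx.1, fun h hh => sec_equiv hFA hT hν hν1 hs1 hs2 hs3 hs4 hx h hh⟩
    | one => exact ⟨Subgroup.one_mem _, fun h _ => by rw [one_smul, act_one]⟩
    | mul a b _ _ iha ihb =>
      refine ⟨Subgroup.mul_mem _ iha.1 ihb.1, fun h hh => ?_⟩
      rw [mul_smul, ihb.2 h hh, iha.2 _ (Fb_act ihb.1 hh), act_mul]
    | inv a _ iha =>
      refine ⟨Subgroup.inv_mem _ iha.1, fun h hh => ?_⟩
      have h3 := iha.2 _ (Fb_act (Subgroup.inv_mem _ iha.1) hh)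
      have h4 : act a (act a⁻¹ h) = h := by
        have := act_inv_act a⁻¹ h
        rwa [inv_inv] at this
      rw [h4] at h3
      rw [inv_smul_eq_iff, h3]
  intro θ hθ
  have h3 := (key θ (hA (hGG hθ))).2 g hFg
  rw [mem_Gam_iff.1 hθ, hs0, MulAction.Quotient.smul_coe, smul_eq_mul, mul_one] at h3
  have h4 := QuotientGroup.eq.1 h3
  rw [mul_one] at h4
  have h5 : θ ∈ NS g := by
    have := Subgroup.inv_mem _ h4
    rwa [inv_inv] at this
  exact NS_std hIne hg h1 h5

end Sol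

end RED
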