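import Pool.Agent.RED4.FactA
import Pool.Agent.RED4.FactB

/-!
# The moves of the letters outside of `I`, first part
-/

set_option autoImplicit false

namespace RED

open AFn IAQ

namespace Sol

variable {n : ℕ} {G K : Type*} [Group G] [Group K]

section

variable {E : Type*} [MulAction (MulAut (FreeGroup (Fin n))) E] {f : G →* K}
  {I : Finset (Fin n)} {gb : Fin n → K} {p : E → Fin n → G} {In : E → Prop}
  {T : Fin n → G → E → E}

private theorem u1_ne {e j : Fin n} (he : e ∈ I) (hj : j ∉ I) : e ≠ j := fun h => hj (h ▸ he)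

private theorem u1_leg_upd {h : Fin n → G} {e k : Fin n} {y : G} (hk : k ∉ I ∨ k = e)
    (hl : Leg I h e) : Leg I (Function.update h k y) e := by
  obtain ⟨i, hi, hie, h1⟩ := hl
  refine ⟨i, hi, hie, ?_⟩
  rw [Function.update_of_ne]
  · exact h1
  · rintro rfl
    rcases hk with hk | hk
    · exact hk hi
    · exact hie hk

theorem gen_leg (hA : FA f I gb p In) {x : E} (hx : In x) {e : Fin n} (he : e ∈ I)
    (hl : Leg I (p x) e) : Gen (p x) {e}ᶜ := by
  obtain ⟨i, hi, hie, h1⟩ := hl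
  refine gen_of_ne hA.min hA.gen (hA.fb x hx).1 (S := {e}ᶜ) ?_ (i := i) ?_ (hA.one i hi) h1
  · intro a ha
    rw [Finset.mem_compl] at ha ⊢
    rw [Finset.mem_singleton]
    rintro rfl
    exact ha he
  · rw [Finset.mem_compl, Finset.mem_singleton]
    exact hie

theorem gen_leg2 (hA : FA f I gb p In) {x : E} (hx : In x) {e e' i : Fin n} (he : e ∈ I)
    (he' : e' ∈ I) (hi : i ∈ I) (hie : i ≠ e) (hie' : i ≠ e') (h1 : p x i ≠ 1) :
    Gen (p x) {e, e'}ᶜ := by
  refine gen_of_ne hA.min hA.gen (hA.fb x hx).1 (S := {e, e'}ᶜ) ?_ (i := i) ?_ (hA.one i hi) h1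
  · intro a ha
    rw [Finset.mem_compl] at ha ⊢
    rw [Finset.mem_insert, Finset.mem_singleton]
    rintro (rfl | rfl)
    · exact ha he
    · exact ha he'
  · rw [Finset.mem_compl, Finset.mem_insert, Finset.mem_singleton, not_or]
    exact ⟨hie, hie'⟩

/-- the value used by `Uc` lies in the kernel -/
theorem Uc_val (hA : FA f I gb p In) {x : E} (hx : In x) {e j : Fin n} (he : e ∈ I) {y : G}
    (hy : f y = gb j) : f ((p x j)⁻¹ * y) = gb e := by
  rw [map_mul, map_inv, (hA.fb x hx).1 j, hy, inv_mul_cancel, hA.one e he]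

private theorem u1_T (hA : FA f I gb p In) (hT : TOp f gb p In T) {x : E} (hx : In x)
    {e : Fin n} (he : e ∈ I) (hl : Leg I (p x) e) {v : G} (hv : f v = gb e) :
    In (T e v x) ∧ p (T e v x) = Function.update (p x) e v :=
  ⟨hT.inT e v x hx (gen_leg hA hx he hl) hv, hT.pT e v x hx (gen_leg hA hx he hl) hv⟩

private theorem u1_R (hA : FA f I gb p In) {x : E} (hx : In x) {e j : Fin n} (he : e ∈ I)
    (hj : j ∉ I) : In ((R j (FreeGroup.of e))⁻¹ • x) ∧
      p ((R j (FreeGroup.of e))⁻¹ • x) = Function.update (p x) j (p x j * p x e) := by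
  refine ⟨hA.inn _ (Rinv_mem_Gam (u1_ne he hj).symm (hA.one e he)) x hx, ?_⟩
  rw [hA.ps, act_Rinv (u1_ne he hj).symm]

/-- the point after the first two steps -/
private theorem u1_two (hA : FA f I gb p In) (hT : TOp f gb p In T) {x : E} (hx : In x)
    {e j : Fin n} (he : e ∈ I) (hj : j ∉ I) (hl : Leg I (p x) e) {y : G} (hy : f y = gb j) :
    In ((R j (FreeGroup.of e))⁻¹ • T e ((p x j)⁻¹ * y) x) ∧
      p ((R j (FreeGroup.of e))⁻¹ • T e ((p x j)⁻¹ * y) x) =
        Function.update (Function.update (p x) e ((p x j)⁻¹ * y)) j y := by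
  obtain ⟨h1, h2⟩ := u1_T hA hT hx he hl (Uc_val hA hx he hy)
  obtain ⟨h3, h4⟩ := u1_R hA h1 he hj
  refine ⟨h3, ?_⟩
  rw [h4, h2, Function.update_self, Function.update_of_ne (u1_ne he hj).symm,
    mul_inv_cancel_left]

theorem Uc_in (hA : FA f I gb p In) (hT : TOp f gb p In T) {x : E} (hx : In x) {e j : Fin n}
    (he : e ∈ I) (hj : j ∉ I) (hl : Leg I (p x) e) {y : G} (hy : f y = gb j) :
    In (Uc p T e j y x) ∧ p (Uc p T e j y x) = Function.update (p x) j y := by
  obtain ⟨h3, h4⟩ := u1_two hA hT hx he hj hl hy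
  have hl3 : Leg I (p ((R j (FreeGroup.of e))⁻¹ • T e ((p x j)⁻¹ * y) x)) e := by
    rw [h4]
    exact u1_leg_upd (Or.inl hj) (u1_leg_upd (Or.inr rfl) hl)
  obtain ⟨h5, h6⟩ := u1_T hA hT h3 he hl3 (v := p x e) ((hA.fb x hx).1 e)
  refine ⟨h5, ?_⟩
  unfold Uc
  rw [h6, h4]
  have hej := u1_ne he hj
  funext a
  by_cases ha : a = e
  · rw [ha, Function.update_self, Function.update_of_ne hej]
  · rw [Function.update_of_ne ha]
    by_cases haj : a = j
    · rw [haj, Function.update_self, Function.update_self]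
    · rw [Function.update_of_ne haj, Function.update_of_ne haj, Function.update_of_ne ha]

private theorem u1_spare (hA : FA f I gb p In) (a b c : Fin n) :
    ∃ d ∈ I, d ≠ a ∧ d ≠ b ∧ d ≠ c := by
  by_contra hcon
  push Not at hcon
  have h1 : I ⊆ {a, b, c} := by
    intro d hd
    rw [Finset.mem_insert, Finset.mem_insert, Finset.mem_singleton]
    by_cases h1 : d = a
    · exact Or.inl h1
    · by_cases h2 : d = b
      · exact Or.inr (Or.inl h2)
      · exact Or.inr (Or.inr (hcon d hd h1 h2))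
  have h2 := (Finset.card_le_card h1).trans Finset.card_le_three
  have h3 := hA.card
  omega

/-- the first form of `Uc`, with a second letter -/
private theorem u1_form (hA : FA f I gb p In) (hT : TOp f gb p In T) {x : E} (hx : In x)
    {e e' i j : Fin n} (he : e ∈ I) (he' : e' ∈ I) (hi : i ∈ I) (hj : j ∉ I) (hee : e ≠ e')
    (hie : i ≠ e) (hie' : i ≠ e') (h1 : p x i ≠ 1) {y : G} (hy : f y = gb j) :
    Uc p T e j y x = T e (p x e) (T e' (p x e') ((R j (FreeGroup.of e))⁻¹ •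
      T e' ((p x j)⁻¹ * y) (T e ((p x j)⁻¹ * y) x))) := by
  have hl : Leg I (p x) e := ⟨i, hi, hie, h1⟩
  have hv' : f ((p x j)⁻¹ * y) = gb e' := Uc_val hA hx he' hy
  obtain ⟨h2, h3⟩ := u1_T hA hT hx he hl (Uc_val hA hx he hy)
  obtain ⟨h4, h5⟩ := u1_two hA hT hx he hj hl hy
  have hij : i ≠ j := u1_ne hi hj
  have g1 : Gen (p (T e ((p x j)⁻¹ * y) x)) {e'}ᶜ := by
    refine gen_leg hA h2 he' ⟨i, hi, hie', ?_⟩
    rw [h3, Function.update_of_ne hie]
    exact h1
  have g2 : Gen (p ((R j (FreeGroup.of e))⁻¹ • T e ((p x j)⁻¹ * y) x)) {e'}ᶜ := by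
    refine gen_leg hA h4 he' ⟨i, hi, hie', ?_⟩
    rw [h5, Function.update_of_ne hij, Function.update_of_ne hie]
    exact h1
  have h6 : p ((R j (FreeGroup.of e))⁻¹ • T e ((p x j)⁻¹ * y) x) e' = p x e' := by
    rw [h5, Function.update_of_ne (u1_ne he' hj), Function.update_of_ne hee.symm]
  rw [hT.comm e' _ _ _ h2 g1 hv' (Rinv_mem_Gam (u1_ne he hj).symm (hA.one e he))
    (pres_Rinv (u1_ne he' hj) hee.symm), hT.tri e' _ _ _ h4 g2 hv' ((hA.fb x hx).1 e')]
  have h7 := hT.self e' _ h4 g2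
  rw [h6] at h7
  rw [h7]
  rfl

private theorem u1_indep (hA : FA f I gb p In) (hT : TOp f gb p In T) {x : E} (hx : In x)
    {e e' i j : Fin n} (he : e ∈ I) (he' : e' ∈ I) (hi : i ∈ I) (hj : j ∉ I) (hee : e ≠ e')
    (hie : i ≠ e) (hie' : i ≠ e') (h1 : p x i ≠ 1) {y : G} (hy : f y = gb j) :
    Uc p T e j y x = Uc p T e' j y x := by
  rw [u1_form hA hT hx he he' hi hj hee hie hie' h1 hy,
    u1_form hA hT hx he' he hi hj hee.symm hie' hie h1 hy]
  have hij : i ≠ j := u1_ne hi hj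
  obtain ⟨v, hvd⟩ : ∃ v : G, v = (p x j)⁻¹ * y := ⟨_, rfl⟩
  have hv : f v = gb e := by rw [hvd]; exact Uc_val hA hx he hy
  have hv' : f v = gb e' := by rw [hvd]; exact Uc_val hA hx he' hy
  rw [← hvd]
  rw [← hT.sq e e' v v x hx hee (gen_leg2 hA hx he he' hi hie hie' h1) hv hv']
  -- the common point
  obtain ⟨h2, h3⟩ := u1_T hA hT hx he ⟨i, hi, hie, h1⟩ hv
  have hl' : Leg I (p (T e v x)) e' := ⟨i, hi, hie', by
    rw [h3, Function.update_of_ne hie]
    exact h1⟩
  obtain ⟨h4, h5⟩ := u1_T hA hT h2 he' hl' hv'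
  obtain ⟨z, hz⟩ : ∃ z, z = T e' v (T e v x) := ⟨_, rfl⟩
  rw [← hz] at h4 h5 ⊢
  have pe : p z e = v := by
    rw [h5, h3, Function.update_of_ne hee, Function.update_self]
  have pe' : p z e' = v := by rw [h5, Function.update_self]
  have pi : p z i ≠ 1 := by
    rw [h5, h3, Function.update_of_ne hie', Function.update_of_ne hie]
    exact h1
  obtain ⟨e3, he3, h3e, h3e', h3i⟩ := u1_spare hA e e' i
  have hR : ∀ a : Fin n, (R j (FreeGroup.of a))⁻¹ ∈ Mv j := fun a =>
    (Mv j).inv_mem (R_mem_Mv j _)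
  have key : (R j (FreeGroup.of e))⁻¹ • z = (R j (FreeGroup.of e'))⁻¹ • z := by
    refine hA.qq j e3 e _ _ z h4 (u1_ne he3 hj).symm h3e.symm (u1_ne he hj)
      (gen_leg2 hA h4 he he3 hi hie h3i.symm pi) (hR e) (hR e')
      (pres_Rinv (u1_ne he3 hj) h3e) (pres_Rinv (u1_ne he3 hj) h3e') ?_
    rw [act_Rinv (u1_ne he hj).symm, act_Rinv (u1_ne he' hj).symm, pe, pe']
  rw [← key]
  obtain ⟨h6, h7⟩ := u1_R hA h4 he hj
  refine (hT.sq e e' (p x e) (p x e') _ h6 hee (gen_leg2 hA h6 he he' hi hie hie' ?_)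
    ((hA.fb x hx).1 e) ((hA.fb x hx).1 e')).symm
  rw [h7, Function.update_of_ne hij]
  exact pi

theorem Uc_indep (hA : FA f I gb p In) (hT : TOp f gb p In T) {x : E} (hx : In x)
    {e e' j : Fin n} (he : e ∈ I) (he' : e' ∈ I) (hj : j ∉ I) (hl : Leg I (p x) e)
    (hl' : Leg I (p x) e') {y : G} (hy : f y = gb j) :
    Uc p T e j y x = Uc p T e' j y x := by
  by_cases hee : e = e'
  · rw [hee]
  by_cases hi : ∃ i ∈ I, i ≠ e ∧ i ≠ e' ∧ p x i ≠ 1
  · obtain ⟨i, hi, hie, hie', h1⟩ := hi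
    exact u1_indep hA hT hx he he' hi hj hee hie hie' h1 hy
  · push Not at hi
    obtain ⟨a, ha, hae, ha1⟩ := hl
    obtain ⟨b, hb, hbe, hb1⟩ := hl'
    have hae' : a = e' := by
      by_contra h
      exact ha1 (hi a ha hae h)
    have hbe' : b = e := by
      by_contra h
      exact hb1 (hi b hb h hbe)
    rw [hae'] at ha1
    rw [hbe'] at hb1
    obtain ⟨e2, he2, h2e, h2e', -⟩ := u1_spare hA e e' e'
    rw [u1_indep hA hT hx he he2 he' hj h2e.symm (Ne.symm hee) h2e'.symm ha1 hy,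
      u1_indep hA hT hx he' he2 he hj h2e'.symm hee h2e.symm hb1 hy]

theorem Uc_self (hA : FA f I gb p In) (hT : TOp f gb p In T) {x : E} (hx : In x) {e j : Fin n}
    (he : e ∈ I) (hj : j ∉ I) (hl : Leg I (p x) e) : Uc p T e j (p x j) x = x := by
  have hg := gen_leg hA hx he hl
  unfold Uc
  rw [inv_mul_cancel]
  have hv : f 1 = gb e := by rw [map_one, hA.one e he]
  obtain ⟨h1, h2⟩ := u1_T hA hT hx he hl hv
  obtain ⟨i, hi, hie, hi1⟩ := hl
  obtain ⟨e3, he3, h3e, h3i, -⟩ := u1_spare hA e i i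
  have pi : p (T e 1 x) i ≠ 1 := by
    rw [h2, Function.update_of_ne hie]
    exact hi1
  have key : (R j (FreeGroup.of e))⁻¹ • T e 1 x = (1 : MulAut (FreeGroup (Fin n))) • T e 1 x := by
    refine hA.qq j e3 e _ _ _ h1 (u1_ne he3 hj).symm h3e.symm (u1_ne he hj)
      (gen_leg2 hA h1 he he3 hi hie h3i.symm pi) ((Mv j).inv_mem (R_mem_Mv j _))
      (Mv j).one_mem (pres_Rinv (u1_ne he3 hj) h3e) (Pres_one e3) ?_
    rw [act_Rinv (u1_ne he hj).symm, act_one, h2, Function.update_self, mul_one,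
      Function.update_eq_self]
  rw [key, one_smul, hT.tri e 1 (p x e) x hx hg hv ((hA.fb x hx).1 e), hT.self e x hx hg]

end

end Sol

end RED
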